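import Mathlib

/-!
# The dilogarithm variation of mixed Hodge structure on `ℂ ∖ {0, 1}` and its constant twists

All definitions used by the statements on the Hodge locus and the atypical locus.
-/

open Complex

namespace Pool.Agent.LibZP33

/-- The dilogarithm `Li₂(z) = -∫₀¹ log(1 - t z) dt / t` (principal branch, with the principal
logarithm). -/
noncomputable def dilog (z : ℂ) : ℂ := -∫ t in (0:ℝ)..1, Complex.log (1 - t * z) / t

/-- The Bloch-Wigner dilogarithm `D(z) = Im Li₂(z) + arg(1 - z) log |z|`. -/
noncomputable def blochWigner (z : ℂ) : ℝ := (dilog z).im + (1 - z).arg * Real.log ‖z‖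

/-- The primitive sixth root of unity `ω = exp(iπ/3)`. -/
noncomputable def omega : ℂ := Complex.exp ((Real.pi / 3 : ℝ) * I)

/-- Period matrix at `z` of the dilogarithm variation of mixed Hodge structure twisted by the
constant class `κ` of `Ext¹(ℤ(0), ℤ(2)) = ℂ / (2πi)²ℤ`. Column `k` is the `k`-th vector of the flat
integral basis, written in the basis `e₀, e₁, e₂` for which `e_k` spans the part of type `(-k,-k)`
(the intersection of `F^{-k}` and `W_{-2k}`). For `κ = 0` this is the usual dilogarithm
variation. -/
noncomputable def periodMatrix (κ z : ℂ) : Matrix (Fin 3) (Fin 3) ℂ :=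
  !![1, 0, 0;
     -Complex.log (1 - z), 2 * Real.pi * I, 0;
     dilog z + κ, 2 * Real.pi * I * Complex.log z, (2 * Real.pi * I) ^ 2]

/-- The derivative of the Hodge cocharacter, in the integral basis: the operator acting as
multiplication by `k` on the part of type `(-k,-k)`. -/
noncomputable def hodgeOperator (κ z : ℂ) : Matrix (Fin 3) (Fin 3) ℂ :=
  (periodMatrix κ z)⁻¹ * Matrix.diagonal ![0, 1, 2] * periodMatrix κ z

/-- The Lie algebra of the Mumford-Tate group of the fibre at `z`: the smallest rational space of
`3 × 3` matrices that is closed under the commutator and whose complexification contains the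
derivative of the Hodge cocharacter. -/
noncomputable def mtLie (κ z : ℂ) : Submodule ℚ (Matrix (Fin 3) (Fin 3) ℚ) :=
  sInf {L | (∀ A ∈ L, ∀ B ∈ L, A * B - B * A ∈ L) ∧ hodgeOperator κ z ∈
    Submodule.span ℂ ((fun M : Matrix (Fin 3) (Fin 3) ℚ => M.map (algebraMap ℚ ℂ)) '' (L : Set _))}

/-- The dimension of the Mumford-Tate group of the fibre at `z`. -/
noncomputable def mtDim (κ z : ℂ) : ℕ := Module.finrank ℚ (mtLie κ z)

/-- The dimension of the generic Mumford-Tate group of the variation over `ℂ ∖ {0, 1}`. -/
noncomputable def genericMtDim (κ : ℂ) : ℕ := ⨆ z : {z : ℂ // z ≠ 0 ∧ z ≠ 1}, mtDim κ z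

/-- The Hodge locus of the variation over `ℂ ∖ {0, 1}`: the points whose Mumford-Tate group is
smaller than the generic one. -/
def hodgeLocus (κ : ℂ) : Set ℂ := {z | z ≠ 0 ∧ z ≠ 1 ∧ mtDim κ z < genericMtDim κ}

/-- The atypical locus. The Mumford-Tate domain at `z` is an orbit of the unipotent radical, so it
has dimension `mtDim κ z - 1`. A special point `z` is typical when the codimension of its domain in
the generic one is `1`, the codimension of the point in the image of the period map, and atypical
otherwise. -/
def atypicalLocus (κ : ℂ) : Set ℂ :=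
  {z | z ∈ hodgeLocus κ ∧ (genericMtDim κ - 1) - (mtDim κ z - 1) ≠ 1}

end Pool.Agent.LibZP33
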