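import Mathlib
import Pool.Agent.LibZP33.DilogDefs

open Complex MeasureTheory Set intervalIntegral Filter Topology

namespace Pool.Agent.LibZP33

lemma one_sub_mul_mem {z : ℂ} (hz : 1 - z ∈ slitPlane) {t : ℝ} (ht : t ∈ Icc (0:ℝ) 1) :
    1 - (t:ℂ) * z ∈ slitPlane := by
  have h := starConvex_one_slitPlane hz (a := 1 - t) (b := t) (by linarith [ht.2]) ht.1 (by ring)
  convert h using 1
  simp [Algebra.smul_def]
  ring

lemma continuousOn_slope {z : ℂ} (hz : 1 - z ∈ slitPlane) :
    ContinuousOn (dslope (fun t : ℝ => Complex.log (1 - t * z)) 0) (Icc (0:ℝ) 1) := by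
  have hopen : IsOpen {t : ℝ | 1 - (t:ℂ) * z ∈ slitPlane} := by
    apply isOpen_slitPlane.preimage
    fun_prop
  have hsub : Icc (0:ℝ) 1 ⊆ {t : ℝ | 1 - (t:ℂ) * z ∈ slitPlane} := fun t ht => one_sub_mul_mem hz ht
  refine ContinuousOn.mono ?_ hsub
  rw [continuousOn_dslope (hopen.mem_nhds (hsub (by simp)))]
  refine ⟨?_, ?_⟩
  · intro t ht
    refine ContinuousAt.continuousWithinAt ?_
    have h1 : ContinuousAt (fun t : ℝ => 1 - (t:ℂ) * z) t := by fun_prop
    exact h1.clog ht
  · have h1 : HasDerivAt (fun t : ℝ => 1 - (t:ℂ) * z) (- z) 0 := by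
      have : HasDerivAt (fun t : ℝ => (t:ℂ)) 1 0 := Complex.ofRealCLM.hasDerivAt
      simpa using (this.mul_const z).const_sub 1
    exact (h1.clog_real (by simp)).differentiableAt

lemma intervalIntegrable_log_div {z : ℂ} (hz : 1 - z ∈ slitPlane) :
    IntervalIntegrable (fun t : ℝ => Complex.log (1 - t * z) / t) volume 0 1 := by
  have h1 := (continuousOn_slope hz).intervalIntegrable_of_Icc (μ := volume) zero_le_one
  refine h1.congr ?_
  intro t ht
  rw [uIoc_of_le zero_le_one] at ht
  rw [dslope_of_ne _ ht.1.ne']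
  simp [slope_def_module]
  field_simp

lemma isOpen_slit : IsOpen {z : ℂ | 1 - z ∈ slitPlane} := by
  apply isOpen_slitPlane.preimage
  fun_prop

lemma hasDerivAt_dilog' {z : ℂ} (hz : 1 - z ∈ slitPlane) :
    HasDerivAt dilog (∫ t in (0:ℝ)..1, 1 / (1 - t * z)) z := by
  obtain ⟨ε, hε, hball⟩ := Metric.isOpen_iff.1 isOpen_slit z hz
  have hK : IsCompact (Icc (0:ℝ) 1 ×ˢ Metric.closedBall z (ε/2)) :=
    isCompact_Icc.prod (isCompact_closedBall z (ε/2))
  have hmem : ∀ w ∈ Metric.closedBall z (ε/2), 1 - w ∈ slitPlane := by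
    intro w hw
    exact hball (Metric.closedBall_subset_ball (by linarith) hw)
  have hcont : ContinuousOn (fun p : ℝ × ℂ => 1 / (1 - (p.1:ℂ) * p.2))
      (Icc (0:ℝ) 1 ×ˢ Metric.closedBall z (ε/2)) := by
    refine ContinuousOn.div continuousOn_const (by fun_prop) ?_
    intro p hp
    exact slitPlane_ne_zero (one_sub_mul_mem (hmem _ hp.2) hp.1)
  obtain ⟨C, hC⟩ := hK.exists_bound_of_continuousOn hcont
  have key := intervalIntegral.hasDerivAt_integral_of_dominated_loc_of_deriv_le
    (μ := volume) (a := 0) (b := 1) (bound := fun _ => C)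
    (F := fun (w : ℂ) (t : ℝ) => - (Complex.log (1 - t * w) / t))
    (F' := fun (w : ℂ) (t : ℝ) => 1 / (1 - t * w)) (x₀ := z) (s := Metric.closedBall z (ε/2))
    (Metric.closedBall_mem_nhds z (by linarith)) ?_ ?_ ?_ ?_ ?_ ?_
  · have h2 := key.2
    have h3 : dilog = fun w : ℂ => ∫ t in (0:ℝ)..1, - (Complex.log (1 - t * w) / t) := by
      funext w
      rw [dilog, intervalIntegral.integral_neg]
    rw [h3]
    exact h2
  · filter_upwards with w
    have : Measurable (fun t : ℝ => - (Complex.log (1 - t * w) / t)) := by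
      refine Measurable.neg (Measurable.div (Complex.measurable_log.comp ?_) Complex.measurable_ofReal)
      exact measurable_const.sub (Complex.measurable_ofReal.mul_const w)
    exact this.aestronglyMeasurable
  · exact (intervalIntegrable_log_div hz).neg
  · have : Measurable (fun t : ℝ => (1:ℂ) / (1 - t * z)) := by
      exact measurable_const.div (measurable_const.sub (Complex.measurable_ofReal.mul_const z))
    exact this.aestronglyMeasurable
  · filter_upwards with t ht w hw
    rw [uIoc_of_le zero_le_one] at ht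
    exact hC (t, w) ⟨⟨ht.1.le, ht.2⟩, hw⟩
  · exact intervalIntegrable_const
  · filter_upwards with t ht w hw
    rw [uIoc_of_le zero_le_one] at ht
    have h1 : HasDerivAt (fun w : ℂ => 1 - (t:ℂ) * w) (-(t:ℂ)) w := by
      simpa using ((hasDerivAt_id w).const_mul (t:ℂ)).const_sub 1
    have h2 := (h1.clog (one_sub_mul_mem (hmem w hw) ⟨ht.1.le, ht.2⟩)).div_const (t:ℂ)
    have h3 := h2.fun_neg
    have h5 : (t:ℂ) ≠ 0 := by exact_mod_cast ht.1.ne'
    have h4 : 1 - (t:ℂ) * w ≠ 0 := slitPlane_ne_zero (one_sub_mul_mem (hmem w hw) ⟨ht.1.le, ht.2⟩)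
    have h6 : (1:ℂ) / (1 - t * w) = -(-(t:ℂ) / (1 - t * w) / t) := by
      field_simp
    rw [h6]
    exact h3

lemma hasDerivAt_dilog {z : ℂ} (hz : 1 - z ∈ slitPlane) (h0 : z ≠ 0) :
    HasDerivAt dilog (- Complex.log (1 - z) / z) z := by
  have h := hasDerivAt_dilog' hz
  convert h using 1
  have key : ∀ t ∈ uIcc (0:ℝ) 1, HasDerivAt (fun t : ℝ => - Complex.log (1 - t * z) / z)
      (1 / (1 - t * z)) t := by
    intro t ht
    rw [uIcc_of_le zero_le_one] at ht
    have h1 : HasDerivAt (fun t : ℝ => 1 - (t:ℂ) * z) (- z) t := by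
      have : HasDerivAt (fun t : ℝ => (t:ℂ)) 1 t := Complex.ofRealCLM.hasDerivAt
      simpa using (this.mul_const z).const_sub 1
    have h2 := ((h1.clog_real (one_sub_mul_mem hz ht)).fun_neg).div_const z
    have h4 : 1 - (t:ℂ) * z ≠ 0 := slitPlane_ne_zero (one_sub_mul_mem hz ht)
    have h6 : (1:ℂ) / (1 - t * z) = -(-z / (1 - t * z)) / z := by
      field_simp
    rw [h6]
    exact h2
  have hint : IntervalIntegrable (fun t : ℝ => (1:ℂ) / (1 - t * z)) volume 0 1 := by
    apply ContinuousOn.intervalIntegrable_of_Icc zero_le_one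
    refine ContinuousOn.div continuousOn_const (by fun_prop) ?_
    intro t ht
    exact slitPlane_ne_zero (one_sub_mul_mem hz ht)
  rw [integral_eq_sub_of_hasDerivAt key hint]
  simp


lemma one_sub_mem_of_im_ne {z : ℂ} (h : z.im ≠ 0) : 1 - z ∈ slitPlane := by
  rw [mem_slitPlane_iff]
  right
  simpa using h

lemma mem_of_im_ne {z : ℂ} (h : z.im ≠ 0) : z ∈ slitPlane := by
  rw [mem_slitPlane_iff]
  right
  exact h

lemma ne_zero_of_im_ne {z : ℂ} (h : z.im ≠ 0) : z ≠ 0 := slitPlane_ne_zero (mem_of_im_ne h)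

lemma hasDerivAt_blochWigner_comp {γ : ℝ → ℂ} {γ' : ℂ} {t : ℝ} (hγ : HasDerivAt γ γ' t)
    (him : (γ t).im ≠ 0) :
    HasDerivAt (fun s => blochWigner (γ s))
      (- Real.log ‖1 - γ t‖ * (γ' / γ t).im - Real.log ‖γ t‖ * (γ' / (1 - γ t)).im) t := by
  have h1 := one_sub_mem_of_im_ne him
  have h2 := mem_of_im_ne him
  have h0 := ne_zero_of_im_ne him
  have d1 : HasDerivAt (fun s => dilog (γ s)) (- Complex.log (1 - γ t) / γ t * γ') t :=
    (hasDerivAt_dilog h1 h0).scomp_of_eq t hγ rfl |>.congr_deriv (by simp [mul_comm])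
  have d2 : HasDerivAt (fun s => Complex.log (1 - γ s)) (- γ' / (1 - γ t)) t :=
    (hγ.const_sub 1).clog_real h1
  have d3 : HasDerivAt (fun s => Complex.log (γ s)) (γ' / γ t) t := hγ.clog_real h2
  have i1 : HasDerivAt (fun s => (dilog (γ s)).im) (- Complex.log (1 - γ t) / γ t * γ').im t :=
    (Complex.imCLM.hasFDerivAt.comp_hasDerivAt t d1)
  have i2 : HasDerivAt (fun s => (1 - γ s).arg) (- γ' / (1 - γ t)).im t := by
    have := (Complex.imCLM.hasFDerivAt.comp_hasDerivAt t d2)
    simpa [Function.comp_def, Complex.log_im] using this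
  have i3 : HasDerivAt (fun s => Real.log ‖γ s‖) (γ' / γ t).re t := by
    have := (Complex.reCLM.hasFDerivAt.comp_hasDerivAt t d3)
    simpa [Function.comp_def, Complex.log_re] using this
  have := i1.add (i2.mul i3)
  refine this.congr_deriv ?_
  have e1 : - Complex.log (1 - γ t) / γ t * γ' = - Complex.log (1 - γ t) * (γ' / γ t) := by
    field_simp
  have e2 : - γ' / (1 - γ t) = - (γ' / (1 - γ t)) := by ring
  rw [e1, e2, Complex.mul_im, Complex.neg_re, Complex.neg_im, Complex.neg_im, Complex.log_re,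
    Complex.log_im]
  ring


lemma im_div_one_sub (w : ℂ) : (w / (1 - w)).im = w.im / ‖1 - w‖ ^ 2 := by
  rw [Complex.div_im, ← Complex.normSq_eq_norm_sq]
  simp
  ring_nf

/-- derivative of `D` along the ray `r ↦ r u`. -/
lemma hasDerivAt_radial {u : ℂ} (hu : 0 < u.im) {r : ℝ} (hr : 0 < r) (hn : ‖u‖ = 1) :
    HasDerivAt (fun s : ℝ => blochWigner (s * u))
      (- Real.log r * (u.im / ‖1 - r * u‖ ^ 2)) r := by
  have hγ : HasDerivAt (fun s : ℝ => (s:ℂ) * u) u r := by
    have : HasDerivAt (fun t : ℝ => (t:ℂ)) 1 r := Complex.ofRealCLM.hasDerivAt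
    simpa using this.mul_const u
  have him : ((r:ℂ) * u).im ≠ 0 := by
    simp only [Complex.im_ofReal_mul]
    positivity
  have hu0 : u ≠ 0 := ne_zero_of_im_ne hu.ne'
  have hr0 : (r:ℂ) ≠ 0 := by exact_mod_cast hr.ne'
  have h := hasDerivAt_blochWigner_comp hγ him
  refine h.congr_deriv ?_
  have e1 : (u / ((r:ℂ) * u)).im = 0 := by
    have : u / ((r:ℂ) * u) = ((r⁻¹ : ℝ) : ℂ) := by
      push_cast
      field_simp
    rw [this, Complex.ofReal_im]
  have e2 : (u / (1 - (r:ℂ) * u)).im = u.im / ‖1 - (r:ℂ) * u‖ ^ 2 := by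
    have h3 := im_div_one_sub ((r:ℂ) * u)
    have h4 : (r:ℂ) * u / (1 - (r:ℂ) * u) = (r:ℂ) * (u / (1 - (r:ℂ) * u)) := by ring
    rw [h4, Complex.im_ofReal_mul, Complex.im_ofReal_mul, mul_div_assoc] at h3
    exact mul_left_cancel₀ hr.ne' h3
  rw [e1, e2, norm_mul, hn, Complex.norm_real, Real.norm_of_nonneg hr.le]
  ring_nf

lemma norm_one_sub_pos {u : ℂ} (hu : 0 < u.im) {r : ℝ} (hr : 0 < r) :
    0 < ‖1 - (r:ℂ) * u‖ := by
  rw [norm_pos_iff]
  apply slitPlane_ne_zero
  apply one_sub_mem_of_im_ne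
  rw [Complex.im_ofReal_mul]
  positivity

lemma radial_lt {u : ℂ} (hu : 0 < u.im) (hn : ‖u‖ = 1) {r : ℝ} (hr : 0 < r) (hr1 : r ≠ 1) :
    blochWigner (r * u) < blochWigner u := by
  rcases lt_or_gt_of_ne hr1 with h | h
  · have hmono : StrictMonoOn (fun s : ℝ => blochWigner (s * u)) (Icc r 1) := by
      apply strictMonoOn_of_deriv_pos (convex_Icc r 1)
      · intro s hs
        exact (hasDerivAt_radial hu (hr.trans_le hs.1) hn).continuousAt.continuousWithinAt
      · intro s hs
        rw [interior_Icc] at hs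
        rw [(hasDerivAt_radial hu (hr.trans hs.1) hn).deriv]
        have := Real.log_neg (hr.trans hs.1) hs.2
        have h2 := norm_one_sub_pos hu (hr.trans hs.1)
        have : 0 < - Real.log s := by linarith
        positivity
    have := hmono (left_mem_Icc.2 h.le) (right_mem_Icc.2 h.le) h
    simpa using this
  · have hmono : StrictAntiOn (fun s : ℝ => blochWigner (s * u)) (Icc 1 r) := by
      apply strictAntiOn_of_deriv_neg (convex_Icc 1 r)
      · intro s hs
        exact (hasDerivAt_radial hu (zero_lt_one.trans_le hs.1) hn).continuousAt.continuousWithinAt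
      · intro s hs
        rw [interior_Icc] at hs
        rw [(hasDerivAt_radial hu (zero_lt_one.trans hs.1) hn).deriv]
        have := Real.log_pos hs.1
        have h2 := norm_one_sub_pos hu (zero_lt_one.trans hs.1)
        have : 0 < Real.log s * (u.im / ‖1 - (s:ℂ) * u‖ ^ 2) := by positivity
        linarith
    have := hmono (left_mem_Icc.2 h.le) (right_mem_Icc.2 h.le) h
    simpa using this

/-- derivative of `D` along the unit circle. -/
lemma hasDerivAt_angular {θ : ℝ} (h0 : 0 < θ) (h1 : θ < Real.pi) :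
    HasDerivAt (fun s : ℝ => blochWigner (Complex.exp (s * I)))
      (- Real.log ‖1 - Complex.exp (θ * I)‖) θ := by
  have hγ : HasDerivAt (fun s : ℝ => Complex.exp ((s:ℂ) * I)) (Complex.exp (θ * I) * I) θ := by
    have : HasDerivAt (fun t : ℝ => (t:ℂ)) 1 θ := Complex.ofRealCLM.hasDerivAt
    have h2 := (this.mul_const I).cexp
    simpa using h2
  have him : (Complex.exp ((θ:ℂ) * I)).im ≠ 0 := by
    rw [Complex.exp_ofReal_mul_I_im]
    exact (Real.sin_pos_of_pos_of_lt_pi h0 h1).ne'
  have h := hasDerivAt_blochWigner_comp hγ him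
  refine h.congr_deriv ?_
  have e1 : (Complex.exp (θ * I) * I / Complex.exp ((θ:ℂ) * I)).im = 1 := by
    rw [mul_div_cancel_left₀ _ (Complex.exp_ne_zero _), Complex.I_im]
  rw [e1, Complex.norm_exp_ofReal_mul_I, Real.log_one]
  ring

lemma norm_one_sub_exp_sq (θ : ℝ) :
    ‖1 - Complex.exp (θ * I)‖ ^ 2 = 2 - 2 * Real.cos θ := by
  rw [← Complex.normSq_eq_norm_sq, Complex.normSq_apply]
  simp only [Complex.sub_re, Complex.sub_im, Complex.one_re, Complex.one_im,
    Complex.exp_ofReal_mul_I_re, Complex.exp_ofReal_mul_I_im]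
  nlinarith [Real.sin_sq_add_cos_sq θ]

lemma angular_lt {θ : ℝ} (h0 : 0 < θ) (h1 : θ < Real.pi) (hne : θ ≠ Real.pi / 3) :
    blochWigner (Complex.exp (θ * I)) < blochWigner (Complex.exp ((Real.pi / 3 : ℝ) * I)) := by
  have hpi := Real.pi_pos
  rcases lt_or_gt_of_ne hne with h | h
  · have hmono : StrictMonoOn (fun s : ℝ => blochWigner (Complex.exp (s * I)))
        (Icc θ (Real.pi / 3)) := by
      apply strictMonoOn_of_deriv_pos (convex_Icc _ _)
      · intro s hs
        exact (hasDerivAt_angular (h0.trans_le hs.1) (by linarith [hs.2])).continuousAt.continuousWithinAt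
      · intro s hs
        rw [interior_Icc] at hs
        rw [(hasDerivAt_angular (h0.trans hs.1) (by linarith [hs.2])).deriv]
        have hs0 : 0 < s := h0.trans hs.1
        have hc : 1 / 2 < Real.cos s := by
          rw [← Real.cos_pi_div_three]
          exact Real.cos_lt_cos_of_nonneg_of_le_pi_div_two hs0.le (by linarith) hs.2
        have hc1 : Real.cos s < 1 := by
          rw [← Real.cos_zero]
          exact Real.cos_lt_cos_of_nonneg_of_le_pi_div_two le_rfl (by linarith [hs.2]) hs0
        have hsq := norm_one_sub_exp_sq s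
        have hlt : ‖1 - Complex.exp (s * I)‖ < 1 := by
          nlinarith [norm_nonneg (1 - Complex.exp (s * I))]
        have hpos : 0 < ‖1 - Complex.exp (s * I)‖ := by
          rcases (norm_nonneg (1 - Complex.exp (s * I))).eq_or_lt with h5 | h5
          · rw [← h5] at hsq
            nlinarith
          · exact h5
        have := Real.log_neg hpos hlt
        linarith
    exact hmono (left_mem_Icc.2 h.le) (right_mem_Icc.2 h.le) h
  · have hmono : StrictAntiOn (fun s : ℝ => blochWigner (Complex.exp (s * I)))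
        (Icc (Real.pi / 3) θ) := by
      apply strictAntiOn_of_deriv_neg (convex_Icc _ _)
      · intro s hs
        exact (hasDerivAt_angular (by linarith [hs.1]) (by linarith [hs.2])).continuousAt.continuousWithinAt
      · intro s hs
        rw [interior_Icc] at hs
        rw [(hasDerivAt_angular (by linarith [hs.1]) (by linarith [hs.2])).deriv]
        have hc : Real.cos s < 1 / 2 := by
          rw [← Real.cos_pi_div_three]
          exact Real.cos_lt_cos_of_nonneg_of_le_pi (by linarith) (by linarith [hs.2]) hs.1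
        have hsq := norm_one_sub_exp_sq s
        have hlt : 1 < ‖1 - Complex.exp (s * I)‖ := by
          nlinarith [norm_nonneg (1 - Complex.exp (s * I))]
        have := Real.log_pos hlt
        linarith
    exact hmono (left_mem_Icc.2 h.le) (right_mem_Icc.2 h.le) h


lemma arg_one_sub_neg {z : ℂ} (hz : 0 < z.im) : (1 - z).arg < 0 := by
  rw [Complex.arg_neg_iff]
  simpa using hz

lemma im_dilog_eq {z : ℂ} (hz : 1 - z ∈ slitPlane) :
    (dilog z).im = ∫ t in (0:ℝ)..1, - ((1 - t * z).arg / t) := by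
  rw [dilog, Complex.neg_im, ← Complex.imCLM_apply,
    ← Complex.imCLM.intervalIntegral_comp_comm (intervalIntegrable_log_div hz),
    ← intervalIntegral.integral_neg]
  apply intervalIntegral.integral_congr
  intro t ht
  simp only [Complex.imCLM_apply]
  have : Complex.log (1 - (t:ℂ) * z) / (t:ℂ) = ((t⁻¹ : ℝ) : ℂ) * Complex.log (1 - (t:ℂ) * z) := by
    push_cast
    ring
  rw [this, Complex.im_ofReal_mul, Complex.log_im]
  ring

lemma im_dilog_pos {z : ℂ} (hz : 0 < z.im) : 0 < (dilog z).im := by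
  have h1 := one_sub_mem_of_im_ne hz.ne'
  rw [im_dilog_eq h1]
  apply intervalIntegral.intervalIntegral_pos_of_pos_on
  · have h2 := (Complex.imCLM.integrable_comp (intervalIntegrable_log_div h1).1)
    have h3 : IntervalIntegrable (fun t : ℝ => (Complex.log (1 - t * z) / t).im) volume 0 1 := by
      rw [intervalIntegrable_iff_integrableOn_Ioc_of_le zero_le_one]
      exact h2
    refine h3.neg.congr ?_
    intro t ht
    simp only [Pi.neg_apply]
    have : Complex.log (1 - (t:ℂ) * z) / (t:ℂ) = ((t⁻¹ : ℝ) : ℂ) * Complex.log (1 - (t:ℂ) * z) := by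
      push_cast
      ring
    rw [this, Complex.im_ofReal_mul, Complex.log_im]
    ring
  · intro t ht
    have h5 : (1 - (t:ℂ) * z).arg < 0 := by
      apply arg_one_sub_neg
      rw [Complex.im_ofReal_mul]
      exact mul_pos ht.1 hz
    have := div_neg_of_neg_of_pos h5 ht.1
    linarith
  · exact zero_lt_one

lemma blochWigner_pos_of_norm_le {z : ℂ} (hz : 0 < z.im) (h1 : ‖z‖ ≤ 1) : 0 < blochWigner z := by
  have a := im_dilog_pos hz
  have b := arg_one_sub_neg hz
  have c : Real.log ‖z‖ ≤ 0 := Real.log_nonpos (norm_nonneg z) h1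
  unfold blochWigner
  nlinarith

/-- inversion along rays: `D(r u) = D(r⁻¹ u)` for `|u| = 1`. -/
lemma radial_inv {u : ℂ} (hu : 0 < u.im) (hn : ‖u‖ = 1) {r : ℝ} (hr : 1 < r) :
    blochWigner (r * u) = blochWigner ((r⁻¹ : ℝ) * u) := by
  have hd : ∀ s ∈ Icc 1 r, HasDerivAt
      (fun s : ℝ => blochWigner (s * u) - blochWigner ((s⁻¹ : ℝ) * u)) 0 s := by
    intro s hs
    have hs0 : 0 < s := zero_lt_one.trans_le hs.1
    have h1 := hasDerivAt_radial hu hs0 hn
    have h2 := hasDerivAt_radial hu (inv_pos.2 hs0) hn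
    have h3 := h2.comp_of_eq s (hasDerivAt_inv hs0.ne') rfl
    have h4 := h1.sub h3
    refine h4.congr_deriv ?_
    have e1 : ‖1 - (s:ℂ) * u‖ ^ 2 = 1 - 2 * s * u.re + s ^ 2 := by
      rw [← Complex.normSq_eq_norm_sq, Complex.normSq_apply]
      have hu2 : u.re * u.re + u.im * u.im = 1 := by
        rw [← Complex.normSq_apply, Complex.normSq_eq_norm_sq, hn]; norm_num
      simp
      nlinarith
    have e2 : ‖1 - ((s⁻¹:ℝ):ℂ) * u‖ ^ 2 = 1 - 2 * s⁻¹ * u.re + s⁻¹ ^ 2 := by
      rw [← Complex.normSq_eq_norm_sq, Complex.normSq_apply]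
      have hu2 : u.re * u.re + u.im * u.im = 1 := by
        rw [← Complex.normSq_apply, Complex.normSq_eq_norm_sq, hn]; norm_num
      simp only [Complex.sub_re, Complex.sub_im, Complex.one_re, Complex.one_im,
        Complex.re_ofReal_mul, Complex.im_ofReal_mul]
      nlinarith
    have p1 := norm_one_sub_pos hu hs0
    have p1' : 0 < 1 - 2 * s * u.re + s ^ 2 := by rw [← e1]; positivity
    rw [e1, e2, Real.log_inv]
    have e3 : 1 - 2 * s⁻¹ * u.re + s⁻¹ ^ 2 = (1 - 2 * s * u.re + s ^ 2) / s ^ 2 := by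
      field_simp
      ring
    rw [e3]
    field_simp
    ring
  obtain ⟨c, hc, hc'⟩ := exists_hasDerivAt_eq_slope
    (fun s : ℝ => blochWigner (s * u) - blochWigner ((s⁻¹ : ℝ) * u)) (fun _ => 0) hr
    (fun s hs => (hd s hs).continuousAt.continuousWithinAt)
    (fun s hs => hd s ⟨hs.1.le, hs.2.le⟩)
  have h5 : r - 1 ≠ 0 := by linarith
  rw [eq_comm, div_eq_zero_iff] at hc'
  rcases hc' with h | h
  · simp at h
    push_cast
    linarith
  · exact absurd h h5

lemma eq_norm_mul_exp {z : ℂ} (hz : 0 < z.im) : ∃ θ : ℝ, 0 < θ ∧ θ < Real.pi ∧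
    z = (‖z‖ : ℂ) * Complex.exp (θ * I) := by
  refine ⟨z.arg, ?_, ?_, ?_⟩
  · have h1 : 0 ≤ z.arg := Complex.arg_nonneg_iff.2 hz.le
    rcases h1.eq_or_lt with h | h
    · exfalso
      have := (Complex.arg_eq_zero_iff.1 h.symm).2
      exact hz.ne' this
    · exact h
  · have h1 := Complex.arg_le_pi z
    rcases h1.eq_or_lt with h | h
    · exfalso
      have := (Complex.arg_eq_pi_iff.1 h).2
      exact hz.ne' this
    · exact h
  · exact (Complex.norm_mul_exp_arg_mul_I z).symm

lemma im_exp_pos {θ : ℝ} (h0 : 0 < θ) (h1 : θ < Real.pi) : 0 < (Complex.exp (θ * I)).im := by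
  rw [Complex.exp_ofReal_mul_I_im]
  exact Real.sin_pos_of_pos_of_lt_pi h0 h1

/-- `D > 0` on the upper half plane. -/
lemma blochWigner_pos {z : ℂ} (hz : 0 < z.im) : 0 < blochWigner z := by
  rcases le_or_gt ‖z‖ 1 with h | h
  · exact blochWigner_pos_of_norm_le hz h
  · obtain ⟨θ, h0, h1, h2⟩ := eq_norm_mul_exp hz
    have hu := im_exp_pos h0 h1
    have hn := Complex.norm_exp_ofReal_mul_I θ
    rw [h2, radial_inv hu hn h]
    apply blochWigner_pos_of_norm_le
    · rw [Complex.im_ofReal_mul]
      have : 0 < ‖z‖⁻¹ := by positivity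
      positivity
    · rw [norm_mul, hn, Complex.norm_real, Real.norm_of_nonneg (by positivity), mul_one]
      exact inv_le_one_of_one_le₀ h.le

/-- `D` has a strict global maximum at `ω` on the upper half plane. -/
lemma blochWigner_lt {z : ℂ} (hz : 0 < z.im) (hne : z ≠ omega) :
    blochWigner z < blochWigner omega := by
  obtain ⟨θ, h0, h1, h2⟩ := eq_norm_mul_exp hz
  have hu := im_exp_pos h0 h1
  have hn := Complex.norm_exp_ofReal_mul_I θ
  have hz0 : 0 < ‖z‖ := norm_pos_iff.2 (ne_zero_of_im_ne hz.ne')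
  by_cases hr : ‖z‖ = 1
  · have hθ : θ ≠ Real.pi / 3 := by
      rintro rfl
      apply hne
      rw [h2, hr]
      simp [omega]
    rw [h2, hr]
    simpa [omega] using angular_lt h0 h1 hθ
  · have h3 : blochWigner z < blochWigner (Complex.exp (θ * I)) := by
      rw [h2]
      exact radial_lt hu hn hz0 hr
    by_cases hθ : θ = Real.pi / 3
    · rw [hθ] at h3
      exact h3
    · exact h3.trans (angular_lt h0 h1 hθ)


open scoped ComplexConjugate in
lemma dilog_conj {z : ℂ} (hz : 1 - z ∈ slitPlane) : dilog (conj z) = conj (dilog z) := by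
  rw [dilog, dilog, map_neg, ← intervalIntegral.intervalIntegral_conj]
  congr 1
  apply intervalIntegral.integral_congr
  intro t ht
  rw [uIcc_of_le zero_le_one] at ht
  have h1 := one_sub_mul_mem hz ht
  simp only [map_div₀, Complex.conj_ofReal]
  rw [← Complex.log_conj _ (Complex.mem_slitPlane_iff_arg.1 h1).1]
  simp

open scoped ComplexConjugate in
lemma blochWigner_conj {z : ℂ} (hz : z.im ≠ 0) : blochWigner (conj z) = - blochWigner z := by
  have h1 := one_sub_mem_of_im_ne hz
  unfold blochWigner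
  rw [dilog_conj h1, Complex.conj_im, Complex.norm_conj]
  have h2 : (1 - conj z) = conj (1 - z) := by simp
  rw [h2, Complex.arg_conj, if_neg (Complex.mem_slitPlane_iff_arg.1 h1).1]
  ring

lemma arg_one_sub_of_lt {x : ℝ} (hx : x < 1) : (1 - (x:ℂ)).arg = 0 := by
  have : (1 - (x:ℂ)) = ((1 - x : ℝ) : ℂ) := by push_cast; ring
  rw [this]
  exact Complex.arg_ofReal_of_nonneg (by linarith)

lemma arg_one_sub_of_gt {x : ℝ} (hx : 1 < x) : (1 - (x:ℂ)).arg = Real.pi := by
  have : (1 - (x:ℂ)) = ((1 - x : ℝ) : ℂ) := by push_cast; ring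
  rw [this]
  exact Complex.arg_ofReal_of_neg (by linarith)

lemma blochWigner_real_lt {x : ℝ} (hx : x < 1) : blochWigner x = 0 := by
  have hs : 1 - (x:ℂ) ∈ slitPlane := by
    rw [mem_slitPlane_iff]
    left
    simpa using hx
  unfold blochWigner
  rw [im_dilog_eq hs, arg_one_sub_of_lt hx, zero_mul, add_zero]
  rw [intervalIntegral.integral_congr (g := fun _ => (0:ℝ))]
  · simp
  · intro t ht
    rw [uIcc_of_le zero_le_one] at ht
    have h1 : t * x < 1 := by
      rcases le_or_gt x 0 with h | h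
      · have := mul_nonpos_of_nonneg_of_nonpos ht.1 h
        linarith
      · nlinarith [ht.2]
    have h2 := arg_one_sub_of_lt h1
    push_cast at h2
    simp [h2]

lemma intervalIntegrable_log_div_gt {x : ℝ} (hx : 1 < x) :
    IntervalIntegrable (fun t : ℝ => Complex.log (1 - t * (x:ℂ)) / t) volume 0 1 := by
  have hx0 : 0 < x := by linarith
  have hc0 : 0 < (2 * x)⁻¹ := by positivity
  have hc1 : (2 * x)⁻¹ ≤ 1 := inv_le_one_of_one_le₀ (by linarith)
  have p1 : IntervalIntegrable (fun t : ℝ => Complex.log (1 - t * (x:ℂ)) / t) volume 0 (2 * x)⁻¹ := by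
    have hs : 1 - (1 / 2 : ℂ) ∈ slitPlane := by
      rw [mem_slitPlane_iff]
      left
      norm_num
    have h1 := ((intervalIntegrable_log_div hs).comp_mul_left (c := 2 * x)).const_mul (2 * x : ℂ)
    rw [zero_div] at h1
    rw [← one_div]
    refine h1.congr ?_
    intro t ht
    have h0 : (x:ℂ) ≠ 0 := by exact_mod_cast hx0.ne'
    have e : (1:ℂ) - ((2 * x * t : ℝ) : ℂ) * (1 / 2) = 1 - t * x := by push_cast; ring
    simp only [e]
    push_cast
    rcases eq_or_ne t 0 with rfl | ht0
    · simp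
    · have ht0' : (t:ℂ) ≠ 0 := by exact_mod_cast ht0
      field_simp
  have q1 : IntervalIntegrable (fun t : ℝ => ((Real.log (1 - t * x) : ℝ) : ℂ)) volume (2 * x)⁻¹ 1 := by
    have h1 : IntervalIntegrable Real.log volume (1 - x * (2 * x)⁻¹) (1 - x * 1) :=
      intervalIntegral.intervalIntegrable_log'
    have h2 := h1.comp_sub_left 1
    have h3 := h2.comp_mul_left (c := x)
    have h4 : IntervalIntegrable (fun t : ℝ => Real.log (1 - t * x)) volume (2 * x)⁻¹ 1 := by
      convert h3 using 2
      · ring_nf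
      · field_simp
        ring
      · field_simp
        ring
    exact ⟨h4.1.ofReal, h4.2.ofReal⟩
  have q2 : IntervalIntegrable (fun t : ℝ => (((1 - t * (x:ℂ)).arg : ℝ) : ℂ)) volume (2 * x)⁻¹ 1 := by
    rw [intervalIntegrable_iff_integrableOn_Ioc_of_le hc1]
    apply MeasureTheory.Measure.integrableOn_of_bounded (M := Real.pi)
    · simp
    · apply Measurable.aestronglyMeasurable
      apply Complex.measurable_ofReal.comp
      apply Complex.measurable_arg.comp
      exact measurable_const.sub (Complex.measurable_ofReal.mul_const _)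
    · filter_upwards with t
      rw [Complex.norm_real, Real.norm_eq_abs]
      exact Complex.abs_arg_le_pi _
  have p2 : IntervalIntegrable (fun t : ℝ => Complex.log (1 - t * (x:ℂ)) / t) volume (2 * x)⁻¹ 1 := by
    have h1 := (q1.add (q2.mul_const I)).mul_continuousOn (g := fun t : ℝ => ((t:ℂ))⁻¹) (by
      rw [uIcc_of_le hc1]
      apply ContinuousOn.inv₀ (by fun_prop)
      intro t ht
      exact_mod_cast (hc0.trans_le ht.1).ne')
    refine h1.congr ?_
    intro t ht
    simp only []
    rw [Complex.log, div_eq_mul_inv]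
    congr 3
    have : (1 - (t:ℂ) * x) = ((1 - t * x : ℝ) : ℂ) := by push_cast; ring
    rw [this, Complex.norm_real, Real.norm_eq_abs, Real.log_abs]
  exact p1.trans p2

lemma im_dilog_eq' {z : ℂ}
    (hi : IntervalIntegrable (fun t : ℝ => Complex.log (1 - t * z) / t) volume 0 1) :
    (dilog z).im = ∫ t in (0:ℝ)..1, - ((1 - t * z).arg / t) := by
  rw [dilog, Complex.neg_im, ← Complex.imCLM_apply,
    ← Complex.imCLM.intervalIntegral_comp_comm hi,
    ← intervalIntegral.integral_neg]
  apply intervalIntegral.integral_congr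
  intro t ht
  simp only [Complex.imCLM_apply]
  have : Complex.log (1 - (t:ℂ) * z) / (t:ℂ) = ((t⁻¹ : ℝ) : ℂ) * Complex.log (1 - (t:ℂ) * z) := by
    push_cast
    ring
  rw [this, Complex.im_ofReal_mul, Complex.log_im]
  ring

lemma blochWigner_real_gt {x : ℝ} (hx : 1 < x) : blochWigner x = 0 := by
  have hx0 : 0 < x := by linarith
  have hc0 : 0 < x⁻¹ := by positivity
  have hc1 : x⁻¹ ≤ 1 := inv_le_one_of_one_le₀ (by linarith)
  unfold blochWigner
  rw [im_dilog_eq' (intervalIntegrable_log_div_gt hx), arg_one_sub_of_gt hx]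
  have i1 : ∫ t in (0:ℝ)..x⁻¹, - ((1 - (t:ℂ) * x).arg / t) = ∫ t in (0:ℝ)..x⁻¹, (0:ℝ) := by
    apply intervalIntegral.integral_congr
    intro t ht
    rw [uIcc_of_le hc0.le] at ht
    have h1 : 0 ≤ 1 - t * x := by
      have := mul_le_mul_of_nonneg_right ht.2 hx0.le
      rw [inv_mul_cancel₀ hx0.ne'] at this
      linarith
    have h2 : (1 - (t:ℂ) * x).arg = 0 := by
      have : (1 - (t:ℂ) * x) = ((1 - t * x : ℝ) : ℂ) := by push_cast; ring
      rw [this]
      exact Complex.arg_ofReal_of_nonneg h1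
    simp [h2]
  have i2 : ∫ t in x⁻¹..1, - ((1 - (t:ℂ) * x).arg / t) = ∫ t in x⁻¹..1, (-Real.pi) * t⁻¹ := by
    apply intervalIntegral.integral_congr_ae
    filter_upwards with t ht
    rw [uIoc_of_le hc1] at ht
    have h1 : 1 < t * x := by
      have := mul_lt_mul_of_pos_right ht.1 hx0
      rw [inv_mul_cancel₀ hx0.ne'] at this
      linarith
    have h2 := arg_one_sub_of_gt h1
    push_cast at h2
    rw [h2]
    ring
  have int1 : IntervalIntegrable (fun t : ℝ => - ((1 - (t:ℂ) * x).arg / t)) volume 0 1 := by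
    have hi := intervalIntegrable_log_div_gt hx
    have h2 := (Complex.imCLM.integrable_comp hi.1)
    have h3 : IntervalIntegrable (fun t : ℝ => (Complex.log (1 - t * (x:ℂ)) / t).im) volume 0 1 := by
      rw [intervalIntegrable_iff_integrableOn_Ioc_of_le zero_le_one]
      exact h2
    refine h3.neg.congr ?_
    intro t ht
    simp only [Pi.neg_apply]
    have : Complex.log (1 - (t:ℂ) * x) / (t:ℂ) = ((t⁻¹ : ℝ) : ℂ) * Complex.log (1 - (t:ℂ) * x) := by
      push_cast
      ring
    rw [this, Complex.im_ofReal_mul, Complex.log_im]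
    ring
  have hsub1 : uIcc 0 x⁻¹ ⊆ uIcc (0:ℝ) 1 := by
    rw [uIcc_of_le hc0.le, uIcc_of_le zero_le_one]
    exact Icc_subset_Icc_right hc1
  have hsub2 : uIcc x⁻¹ 1 ⊆ uIcc (0:ℝ) 1 := by
    rw [uIcc_of_le hc1, uIcc_of_le zero_le_one]
    exact Icc_subset_Icc_left hc0.le
  rw [← intervalIntegral.integral_add_adjacent_intervals (int1.mono_set hsub1)
    (int1.mono_set hsub2), i1, i2, intervalIntegral.integral_const_mul,
    integral_inv_of_pos hc0 one_pos, Complex.norm_real, Real.norm_of_nonneg hx0.le]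
  simp

lemma blochWigner_real {x : ℝ} (hx : x ≠ 1) : blochWigner x = 0 := by
  rcases lt_or_gt_of_ne hx with h | h
  · exact blochWigner_real_lt h
  · exact blochWigner_real_gt h

lemma blochWigner_omega_pos : 0 < blochWigner omega := by
  apply blochWigner_pos
  have hpi := Real.pi_pos
  exact im_exp_pos (by linarith) (by linarith)

open scoped ComplexConjugate in
/-- `|D(z)| < D(ω)` unless `z` is `ω` or its conjugate. -/
lemma abs_blochWigner_lt {z : ℂ} (h1 : z ≠ 1) (hw : z ≠ omega) (hw' : z ≠ conj omega) :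
    |blochWigner z| < blochWigner omega := by
  rcases lt_trichotomy z.im 0 with h | h | h
  · have h2 : 0 < (conj z).im := by simpa using h
    have h3 : conj z ≠ omega := by
      intro h4
      apply hw'
      rw [← h4, Complex.conj_conj]
    have h5 := blochWigner_lt h2 h3
    have h6 := blochWigner_pos h2
    rw [blochWigner_conj h.ne] at h5 h6
    rw [abs_of_neg (by linarith)]
    exact h5
  · have hz : z = ((z.re : ℝ) : ℂ) := by
      apply Complex.ext <;> simp [h]
    have h2 : z.re ≠ 1 := by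
      intro h3
      apply h1
      rw [hz, h3]
      simp
    rw [hz, blochWigner_real h2, abs_zero]
    exact blochWigner_omega_pos
  · have h5 := blochWigner_lt h hw
    have h6 := blochWigner_pos h
    rw [abs_of_pos h6]
    exact h5

end Pool.Agent.LibZP33
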