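import Mathlib
import Pool.Agent.LibZP33.DilogAnalysis

open Complex Set
open scoped ComplexConjugate

namespace Pool.Agent.LibZP33

noncomputable def xx (z : ℂ) : ℂ := - Complex.log (1 - z) / (2 * Real.pi * I)
noncomputable def yy (z : ℂ) : ℂ := Complex.log z / (2 * Real.pi * I)
noncomputable def ww (κ z : ℂ) : ℂ :=
  (2 * (dilog z + κ) + Complex.log z * Complex.log (1 - z)) / (2 * Real.pi * I) ^ 2

lemma two_pi_I_ne : (2 * Real.pi * I : ℂ) ≠ 0 := Complex.two_pi_I_ne_zero

lemma hodgeOperator_eq (κ z : ℂ) : hodgeOperator κ z =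
    !![0, 0, 0; xx z, 1, 0; ww κ z, yy z, 2] := by
  have hdet : IsUnit (periodMatrix κ z).det := by
    have : (periodMatrix κ z).det = (2 * Real.pi * I) ^ 3 := by
      simp [periodMatrix, Matrix.det_fin_three]
      ring
    rw [this, isUnit_iff_ne_zero]
    exact pow_ne_zero _ two_pi_I_ne
  have hmul : Matrix.diagonal ![0, 1, 2] * periodMatrix κ z =
      periodMatrix κ z * !![0, 0, 0; xx z, 1, 0; ww κ z, yy z, 2] := by
    have h := two_pi_I_ne
    ext i j
    fin_cases i <;> fin_cases j <;>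
      simp [periodMatrix, Matrix.mul_apply, Fin.sum_univ_three, Matrix.diagonal, xx, yy, ww] <;>
      field_simp <;> ring
  rw [hodgeOperator, Matrix.mul_assoc, hmul, ← Matrix.mul_assoc, Matrix.nonsing_inv_mul _ hdet,
    Matrix.one_mul]


/-- rational components of a complex matrix lie in any rational subspace containing it. -/
lemma map_mem_of_mem_span {L : Submodule ℚ (Matrix (Fin 3) (Fin 3) ℚ)}
    {N : Matrix (Fin 3) (Fin 3) ℂ}
    (hN : N ∈ Submodule.span ℂ
      ((fun M : Matrix (Fin 3) (Fin 3) ℚ => M.map (algebraMap ℚ ℂ)) '' (L : Set _)))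
    (φ : ℂ →ₗ[ℚ] ℚ) : N.map φ ∈ L := by
  have key : ∀ c : ℂ, (c • N).map φ ∈ L := by
    induction hN using Submodule.span_induction with
    | mem x hx =>
      obtain ⟨A, hA, rfl⟩ := hx
      intro c
      have : (c • A.map (algebraMap ℚ ℂ)).map φ = φ c • A := by
        ext i j
        simp only [Matrix.map_apply, Matrix.smul_apply, smul_eq_mul]
        rw [mul_comm c, ← Algebra.smul_def, map_smul, smul_eq_mul, mul_comm]
      simp only [this]
      exact L.smul_mem _ hA
    | zero =>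
      intro c
      have : (c • (0 : Matrix (Fin 3) (Fin 3) ℂ)).map φ = 0 := by
        ext i j
        simp
      rw [this]
      exact L.zero_mem
    | add x y _ _ hx hy =>
      intro c
      have : (c • (x + y)).map φ = (c • x).map φ + (c • y).map φ := by
        ext i j
        simp [mul_add]
      rw [this]
      exact L.add_mem (hx c) (hy c)
    | smul a x _ hx =>
      intro c
      rw [smul_smul]
      exact hx _
  simpa using key 1

lemma map_mem_mtLie (κ z : ℂ) (φ : ℂ →ₗ[ℚ] ℚ) : (hodgeOperator κ z).map φ ∈ mtLie κ z := by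
  rw [mtLie, Submodule.mem_sInf]
  rintro L ⟨_, hL⟩
  exact map_mem_of_mem_span hL φ

lemma bracket_mem_mtLie {κ z : ℂ} {A B : Matrix (Fin 3) (Fin 3) ℚ} (hA : A ∈ mtLie κ z)
    (hB : B ∈ mtLie κ z) : A * B - B * A ∈ mtLie κ z := by
  rw [mtLie, Submodule.mem_sInf] at *
  rintro L hL
  exact hL.1 A (hA L hL) B (hB L hL)

lemma mtLie_le {κ z : ℂ} {L : Submodule ℚ (Matrix (Fin 3) (Fin 3) ℚ)}
    (h1 : ∀ A ∈ L, ∀ B ∈ L, A * B - B * A ∈ L)
    (h2 : hodgeOperator κ z ∈ Submodule.span ℂ
      ((fun M : Matrix (Fin 3) (Fin 3) ℚ => M.map (algebraMap ℚ ℂ)) '' (L : Set _))) :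
    mtLie κ z ≤ L := sInf_le ⟨h1, h2⟩

end Pool.Agent.LibZP33
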