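import Mathlib
import Pool.Agent.LibZP33.DilogAnalysis

open Complex Set MeasureTheory intervalIntegral Filter Topology

namespace Pool.Agent.LibZP33

lemma summable_sq : Summable (fun n : ℕ => 1 / ((n : ℝ) + 1) ^ 2) := by
  have h := (summable_nat_add_iff 1).2 (Real.summable_one_div_nat_pow.2 (by norm_num : 1 < 2))
  refine h.congr ?_
  intro n
  push_cast
  rfl

lemma dilog_hasSum {z : ℂ} (hz : ‖z‖ ≤ 1) :
    HasSum (fun n : ℕ => z ^ (n + 1) / ((n : ℂ) + 1) ^ 2) (dilog z) := by
  have hF_int : ∀ n : ℕ, Integrable (fun t : ℝ => (t : ℂ) ^ n * (z ^ (n + 1) / ((n : ℂ) + 1)))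
      (volume.restrict (Ioc (0:ℝ) 1)) := by
    intro n
    have : Continuous (fun t : ℝ => (t : ℂ) ^ n * (z ^ (n + 1) / ((n : ℂ) + 1))) := by fun_prop
    exact this.integrableOn_Ioc
  have hnorm : ∀ n : ℕ, ∫ t in Ioc (0:ℝ) 1, ‖(t : ℂ) ^ n * (z ^ (n + 1) / ((n : ℂ) + 1))‖ =
      ‖z‖ ^ (n + 1) / ((n : ℝ) + 1) ^ 2 := by
    intro n
    have e : ∀ t ∈ Ioc (0:ℝ) 1, ‖(t : ℂ) ^ n * (z ^ (n + 1) / ((n : ℂ) + 1))‖ =
        t ^ n * (‖z‖ ^ (n + 1) / ((n : ℝ) + 1)) := by
      intro t ht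
      rw [norm_mul, norm_div, norm_pow, norm_pow, Complex.norm_real, Real.norm_of_nonneg ht.1.le]
      congr 2
      have : ((n : ℂ) + 1) = (((n : ℝ) + 1 : ℝ) : ℂ) := by push_cast; ring
      rw [this, Complex.norm_real, Real.norm_of_nonneg (by positivity)]
    rw [setIntegral_congr_fun measurableSet_Ioc e, ← intervalIntegral.integral_of_le zero_le_one,
      intervalIntegral.integral_mul_const, integral_pow]
    have : ((n : ℝ) + 1) ≠ 0 := by positivity
    field_simp
    simp
  have hF_sum : Summable (fun n : ℕ => ∫ t in Ioc (0:ℝ) 1,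
      ‖(t : ℂ) ^ n * (z ^ (n + 1) / ((n : ℂ) + 1))‖) := by
    simp only [hnorm]
    refine Summable.of_nonneg_of_le (fun n => by positivity) (fun n => ?_) summable_sq
    gcongr
    exact pow_le_one₀ (norm_nonneg z) hz
  have key := hasSum_integral_of_summable_integral_norm hF_int hF_sum
  have e1 : ∀ n : ℕ, ∫ t in Ioc (0:ℝ) 1, (t : ℂ) ^ n * (z ^ (n + 1) / ((n : ℂ) + 1)) =
      z ^ (n + 1) / ((n : ℂ) + 1) ^ 2 := by
    intro n
    rw [← intervalIntegral.integral_of_le zero_le_one, intervalIntegral.integral_mul_const]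
    have : ∫ t in (0:ℝ)..1, (t : ℂ) ^ n = ((∫ t in (0:ℝ)..1, t ^ n : ℝ) : ℂ) := by
      rw [← intervalIntegral.integral_ofReal]
      apply intervalIntegral.integral_congr
      intro t _
      simp
    rw [this, integral_pow]
    have h2 : ((n : ℂ) + 1) ≠ 0 := by exact_mod_cast n.succ_ne_zero
    push_cast
    field_simp
    simp
  have e2 : ∫ t in Ioc (0:ℝ) 1, ∑' n : ℕ, (t : ℂ) ^ n * (z ^ (n + 1) / ((n : ℂ) + 1)) =
      dilog z := by
    rw [dilog, ← intervalIntegral.integral_neg, intervalIntegral.integral_of_le zero_le_one]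
    apply setIntegral_congr_ae measurableSet_Ioc
    have hne : ∀ᵐ t : ℝ, t ≠ 1 := by
      rw [ae_iff]
      simp
    filter_upwards [hne] with t ht1 ht
    have htz : ‖(t : ℂ) * z‖ < 1 := by
      rw [norm_mul, Complex.norm_real, Real.norm_of_nonneg ht.1.le]
      have : t < 1 := lt_of_le_of_ne ht.2 ht1
      nlinarith [norm_nonneg z, ht.1]
    have h := Complex.hasSum_taylorSeries_neg_log' htz
    have ht0 : (t : ℂ) ≠ 0 := by exact_mod_cast ht.1.ne'
    have h2 := h.div_const (t : ℂ)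
    have h3 : (fun n : ℕ => ((t : ℂ) * z) ^ (n + 1) / ((n : ℂ) + 1) / (t : ℂ)) =
        fun n : ℕ => (t : ℂ) ^ n * (z ^ (n + 1) / ((n : ℂ) + 1)) := by
      funext n
      rw [mul_pow, pow_succ (t : ℂ)]
      field_simp
    rw [h3] at h2
    rw [h2.tsum_eq]
    ring
  rw [e2] at key
  simpa only [e1] using key

lemma dilog_one : dilog 1 = ((Real.pi ^ 2 / 6 : ℝ) : ℂ) := by
  have h := dilog_hasSum (z := 1) (by simp)
  have h2 : HasSum (fun n : ℕ => (1 : ℂ) ^ (n + 1) / ((n : ℂ) + 1) ^ 2)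
      ((Real.pi ^ 2 / 6 : ℝ) : ℂ) := by
    have h3 := hasSum_zeta_two
    rw [← hasSum_nat_add_iff' 1] at h3
    simp at h3
    have h4 := Complex.hasSum_ofReal.2 h3
    convert h4 using 1
    funext n
    push_cast
    simp
  exact h.unique h2

lemma continuousOn_dilog : ContinuousOn dilog (Metric.closedBall 0 1) := by
  have h1 : ContinuousOn (fun z : ℂ => ∑' n : ℕ, z ^ (n + 1) / ((n : ℂ) + 1) ^ 2)
      (Metric.closedBall 0 1) := by
    apply continuousOn_tsum (u := fun n : ℕ => 1 / ((n : ℝ) + 1) ^ 2)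
    · intro n
      fun_prop
    · exact summable_sq
    · intro n z hz
      rw [mem_closedBall_zero_iff] at hz
      rw [norm_div, norm_pow, norm_pow]
      have : ((n : ℂ) + 1) = (((n : ℝ) + 1 : ℝ) : ℂ) := by push_cast; ring
      rw [this, Complex.norm_real, Real.norm_of_nonneg (by positivity)]
      gcongr
      exact pow_le_one₀ (norm_nonneg z) hz
  refine h1.congr ?_
  intro z hz
  rw [mem_closedBall_zero_iff] at hz
  exact (dilog_hasSum hz).tsum_eq.symm

lemma dilog_zero : dilog 0 = 0 := by simp [dilog]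

/-- real derivative of the dilogarithm. -/
lemma hasDerivAt_dilog_real {x : ℝ} (hx : x < 1) (h0 : x ≠ 0) :
    HasDerivAt (fun s : ℝ => dilog (s : ℂ)) (((- Real.log (1 - x) / x : ℝ)) : ℂ) x := by
  have hs : 1 - (x:ℂ) ∈ slitPlane := by
    rw [mem_slitPlane_iff]
    left
    simpa using hx
  have h1 := (hasDerivAt_dilog hs (by exact_mod_cast h0)).comp_ofReal
  refine h1.congr_deriv ?_
  have : (1 - (x:ℂ)) = ((1 - x : ℝ) : ℂ) := by push_cast; ring
  rw [this, ← Complex.ofReal_log (by linarith)]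
  push_cast
  ring

/-- Euler's reflection formula. -/
lemma dilog_reflection {x : ℝ} (hx : x ∈ Ioo (0:ℝ) 1) :
    dilog x + dilog ((1 - x : ℝ) : ℂ) =
      ((Real.pi ^ 2 / 6 - Real.log x * Real.log (1 - x) : ℝ) : ℂ) := by
  set g : ℝ → ℂ := fun s => dilog s + dilog ((1 - s : ℝ) : ℂ) +
    ((Real.log s * Real.log (1 - s) : ℝ) : ℂ) with hg
  have hd : ∀ s ∈ Ioo (0:ℝ) 1, HasDerivAt g 0 s := by
    intro s hs
    have h1 := hasDerivAt_dilog_real hs.2 hs.1.ne'
    have h2 : HasDerivAt (fun s : ℝ => dilog ((1 - s : ℝ) : ℂ))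
        (-(((- Real.log (1 - (1 - s)) / (1 - s) : ℝ)) : ℂ)) s := by
      have h3 := hasDerivAt_dilog_real (x := 1 - s) (by linarith [hs.1]) (by linarith [hs.2])
      have h4 : HasDerivAt (fun s : ℝ => 1 - s) (-1) s := by
        simpa using (hasDerivAt_id s).const_sub 1
      have h5 := h3.scomp s h4
      refine h5.congr_deriv ?_
      simp
    have h3 : HasDerivAt (fun s : ℝ => ((Real.log s * Real.log (1 - s) : ℝ) : ℂ))
        (((1 / s) * Real.log (1 - s) + Real.log s * (-1 / (1 - s)) : ℝ) : ℂ) s := by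
      have h4 : HasDerivAt (fun s : ℝ => 1 - s) (-1) s := by
        simpa using (hasDerivAt_id s).const_sub 1
      have h5 := (hasDerivAt_id s).log hs.1.ne'
      have h6 := h4.log (by linarith [hs.2] : (1 - s) ≠ 0)
      exact (h5.mul h6).ofReal_comp
    have h4 := (h1.add h2).add h3
    refine h4.congr_deriv ?_
    have hs0 : (s : ℝ) ≠ 0 := hs.1.ne'
    have hs1 : (1 - s : ℝ) ≠ 0 := by linarith [hs.2]
    rw [← Complex.ofReal_neg, ← Complex.ofReal_add, ← Complex.ofReal_add]
    rw [show (- Real.log (1 - s) / s + -(- Real.log (1 - (1 - s)) / (1 - s)) +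
      (1 / s * Real.log (1 - s) + Real.log s * (-1 / (1 - s)))) = 0 by
        rw [sub_sub_cancel]; field_simp; ring]
    simp
  have hconst : ∀ s ∈ Ioo (0:ℝ) 1, g s = g x := by
    intro s hs
    apply isOpen_Ioo.is_const_of_deriv_eq_zero isPreconnected_Ioo
      (fun t ht => (hd t ht).differentiableAt.differentiableWithinAt)
      (fun t ht => (hd t ht).deriv) hs hx
  have hlim : Tendsto g (𝓝[>] 0) (𝓝 (0 + ((Real.pi ^ 2 / 6 : ℝ) : ℂ) + 0)) := by
    refine (Tendsto.add (Tendsto.add ?_ ?_) ?_)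
    · have h1 : ContinuousAt dilog 0 := (hasDerivAt_dilog' (by simp)).continuousAt
      have h2 : Tendsto (fun s : ℝ => (s : ℂ)) (𝓝[>] 0) (𝓝 0) := by
        have : Tendsto (fun s : ℝ => (s : ℂ)) (𝓝 0) (𝓝 ((0:ℝ) : ℂ)) :=
          Complex.continuous_ofReal.tendsto 0
        rw [Complex.ofReal_zero] at this
        exact this.mono_left nhdsWithin_le_nhds
      have h3 := h1.tendsto.comp h2
      rw [dilog_zero] at h3
      exact h3
    · have h1 := continuousOn_dilog 1 (by simp)
      have h2 : Tendsto (fun s : ℝ => ((1 - s : ℝ) : ℂ)) (𝓝[>] 0)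
          (𝓝[Metric.closedBall 0 1] 1) := by
        rw [tendsto_nhdsWithin_iff]
        constructor
        · have : Tendsto (fun s : ℝ => ((1 - s : ℝ) : ℂ)) (𝓝 0) (𝓝 ((1 - 0 : ℝ) : ℂ)) := by
            have hc : Continuous (fun s : ℝ => ((1 - s : ℝ) : ℂ)) := by fun_prop
            exact hc.tendsto 0
          rw [sub_zero, Complex.ofReal_one] at this
          exact this.mono_left nhdsWithin_le_nhds
        · filter_upwards [Ioo_mem_nhdsGT (zero_lt_one' ℝ)] with s hs
          rw [mem_closedBall_zero_iff, Complex.norm_real, Real.norm_of_nonneg (by linarith [hs.2])]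
          linarith [hs.1]
      have h3 := h1.tendsto.comp h2
      rw [dilog_one] at h3
      exact h3
    · have h1 : Tendsto (fun s : ℝ => Real.log s * Real.log (1 - s)) (𝓝[>] 0) (𝓝 0) := by
        have a1 : Tendsto (fun s : ℝ => Real.log s * s) (𝓝[>] 0) (𝓝 0) := by
          have := tendsto_log_mul_rpow_nhdsGT_zero zero_lt_one
          simpa using this
        have a2 : Tendsto (fun s : ℝ => s⁻¹ * Real.log (1 - s)) (𝓝[>] 0) (𝓝 (-1)) := by
          have h4 : HasDerivAt (fun s : ℝ => 1 - s) (-1) 0 := by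
            simpa using (hasDerivAt_id (0:ℝ)).const_sub 1
          have h5 := h4.log (by norm_num : (1 - (0:ℝ)) ≠ 0)
          have h6 := h5.tendsto_slope_zero_right
          simpa using h6
        have a3 := a1.mul a2
        rw [zero_mul] at a3
        refine a3.congr' ?_
        filter_upwards [self_mem_nhdsWithin] with s hs
        have : s ≠ 0 := (ne_of_gt hs)
        field_simp
      have h2 := (Complex.continuous_ofReal.tendsto 0).comp h1
      rw [Complex.ofReal_zero] at h2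
      exact h2
  have hlim2 : Tendsto g (𝓝[>] 0) (𝓝 (g x)) := by
    refine tendsto_const_nhds.congr' ?_
    filter_upwards [Ioo_mem_nhdsGT (zero_lt_one' ℝ)] with s hs
    exact (hconst s hs).symm
  have huniq := tendsto_nhds_unique hlim hlim2
  rw [hg] at huniq
  simp only at huniq
  rw [zero_add, add_zero] at huniq
  push_cast at huniq ⊢
  rw [huniq]
  ring


/-- Landen's formula. -/
lemma dilog_landen {x : ℝ} (hx : x ∈ Ioo (0:ℝ) 1) :
    dilog x + dilog ((x / (x - 1) : ℝ) : ℂ) = ((- (Real.log (1 - x)) ^ 2 / 2 : ℝ) : ℂ) := by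
  set g : ℝ → ℂ := fun s => dilog s + dilog ((s / (s - 1) : ℝ) : ℂ) +
    (((Real.log (1 - s)) ^ 2 / 2 : ℝ) : ℂ) with hg
  have hd : ∀ s ∈ Ioo (0:ℝ) 1, HasDerivAt g 0 s := by
    intro s hs
    have hs0 : (s : ℝ) ≠ 0 := hs.1.ne'
    have hs1 : (1 - s : ℝ) ≠ 0 := by linarith [hs.2]
    have hs2 : (s - 1 : ℝ) ≠ 0 := by linarith [hs.2]
    have h1 := hasDerivAt_dilog_real hs.2 hs.1.ne'
    have hneg : s / (s - 1) < 0 := div_neg_of_pos_of_neg hs.1 (by linarith [hs.2])
    have h4 : HasDerivAt (fun s : ℝ => s / (s - 1)) (-1 / (s - 1) ^ 2) s := by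
      have := (hasDerivAt_id s).div ((hasDerivAt_id s).sub_const 1) hs2
      refine this.congr_deriv ?_
      simp
    have h2 : HasDerivAt (fun s : ℝ => dilog ((s / (s - 1) : ℝ) : ℂ))
        (((-1 / (s - 1) ^ 2) * (- Real.log (1 - s / (s - 1)) / (s / (s - 1))) : ℝ) : ℂ) s := by
      have h3 := hasDerivAt_dilog_real (x := s / (s - 1)) (by linarith) hneg.ne
      have h5 := h3.scomp s h4
      refine h5.congr_deriv ?_
      rw [Complex.real_smul, ← Complex.ofReal_mul]
    have h3 : HasDerivAt (fun s : ℝ => (((Real.log (1 - s)) ^ 2 / 2 : ℝ) : ℂ))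
        ((Real.log (1 - s) * (-1 / (1 - s)) : ℝ) : ℂ) s := by
      have h4 : HasDerivAt (fun s : ℝ => 1 - s) (-1) s := by
        simpa using (hasDerivAt_id s).const_sub 1
      have h6 := ((h4.log hs1).pow 2).div_const 2
      have h7 := h6.ofReal_comp
      refine h7.congr_deriv ?_
      congr 1
      simp
      ring
    have h5 := (h1.add h2).add h3
    refine h5.congr_deriv ?_
    have e : 1 - s / (s - 1) = (1 - s)⁻¹ := by field_simp; ring
    rw [← Complex.ofReal_add, ← Complex.ofReal_add, e, Real.log_inv]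
    rw [show (- Real.log (1 - s) / s + -1 / (s - 1) ^ 2 * (- -Real.log (1 - s) / (s / (s - 1))) +
      Real.log (1 - s) * (-1 / (1 - s))) = 0 by
        have e2 : (s - 1) = - (1 - s) := by ring
        rw [e2]
        field_simp
        ring]
    simp
  have hconst : ∀ s ∈ Ioo (0:ℝ) 1, g s = g x := by
    intro s hs
    apply isOpen_Ioo.is_const_of_deriv_eq_zero isPreconnected_Ioo
      (fun t ht => (hd t ht).differentiableAt.differentiableWithinAt)
      (fun t ht => (hd t ht).deriv) hs hx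
  have hdz : ContinuousAt dilog 0 := (hasDerivAt_dilog' (by simp)).continuousAt
  have hcont : ContinuousAt g 0 := by
    have c1 : ContinuousAt (fun s : ℝ => dilog (s : ℂ)) 0 := by
      apply ContinuousAt.comp (g := dilog)
      · simpa using hdz
      · fun_prop
    have c2 : ContinuousAt (fun s : ℝ => dilog ((s / (s - 1) : ℝ) : ℂ)) 0 := by
      apply ContinuousAt.comp (g := dilog)
      · simpa using hdz
      · have : ContinuousAt (fun s : ℝ => s / (s - 1)) 0 := by
          apply ContinuousAt.div (by fun_prop) (by fun_prop) (by norm_num)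
        exact Complex.continuous_ofReal.continuousAt.comp this
    have c3 : ContinuousAt (fun s : ℝ => (((Real.log (1 - s)) ^ 2 / 2 : ℝ) : ℂ)) 0 := by
      have : ContinuousAt (fun s : ℝ => (Real.log (1 - s)) ^ 2 / 2) 0 := by
        have h1 : ContinuousAt (fun s : ℝ => Real.log (1 - s)) 0 :=
          ContinuousAt.log (by fun_prop) (by norm_num)
        fun_prop
      exact Complex.continuous_ofReal.continuousAt.comp this
    exact (c1.add c2).add c3
  have hlim : Tendsto g (𝓝[>] 0) (𝓝 0) := by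
    have := hcont.tendsto
    rw [show g 0 = 0 by simp [hg, dilog_zero]] at this
    exact this.mono_left nhdsWithin_le_nhds
  have hlim2 : Tendsto g (𝓝[>] 0) (𝓝 (g x)) := by
    refine tendsto_const_nhds.congr' ?_
    filter_upwards [Ioo_mem_nhdsGT (zero_lt_one' ℝ)] with s hs
    exact (hconst s hs).symm
  have huniq := tendsto_nhds_unique hlim hlim2
  rw [hg] at huniq
  simp only at huniq
  have e : dilog x + dilog ((x / (x - 1) : ℝ) : ℂ) = - (((Real.log (1 - x)) ^ 2 / 2 : ℝ) : ℂ) := by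
    linear_combination -huniq
  rw [e]
  push_cast
  ring

/-- duplication formula. -/
lemma dilog_duplication {x : ℝ} (hx : x ∈ Ioo (0:ℝ) 1) :
    dilog ((x ^ 2 : ℝ) : ℂ) = 2 * dilog x + 2 * dilog ((-x : ℝ) : ℂ) := by
  set g : ℝ → ℂ := fun s => dilog ((s ^ 2 : ℝ) : ℂ) - (2 * dilog s + 2 * dilog ((-s : ℝ) : ℂ))
    with hg
  have hd : ∀ s ∈ Ioo (0:ℝ) 1, HasDerivAt g 0 s := by
    intro s hs
    have hs0 : (s : ℝ) ≠ 0 := hs.1.ne'
    have h1 := hasDerivAt_dilog_real hs.2 hs.1.ne'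
    have hsq : s ^ 2 < 1 := by nlinarith [hs.1, hs.2]
    have h2 : HasDerivAt (fun s : ℝ => dilog ((s ^ 2 : ℝ) : ℂ))
        (((2 * s) * (- Real.log (1 - s ^ 2) / s ^ 2) : ℝ) : ℂ) s := by
      have h3 := hasDerivAt_dilog_real (x := s ^ 2) hsq (pow_ne_zero 2 hs0)
      have h4 : HasDerivAt (fun s : ℝ => s ^ 2) (2 * s) s := by
        simpa using (hasDerivAt_pow 2 s)
      have h5 := h3.scomp_of_eq s h4 rfl
      refine h5.congr_deriv ?_
      rw [Complex.real_smul, ← Complex.ofReal_mul]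
    have h3 : HasDerivAt (fun s : ℝ => dilog ((-s : ℝ) : ℂ))
        (((-1) * (- Real.log (1 - -s) / -s) : ℝ) : ℂ) s := by
      have h3 := hasDerivAt_dilog_real (x := -s) (by linarith [hs.1]) (neg_ne_zero.2 hs0)
      have h4 : HasDerivAt (fun s : ℝ => -s) (-1) s := (hasDerivAt_id s).neg
      have h5 := h3.scomp s h4
      refine h5.congr_deriv ?_
      rw [Complex.real_smul, ← Complex.ofReal_mul]
    have h5 := h2.sub ((h1.const_mul 2).add (h3.const_mul 2))
    refine h5.congr_deriv ?_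
    have e1 : 1 - s ^ 2 = (1 - s) * (1 - -s) := by ring
    have e2 : Real.log (1 - s ^ 2) = Real.log (1 - s) + Real.log (1 - -s) := by
      rw [e1, Real.log_mul (by linarith [hs.2]) (by linarith [hs.1])]
    rw [e2]
    have hsc : (s : ℂ) ≠ 0 := by exact_mod_cast hs0
    push_cast
    field_simp
    ring
  have hconst : ∀ s ∈ Ioo (0:ℝ) 1, g s = g x := by
    intro s hs
    apply isOpen_Ioo.is_const_of_deriv_eq_zero isPreconnected_Ioo
      (fun t ht => (hd t ht).differentiableAt.differentiableWithinAt)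
      (fun t ht => (hd t ht).deriv) hs hx
  have hdz : ContinuousAt dilog 0 := (hasDerivAt_dilog' (by simp)).continuousAt
  have hcont : ContinuousAt g 0 := by
    have c1 : ContinuousAt (fun s : ℝ => dilog (s : ℂ)) 0 := by
      apply ContinuousAt.comp (g := dilog)
      · simpa using hdz
      · fun_prop
    have c2 : ContinuousAt (fun s : ℝ => dilog ((s ^ 2 : ℝ) : ℂ)) 0 := by
      apply ContinuousAt.comp (g := dilog)
      · simpa using hdz
      · fun_prop
    have c3 : ContinuousAt (fun s : ℝ => dilog ((-s : ℝ) : ℂ)) 0 := by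
      apply ContinuousAt.comp (g := dilog)
      · simpa using hdz
      · fun_prop
    exact c2.sub ((continuousAt_const.mul c1).add (continuousAt_const.mul c3))
  have hlim : Tendsto g (𝓝[>] 0) (𝓝 0) := by
    have := hcont.tendsto
    rw [show g 0 = 0 by simp [hg, dilog_zero]] at this
    exact this.mono_left nhdsWithin_le_nhds
  have hlim2 : Tendsto g (𝓝[>] 0) (𝓝 (g x)) := by
    refine tendsto_const_nhds.congr' ?_
    filter_upwards [Ioo_mem_nhdsGT (zero_lt_one' ℝ)] with s hs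
    exact (hconst s hs).symm
  have huniq := tendsto_nhds_unique hlim hlim2
  rw [hg] at huniq
  simp only at huniq
  linear_combination -huniq

lemma dilog_half : dilog ((1 / 2 : ℝ) : ℂ) =
    ((Real.pi ^ 2 / 12 - (Real.log 2) ^ 2 / 2 : ℝ) : ℂ) := by
  have h := dilog_reflection (x := 1 / 2) ⟨by norm_num, by norm_num⟩
  have e : (1 - 1 / 2 : ℝ) = 1 / 2 := by norm_num
  rw [e] at h
  have hl : Real.log (1 / 2) = - Real.log 2 := by rw [one_div, Real.log_inv]
  rw [hl] at h
  push_cast at h ⊢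
  linear_combination h / 2

lemma dilog_neg_one : dilog ((-1 : ℝ) : ℂ) = ((- (Real.pi ^ 2 / 12) : ℝ) : ℂ) := by
  have h := dilog_landen (x := 1 / 2) ⟨by norm_num, by norm_num⟩
  have e : (1 / 2 / (1 / 2 - 1) : ℝ) = -1 := by norm_num
  have e2 : (1 - 1 / 2 : ℝ) = 1 / 2 := by norm_num
  have hl : Real.log (1 / 2) = - Real.log 2 := by rw [one_div, Real.log_inv]
  rw [e, e2, hl, dilog_half] at h
  push_cast at h ⊢
  linear_combination h


/-- the golden ratio conjugate `ρ = (√5 - 1)/2`. -/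
noncomputable def rho : ℝ := (-1 + √5) / 2

lemma rho_mem : rho ∈ Ioo (0:ℝ) 1 := by
  have h5 : √5 ^ 2 = 5 := Real.sq_sqrt (by norm_num)
  have h0 : 0 ≤ √5 := Real.sqrt_nonneg 5
  constructor
  · have : 1 < √5 := by nlinarith
    unfold rho; linarith
  · have : √5 < 3 := by nlinarith
    unfold rho; linarith

lemma rho_sq : rho ^ 2 = 1 - rho := by
  have h5 : √5 ^ 2 = 5 := Real.sq_sqrt (by norm_num)
  unfold rho
  nlinarith

lemma log_one_sub_rho : Real.log (1 - rho) = 2 * Real.log rho := by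
  rw [← rho_sq, Real.log_pow]
  push_cast
  ring

lemma dilog_golden :
    dilog (rho : ℂ) = ((Real.pi ^ 2 / 10 - (Real.log rho) ^ 2 : ℝ) : ℂ) ∧
    dilog ((1 - rho : ℝ) : ℂ) = ((Real.pi ^ 2 / 15 - (Real.log rho) ^ 2 : ℝ) : ℂ) ∧
    dilog ((-rho : ℝ) : ℂ) = ((-(Real.pi ^ 2 / 15) + (Real.log rho) ^ 2 / 2 : ℝ) : ℂ) := by
  have hm := rho_mem
  have hs : 1 - rho ∈ Ioo (0:ℝ) 1 := ⟨by linarith [hm.2], by linarith [hm.1]⟩
  have hr0 : rho ≠ 0 := hm.1.ne'
  have r1 := dilog_reflection hm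
  have r2 := dilog_landen hs
  have r3 := dilog_duplication hm
  have e1 : ((1 - rho) / ((1 - rho) - 1) : ℝ) = - rho := by
    have : (1 - rho : ℝ) = rho ^ 2 := rho_sq.symm
    rw [this]
    have h2 : rho ^ 2 - 1 = - rho := by rw [rho_sq]; ring
    rw [h2]
    field_simp
  have e2 : (1 - (1 - rho) : ℝ) = rho := by ring
  rw [e1, e2] at r2
  rw [rho_sq] at r3
  rw [log_one_sub_rho] at r1
  push_cast at r1 r2 r3 ⊢
  refine ⟨?_, ?_, ?_⟩
  · linear_combination (3/5 : ℂ) * r1 - (2/5 : ℂ) * r2 - (1/5 : ℂ) * r3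
  · linear_combination (2/5 : ℂ) * r1 + (2/5 : ℂ) * r2 + (1/5 : ℂ) * r3
  · linear_combination (-2/5 : ℂ) * r1 + (3/5 : ℂ) * r2 - (1/5 : ℂ) * r3


/-- `Li₂(-φ)`, where `φ = 1/ρ = 1 + ρ`. -/
lemma dilog_neg_phi :
    dilog ((-(1 + rho) : ℝ) : ℂ) = ((-(Real.pi ^ 2 / 10) - (Real.log rho) ^ 2 : ℝ) : ℂ) := by
  have hm := rho_mem
  have hr0 : rho ≠ 0 := hm.1.ne'
  have r2 := dilog_landen hm
  have h1 : (1 + rho) * rho = 1 := by nlinarith [rho_sq]
  have e1 : (rho / (rho - 1) : ℝ) = -(1 + rho) := by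
    have h2 : rho - 1 ≠ 0 := by linarith [hm.2]
    field_simp
    nlinarith [rho_sq]
  rw [e1, log_one_sub_rho, dilog_golden.1] at r2
  push_cast at r2 ⊢
  linear_combination r2

end Pool.Agent.LibZP33
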