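import Mathlib
import Pool.Agent.LibZP33.DilogValues

open Complex Set MeasureTheory intervalIntegral Filter Topology

namespace Pool.Agent.LibZP33

/-- the real integrand `-log|1-s|/s`. -/
noncomputable def hfun (s : ℝ) : ℝ := - Real.log (1 - s) / s

lemma re_log_div (t x : ℝ) : (Complex.log (1 - t * (x:ℂ)) / t).re = Real.log (1 - t * x) / t := by
  rw [Complex.div_ofReal_re, Complex.log_re]
  have : (1 - (t:ℂ) * x) = ((1 - t * x : ℝ) : ℂ) := by push_cast; ring
  rw [this, Complex.norm_real, Real.norm_eq_abs, Real.log_abs]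

lemma intervalIntegrable_re {x : ℝ} (hx : 1 < x) :
    IntervalIntegrable (fun t : ℝ => Real.log (1 - t * x) / t) volume 0 1 := by
  have hi := intervalIntegrable_log_div_gt hx
  have h2 := (Complex.reCLM.integrable_comp hi.1)
  rw [intervalIntegrable_iff_integrableOn_Ioc_of_le zero_le_one]
  refine h2.congr ?_
  filter_upwards with t
  exact re_log_div t x

lemma intervalIntegrable_hfun {x : ℝ} (hx : 1 < x) : IntervalIntegrable hfun volume 0 x := by
  have hx0 : 0 < x := by linarith
  have h1 := ((intervalIntegrable_re hx).comp_mul_left (c := x⁻¹)).const_mul (-x⁻¹)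
  have e : (1:ℝ) / x⁻¹ = x := by rw [one_div, inv_inv]
  rw [zero_div, e] at h1
  refine h1.congr ?_
  intro s hs
  unfold hfun
  have e2 : (1:ℝ) - x⁻¹ * s * x = 1 - s := by field_simp
  simp only [e2]
  rw [uIoc_of_le hx0.le] at hs
  have := hs.1.ne'
  field_simp

lemma re_dilog_eq {x : ℝ} (hx : 0 < x) (hi : IntervalIntegrable hfun volume 0 x) :
    (dilog x).re = ∫ s in (0:ℝ)..x, hfun s := by
  have h1 := intervalIntegral.smul_integral_comp_mul_right (a := 0) (b := 1) hfun x
  rw [zero_mul, one_mul] at h1
  rw [← h1, smul_eq_mul, ← intervalIntegral.integral_const_mul]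
  have hic : IntervalIntegrable (fun t : ℝ => Complex.log (1 - t * (x:ℂ)) / t) volume 0 1 := by
    rcases lt_or_ge 1 x with h | h
    · exact intervalIntegrable_log_div_gt h
    · have h2 : IntervalIntegrable (fun t : ℝ => - (x * hfun (x * t))) volume 0 1 := by
        have h3 := (hi.comp_mul_left (c := x)).const_mul (-x)
        rw [zero_div, div_self hx.ne'] at h3
        refine h3.congr ?_
        intro t _
        simp only []
        ring
      have h4 : IntervalIntegrable (fun t : ℝ => ((- (x * hfun (x * t)) : ℝ) : ℂ)) volume 0 1 :=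
        ⟨h2.1.ofReal, h2.2.ofReal⟩
      refine h4.congr ?_
      intro t ht
      rw [uIoc_of_le zero_le_one] at ht
      have e1 : 0 ≤ 1 - t * x := by
        have : t * x ≤ 1 * 1 := mul_le_mul ht.2 h hx.le zero_le_one
        linarith
      have e2 : (1 - (t:ℂ) * x) = ((1 - t * x : ℝ) : ℂ) := by push_cast; ring
      have ht0 : (t:ℂ) ≠ 0 := by exact_mod_cast ht.1.ne'
      have hx0 : (x:ℂ) ≠ 0 := by exact_mod_cast hx.ne'
      simp only []
      rw [e2, ← Complex.ofReal_log e1]
      unfold hfun
      rw [mul_comm x t]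
      push_cast
      field_simp
  rw [dilog, Complex.neg_re, ← Complex.reCLM_apply,
    ← Complex.reCLM.intervalIntegral_comp_comm hic, ← intervalIntegral.integral_neg]
  apply intervalIntegral.integral_congr
  intro t ht
  simp only [Complex.reCLM_apply]
  rw [re_log_div]
  unfold hfun
  rcases eq_or_ne t 0 with rfl | ht0
  · simp
  · field_simp

lemma hasDerivAt_hint {x : ℝ} (hx : 1 < x) :
    HasDerivAt (fun u : ℝ => ∫ s in (1:ℝ)..u, hfun s) (hfun x) x := by
  apply intervalIntegral.integral_hasDerivAt_right
  · exact (intervalIntegrable_hfun hx).mono_set (by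
      rw [uIcc_of_le hx.le, uIcc_of_le (by linarith)]
      exact Icc_subset_Icc_left zero_le_one)
  · have : Measurable hfun := by
      unfold hfun
      fun_prop
    exact this.stronglyMeasurable.stronglyMeasurableAtFilter
  · unfold hfun
    apply ContinuousAt.div
    · exact (ContinuousAt.log (by fun_prop) (by linarith)).neg
    · fun_prop
    · linarith

/-- reflection beyond `1`: real part. -/
lemma re_dilog_gt {x : ℝ} (hx : 1 < x) :
    (dilog x).re = Real.pi ^ 2 / 6 - Real.log x * Real.log (x - 1) -
      (dilog ((1 - x : ℝ) : ℂ)).re := by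
  set g : ℝ → ℝ := fun s => (∫ t in (1:ℝ)..s, hfun t) + (dilog ((1 - s : ℝ) : ℂ)).re +
    Real.log s * Real.log (s - 1) with hg
  have hd : ∀ s ∈ Ioi (1:ℝ), HasDerivAt g 0 s := by
    intro s hs
    have hs1 : (1:ℝ) < s := hs
    have h1 := hasDerivAt_hint hs1
    have h4 : HasDerivAt (fun s : ℝ => 1 - s) (-1) s := by
      simpa using (hasDerivAt_id s).const_sub 1
    have h2 : HasDerivAt (fun s : ℝ => (dilog ((1 - s : ℝ) : ℂ)).re)
        ((-1) * (- Real.log (1 - (1 - s)) / (1 - s))) s := by
      have h3 := hasDerivAt_dilog_real (x := 1 - s) (by linarith) (by linarith)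
      have h5 := h3.scomp s h4
      have h6 := Complex.reCLM.hasFDerivAt.comp_hasDerivAt s h5
      refine h6.congr_deriv ?_
      rw [Complex.reCLM_apply, Complex.real_smul, ← Complex.ofReal_mul, Complex.ofReal_re]
    have h3 : HasDerivAt (fun s : ℝ => Real.log s * Real.log (s - 1))
        ((1 / s) * Real.log (s - 1) + Real.log s * (1 / (s - 1))) s := by
      have h5 := (hasDerivAt_id s).log (by linarith : s ≠ 0)
      have h6 := ((hasDerivAt_id s).sub_const 1).log (by simp; linarith)
      exact h5.mul h6
    have h5 := (h1.add h2).add h3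
    refine h5.congr_deriv ?_
    have hs0 : s ≠ 0 := by linarith
    have hs2 : s - 1 ≠ 0 := by linarith
    have hs3 : 1 - s ≠ 0 := by linarith
    have e1 : Real.log (1 - s) = Real.log (s - 1) := by
      rw [← Real.log_neg_eq_log, neg_sub]
    unfold hfun
    rw [sub_sub_cancel, e1]
    have e3 : (1 - s) = - (s - 1) := by ring
    rw [e3]
    field_simp
    ring
  have hconst : ∀ s ∈ Ioi (1:ℝ), g s = g x := by
    intro s hs
    apply isOpen_Ioi.is_const_of_deriv_eq_zero isPreconnected_Ioi
      (fun t ht => (hd t ht).differentiableAt.differentiableWithinAt)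
      (fun t ht => (hd t ht).deriv) hs hx
  have hlim : Tendsto g (𝓝[>] 1) (𝓝 (0 + 0 + 0)) := by
    refine (Tendsto.add (Tendsto.add ?_ ?_) ?_)
    · have hint : IntegrableOn hfun (uIcc 1 2) volume := by
        have h1 := intervalIntegrable_hfun (x := 2) (by norm_num)
        rw [intervalIntegrable_iff_integrableOn_Icc_of_le (by norm_num)] at h1
        rw [uIcc_of_le (by norm_num)]
        exact h1.mono_set (Icc_subset_Icc_left zero_le_one)
      have hc := intervalIntegral.continuousOn_primitive_interval hint 1 (by simp)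
      have h3 := hc.tendsto
      simp only [intervalIntegral.integral_same] at h3
      have h4 : 𝓝[>] (1:ℝ) ≤ 𝓝[uIcc 1 2] 1 := by
        rw [uIcc_of_le (by norm_num : (1:ℝ) ≤ 2)]
        apply nhdsWithin_le_of_mem
        exact Icc_mem_nhdsGT (by norm_num)
      exact h3.mono_left h4
    · have h1 : ContinuousAt dilog 0 := (hasDerivAt_dilog' (by simp)).continuousAt
      have h2 : ContinuousAt (fun s : ℝ => (dilog ((1 - s : ℝ) : ℂ)).re) 1 := by
        apply Complex.continuous_re.continuousAt.comp
        apply ContinuousAt.comp (g := dilog)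
        · simpa using h1
        · fun_prop
      have h3 := h2.tendsto
      simp only [sub_self, Complex.ofReal_zero, dilog_zero, Complex.zero_re] at h3
      exact h3.mono_left nhdsWithin_le_nhds
    · -- log s * log (s - 1) -> 0
      have a1 : Tendsto (fun s : ℝ => Real.log (s - 1) * (s - 1)) (𝓝[>] 1) (𝓝 0) := by
        have h1 : Tendsto (fun s : ℝ => Real.log s * s) (𝓝[>] 0) (𝓝 0) := by
          have := tendsto_log_mul_rpow_nhdsGT_zero zero_lt_one
          simpa using this
        have h2 : Tendsto (fun s : ℝ => s - 1) (𝓝[>] 1) (𝓝[>] 0) := by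
          rw [tendsto_nhdsWithin_iff]
          constructor
          · have : Tendsto (fun s : ℝ => s - 1) (𝓝 1) (𝓝 (1 - 1)) := by
              have hc : Continuous (fun s : ℝ => s - 1) := by fun_prop
              exact hc.tendsto 1
            rw [sub_self] at this
            exact this.mono_left nhdsWithin_le_nhds
          · filter_upwards [self_mem_nhdsWithin] with s hs
            have : (1:ℝ) < s := hs
            exact sub_pos.2 this
        exact h1.comp h2
      have a2 : Tendsto (fun s : ℝ => (s - 1)⁻¹ * Real.log s) (𝓝[>] 1) (𝓝 1) := by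
        have h5 := Real.hasDerivAt_log (one_ne_zero)
        have h6 := h5.tendsto_slope
        have hsub : Ioi (1:ℝ) ⊆ {1}ᶜ := fun s hs => ne_of_gt hs
        have h7 := h6.mono_left (nhdsWithin_mono 1 hsub)
        simp only [inv_one] at h7
        refine h7.congr ?_
        intro s
        simp [slope_def_field]
        field_simp
      have a3 := a1.mul a2
      rw [zero_mul] at a3
      refine a3.congr' ?_
      filter_upwards [self_mem_nhdsWithin] with s hs
      have : s - 1 ≠ 0 := by
        have : (1:ℝ) < s := hs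
        linarith
      field_simp
  have hlim2 : Tendsto g (𝓝[>] 1) (𝓝 (g x)) := by
    refine tendsto_const_nhds.congr' ?_
    filter_upwards [self_mem_nhdsWithin] with s hs
    exact (hconst s hs).symm
  have huniq := tendsto_nhds_unique hlim hlim2
  have hi := intervalIntegrable_hfun hx
  have hi1 : IntervalIntegrable hfun volume 0 1 := hi.mono_set (by
    rw [uIcc_of_le zero_le_one, uIcc_of_le (by linarith)]
    exact Icc_subset_Icc_right hx.le)
  have hi2 : IntervalIntegrable hfun volume 1 x := hi.mono_set (by
    rw [uIcc_of_le hx.le, uIcc_of_le (by linarith)]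
    exact Icc_subset_Icc_left zero_le_one)
  have h1 := re_dilog_eq (by linarith) hi
  have h2 := re_dilog_eq one_pos hi1
  have h3 : (dilog ((1:ℝ) : ℂ)).re = Real.pi ^ 2 / 6 := by
    rw [Complex.ofReal_one, dilog_one, Complex.ofReal_re]
  rw [h1, ← intervalIntegral.integral_add_adjacent_intervals hi1 hi2, ← h2, h3]
  rw [hg] at huniq
  simp only [add_zero] at huniq
  linarith

lemma im_dilog_gt {x : ℝ} (hx : 1 < x) : (dilog x).im = - Real.pi * Real.log x := by
  have h := blochWigner_real_gt hx
  unfold blochWigner at h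
  rw [arg_one_sub_of_gt hx, Complex.norm_real, Real.norm_of_nonneg (by linarith)] at h
  linarith

/-- the value of the dilogarithm beyond `1`. -/
lemma dilog_gt {x : ℝ} (hx : 1 < x) {v : ℝ} (hv : dilog ((1 - x : ℝ) : ℂ) = (v : ℂ)) :
    dilog x = ((Real.pi ^ 2 / 6 - Real.log x * Real.log (x - 1) - v : ℝ) : ℂ) -
      ((Real.pi * Real.log x : ℝ) : ℂ) * I := by
  apply Complex.ext
  · rw [re_dilog_gt hx, hv]
    simp only [Complex.sub_re, Complex.ofReal_re, Complex.ofReal_im, Complex.mul_re,
      Complex.I_re, Complex.I_im]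
    ring
  · rw [im_dilog_gt hx]
    simp only [Complex.sub_im, Complex.ofReal_re, Complex.ofReal_im, Complex.mul_im,
      Complex.I_re, Complex.I_im]
    ring

end Pool.Agent.LibZP33
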