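import Mathlib
import Pool.Agent.LibZP33.DilogBasic

open Complex Set
open scoped ComplexConjugate

namespace Pool.Agent.LibZP33

lemma three_le_finrank {L : Submodule ℚ (Matrix (Fin 3) (Fin 3) ℚ)}
    {M E F : Matrix (Fin 3) (Fin 3) ℚ} (hM : M ∈ L) (hE : E ∈ L) (hF : F ∈ L)
    (hli : LinearIndependent ℚ ![M, E, F]) : 3 ≤ Module.finrank ℚ L := by
  have h2 : LinearIndependent ℚ (![⟨M, hM⟩, ⟨E, hE⟩, ⟨F, hF⟩] : Fin 3 → L) := by
    apply LinearIndependent.of_comp L.subtype
    convert hli using 1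
    ext i
    fin_cases i <;> rfl
  simpa using h2.fintype_card_le_finrank

lemma dependent_of_finrank_le {L : Submodule ℚ (Matrix (Fin 3) (Fin 3) ℚ)}
    (hL : Module.finrank ℚ L ≤ 2) {M E F : Matrix (Fin 3) (Fin 3) ℚ} (hM : M ∈ L) (hE : E ∈ L)
    (hF : F ∈ L) (m11 : M 1 1 = 1) (e11 : E 1 1 = 0) (f11 : F 1 1 = 0) (hE0 : E ≠ 0) :
    ∃ c : ℚ, F = c • E := by
  by_contra hcon
  push Not at hcon
  have : LinearIndependent ℚ ![M, E, F] := by
    rw [Fintype.linearIndependent_iff]
    intro g hg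
    simp only [Fin.sum_univ_three, Matrix.cons_val_zero, Matrix.cons_val_one, Matrix.cons_val] at hg
    have h0 : g 0 = 0 := by
      have := congrFun (congrFun hg 1) 1
      simpa [m11, e11, f11] using this
    have h2 : g 2 = 0 := by
      by_contra h2
      apply hcon (- g 1 / g 2)
      rw [h0, zero_smul, zero_add] at hg
      have h3 : g 2 • F = - (g 1 • E) := by
        rw [eq_neg_iff_add_eq_zero, add_comm]
        exact hg
      have h4 : F = (g 2)⁻¹ • (g 2 • F) := by
        rw [smul_smul, inv_mul_cancel₀ h2, one_smul]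
      rw [h4, h3, ← neg_smul, smul_smul]
      congr 1
      field_simp
    have h1 : g 1 = 0 := by
      rw [h0, h2, zero_smul, zero_smul, zero_add, add_zero] at hg
      rcases smul_eq_zero.1 hg with h | h
      · exact h
      · exact absurd h hE0
    intro i
    fin_cases i
    · exact h0
    · exact h1
    · exact h2
  have := three_le_finrank hM hE hF this
  omega

/-- separating rational-linear functional. -/
lemma exists_functional {c : ℂ} (hc : ∀ p : ℚ, c ≠ p) : ∃ φ : ℂ →ₗ[ℚ] ℚ, φ 1 = 0 ∧ φ c ≠ 0 := by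
  have h1 : c ∉ Submodule.span ℚ ({1} : Set ℂ) := by
    intro h
    rw [Submodule.mem_span_singleton] at h
    obtain ⟨a, ha⟩ := h
    apply hc a
    rw [← ha, Algebra.smul_def, mul_one]
    rfl
  obtain ⟨f, hf, hf'⟩ := Submodule.exists_dual_map_eq_bot_of_notMem (R := ℚ) h1 inferInstance
  refine ⟨f, ?_, hf⟩
  have : f 1 ∈ (Submodule.span ℚ ({1} : Set ℂ)).map f :=
    Submodule.mem_map_of_mem (Submodule.mem_span_singleton_self 1)
  rw [hf'] at this
  simpa using this

lemma exists_functional_one : ∃ φ : ℂ →ₗ[ℚ] ℚ, φ 1 = 1 := by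
  obtain ⟨f, hf⟩ : ∃ f : ℂ →ₗ[ℚ] ℚ, f 1 ≠ 0 := by
    by_contra h
    push Not at h
    exact one_ne_zero ((Module.forall_dual_apply_eq_zero_iff ℚ (1:ℂ)).1 h)
  refine ⟨(f 1)⁻¹ • f, ?_⟩
  simp [hf]

lemma eq_of_functionals {a b : ℂ} (h : ∀ φ : ℂ →ₗ[ℚ] ℚ, φ a = φ b) : a = b := by
  rw [← sub_eq_zero]
  apply (Module.forall_dual_apply_eq_zero_iff ℚ (a - b)).1
  intro φ
  rw [map_sub, h φ, sub_self]

lemma map_hodgeOperator (κ z : ℂ) (φ : ℂ →ₗ[ℚ] ℚ) : (hodgeOperator κ z).map φ =
    !![0, 0, 0; φ (xx z), φ 1, 0; φ (ww κ z), φ (yy z), 2 * φ 1] := by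
  rw [hodgeOperator_eq]
  have h2 : φ 2 = 2 * φ 1 := by
    have : (2:ℂ) = (2:ℚ) • (1:ℂ) := by
      rw [Algebra.smul_def]; norm_num
    rw [this, map_smul, smul_eq_mul]
  ext i j
  fin_cases i <;> fin_cases j <;> simp [h2]

/-- the linear algebra of a Mumford-Tate group of dimension at most two, when `x` and `y`
are not both rational. -/
lemma relations_of_mtDim_le {κ z : ℂ} (h : mtDim κ z ≤ 2)
    (hne : ¬ ((∃ p : ℚ, xx z = p) ∧ (∃ r : ℚ, yy z = r))) :
    ∃ p q r α β : ℚ, (α, β) ≠ (0, 0) ∧ ww κ z = q + p * yy z - r * xx z ∧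
      (β : ℂ) * (xx z - p) = α * (yy z - r) := by
  obtain ⟨φ₀, hφ₀⟩ := exists_functional_one
  set p := φ₀ (xx z) with hp
  set r := φ₀ (yy z) with hr
  set q := φ₀ (ww κ z) with hq
  have hM : (hodgeOperator κ z).map φ₀ ∈ mtLie κ z := map_mem_mtLie κ z φ₀
  rw [map_hodgeOperator, hφ₀, ← hp, ← hr, ← hq] at hM
  -- the nilpotent parts
  have hE : ∀ ψ : ℂ →ₗ[ℚ] ℚ, (!![0, 0, 0; ψ (xx z) - ψ 1 * p, 0, 0;
      ψ (ww κ z) - ψ 1 * q, ψ (yy z) - ψ 1 * r, 0] : Matrix (Fin 3) (Fin 3) ℚ) ∈ mtLie κ z := by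
    intro ψ
    have h1 : (hodgeOperator κ z).map ψ ∈ mtLie κ z := map_mem_mtLie κ z ψ
    rw [map_hodgeOperator] at h1
    have h2 := Submodule.sub_mem _ h1 (Submodule.smul_mem _ (ψ 1) hM)
    convert h2 using 1
    ext i j
    fin_cases i <;> fin_cases j <;> simp <;> ring
  obtain ⟨φ, hφ⟩ : ∃ φ : ℂ →ₗ[ℚ] ℚ, φ 1 = 0 ∧ (φ (xx z) ≠ 0 ∨ φ (yy z) ≠ 0) := by
    rw [not_and_or] at hne
    rcases hne with h1 | h1
    · push Not at h1
      obtain ⟨φ, h2, h3⟩ := exists_functional h1
      exact ⟨φ, h2, Or.inl h3⟩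
    · push Not at h1
      obtain ⟨φ, h2, h3⟩ := exists_functional h1
      exact ⟨φ, h2, Or.inr h3⟩
  obtain ⟨hφ1, hφ2⟩ := hφ
  set a := φ (xx z) with ha
  set b := φ (yy z) with hb
  set c := φ (ww κ z) with hc
  have hEφ := hE φ
  rw [hφ1, ← ha, ← hb, ← hc] at hEφ
  simp only [zero_mul, sub_zero] at hEφ
  have hE0 : (!![0, 0, 0; a, 0, 0; c, b, 0] : Matrix (Fin 3) (Fin 3) ℚ) ≠ 0 := by
    intro h0
    rcases hφ2 with h1 | h1
    · have := congrFun (congrFun h0 1) 0
      simp at this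
      exact h1 this
    · have := congrFun (congrFun h0 2) 1
      simp at this
      exact h1 this
  -- bracket
  have hbr := bracket_mem_mtLie hM hEφ
  have hbr' : (!![0, 0, 0; p, 1, 0; q, r, 2 * 1] : Matrix (Fin 3) (Fin 3) ℚ) *
      !![0, 0, 0; a, 0, 0; c, b, 0] - !![0, 0, 0; a, 0, 0; c, b, 0] *
      !![0, 0, 0; p, 1, 0; q, r, 2 * 1] = !![0, 0, 0; a, 0, 0; r * a + 2 * c - b * p, b, 0] := by
    ext i j
    fin_cases i <;> fin_cases j <;>
      simp [Matrix.mul_apply, Fin.sum_univ_three] <;> ring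
  rw [hbr'] at hbr
  obtain ⟨t, ht⟩ := dependent_of_finrank_le h hM hEφ hbr (by simp) (by simp) (by simp) hE0
  have hc' : c = b * p - r * a := by
    have e1 := congrFun (congrFun ht 1) 0
    have e2 := congrFun (congrFun ht 2) 1
    have e3 := congrFun (congrFun ht 2) 0
    simp at e1 e2 e3
    have ht1 : t = 1 := by
      rcases hφ2 with h1 | h1
      · have := mul_right_cancel₀ h1 ((one_mul a).trans e1)
        exact this.symm
      · have := mul_right_cancel₀ h1 ((one_mul b).trans e2)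
        exact this.symm
    rw [ht1] at e3
    linarith
  have hall : ∀ ψ : ℂ →ₗ[ℚ] ℚ,
      b * (ψ (xx z) - ψ 1 * p) = a * (ψ (yy z) - ψ 1 * r) ∧
      ψ (ww κ z) - ψ 1 * q = p * (ψ (yy z) - ψ 1 * r) - r * (ψ (xx z) - ψ 1 * p) := by
    intro ψ
    obtain ⟨s, hs⟩ := dependent_of_finrank_le h hM hEφ (hE ψ) (by simp) (by simp) (by simp) hE0
    have e1 := congrFun (congrFun hs 1) 0
    have e2 := congrFun (congrFun hs 2) 1
    have e3 := congrFun (congrFun hs 2) 0
    simp at e1 e2 e3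
    rw [e1, e2, e3, hc']
    constructor <;> ring
  refine ⟨p, q, r, a, b, ?_, ?_, ?_⟩
  · intro h0
    rw [Prod.mk.injEq] at h0
    rcases hφ2 with h1 | h1
    · exact h1 h0.1
    · exact h1 h0.2
  · apply eq_of_functionals
    intro ψ
    have e1 : ψ ((q:ℂ) + p * yy z - r * xx z) = q * ψ 1 + p * ψ (yy z) - r * ψ (xx z) := by
      rw [map_sub, map_add]
      have h1 : (q:ℂ) = q • (1:ℂ) := by rw [Algebra.smul_def, mul_one]; rfl
      have h2 : (p:ℂ) * yy z = p • yy z := by rw [Algebra.smul_def]; rfl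
      have h3 : (r:ℂ) * xx z = r • xx z := by rw [Algebra.smul_def]; rfl
      rw [h1, h2, h3, map_smul, map_smul, map_smul]
      simp only [smul_eq_mul]
    rw [e1]
    have := (hall ψ).2
    linarith
  · apply eq_of_functionals
    intro ψ
    have h1 : ψ ((b:ℂ) * (xx z - p)) = b * (ψ (xx z) - ψ 1 * p) := by
      have h2 : (b:ℂ) * (xx z - p) = b • (xx z - p • (1:ℂ)) := by
        rw [Algebra.smul_def, Algebra.smul_def, mul_one]; rfl
      rw [h2, map_smul, map_sub, map_smul]
      simp only [smul_eq_mul]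
      ring
    have h2 : ψ ((a:ℂ) * (yy z - r)) = a * (ψ (yy z) - ψ 1 * r) := by
      have h2 : (a:ℂ) * (yy z - r) = a • (yy z - r • (1:ℂ)) := by
        rw [Algebra.smul_def, Algebra.smul_def, mul_one]; rfl
      rw [h2, map_smul, map_sub, map_smul]
      simp only [smul_eq_mul]
      ring
    rw [h1, h2]
    exact (hall ψ).1


/-- two real vectors proportional to the same nonzero vector have zero cross product. -/
lemma cross_zero {α β u v s t : ℝ} (h : (α, β) ≠ (0, 0)) (h1 : β * u = α * v)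
    (h2 : β * s = α * t) : u * t - v * s = 0 := by
  by_cases ha : α = 0
  · have hb : β ≠ 0 := fun hb => h (by rw [ha, hb])
    rw [ha, zero_mul] at h1 h2
    have hu := (mul_eq_zero.1 h1).resolve_left hb
    have hs := (mul_eq_zero.1 h2).resolve_left hb
    rw [hu, hs]; ring
  · have : α * (u * t - v * s) = 0 := by
      linear_combination u * (-h2) + s * h1
    exact (mul_eq_zero.1 this).resolve_left ha

lemma xx_re (z : ℂ) : (xx z).re = - (1 - z).arg / (2 * Real.pi) := by
  have hpi := Real.pi_pos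
  have : xx z = ((2 * Real.pi : ℝ)⁻¹ : ℝ) * (I * Complex.log (1 - z)) := by
    unfold xx
    push_cast
    have hpi' : (Real.pi : ℂ) ≠ 0 := by exact_mod_cast hpi.ne'
    field_simp
    linear_combination (- Complex.log (1 - z)) * I_sq
  rw [this, Complex.re_ofReal_mul, Complex.mul_re, Complex.I_re, Complex.I_im, Complex.log_im]
  field_simp
  ring

lemma xx_im (z : ℂ) : (xx z).im = Real.log ‖1 - z‖ / (2 * Real.pi) := by
  have hpi := Real.pi_pos
  have : xx z = ((2 * Real.pi : ℝ)⁻¹ : ℝ) * (I * Complex.log (1 - z)) := by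
    unfold xx
    push_cast
    have hpi' : (Real.pi : ℂ) ≠ 0 := by exact_mod_cast hpi.ne'
    field_simp
    linear_combination (- Complex.log (1 - z)) * I_sq
  rw [this, Complex.im_ofReal_mul, Complex.mul_im, Complex.I_re, Complex.I_im, Complex.log_re]
  field_simp
  ring

lemma yy_re (z : ℂ) : (yy z).re = z.arg / (2 * Real.pi) := by
  have hpi := Real.pi_pos
  have : yy z = ((2 * Real.pi : ℝ)⁻¹ : ℝ) * (- I * Complex.log z) := by
    unfold yy
    push_cast
    have hpi' : (Real.pi : ℂ) ≠ 0 := by exact_mod_cast hpi.ne'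
    field_simp
    linear_combination (Complex.log z) * I_sq
  rw [this, Complex.re_ofReal_mul, Complex.mul_re, Complex.neg_re, Complex.neg_im, Complex.I_re,
    Complex.I_im, Complex.log_im]
  field_simp
  ring

lemma yy_im (z : ℂ) : (yy z).im = - Real.log ‖z‖ / (2 * Real.pi) := by
  have hpi := Real.pi_pos
  have : yy z = ((2 * Real.pi : ℝ)⁻¹ : ℝ) * (- I * Complex.log z) := by
    unfold yy
    push_cast
    have hpi' : (Real.pi : ℂ) ≠ 0 := by exact_mod_cast hpi.ne'
    field_simp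
    linear_combination (Complex.log z) * I_sq
  rw [this, Complex.im_ofReal_mul, Complex.mul_im, Complex.neg_re, Complex.neg_im, Complex.I_re,
    Complex.I_im, Complex.log_re]
  field_simp
  ring

lemma ww_im (κ z : ℂ) : (ww κ z).im = - (2 * ((dilog z).im + κ.im) +
    (Real.log ‖z‖ * (1 - z).arg + z.arg * Real.log ‖1 - z‖)) / (4 * Real.pi ^ 2) := by
  have hpi := Real.pi_pos
  have : ww κ z = ((- (4 * Real.pi ^ 2)⁻¹ : ℝ) : ℂ) *
      (2 * (dilog z + κ) + Complex.log z * Complex.log (1 - z)) := by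
    unfold ww
    push_cast
    have hpi' : (Real.pi : ℂ) ≠ 0 := by exact_mod_cast hpi.ne'
    rw [mul_pow, I_sq]
    field_simp
    ring
  rw [this, Complex.im_ofReal_mul]
  simp only [Complex.add_im, Complex.mul_im, Complex.log_re, Complex.log_im]
  have h2 : ((2:ℂ).re) = 2 := rfl
  have h3 : ((2:ℂ).im) = 0 := rfl
  rw [h2, h3]
  field_simp
  ring

/-- **Key relation**: at a point whose Mumford-Tate group has dimension at most two, and which is
not doubly torsion, the Bloch-Wigner dilogarithm is minus the imaginary part of the twist. -/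
lemma blochWigner_eq_of_relations {κ z : ℂ} {p q r α β : ℚ} (hab : (α, β) ≠ (0, 0))
    (hw : ww κ z = q + p * yy z - r * xx z) (hxy : (β : ℂ) * (xx z - p) = α * (yy z - r)) :
    blochWigner z = - κ.im := by
  have hpi := Real.pi_pos
  have hab' : ((α:ℝ), (β:ℝ)) ≠ (0, 0) := by
    intro h
    rw [Prod.mk.injEq] at h
    apply hab
    rw [Prod.mk.injEq]
    exact ⟨by exact_mod_cast h.1, by exact_mod_cast h.2⟩
  have e1 : (β:ℝ) * ((xx z).re - p) = α * ((yy z).re - r) := by
    have := congrArg Complex.re hxy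
    simpa using this
  have e2 : (β:ℝ) * (xx z).im = α * (yy z).im := by
    have := congrArg Complex.im hxy
    simpa using this
  have e3 : (ww κ z).im = p * (yy z).im - r * (xx z).im := by
    have := congrArg Complex.im hw
    simpa using this
  have e4 := cross_zero hab' e1 e2
  have e5 : (ww κ z).im = (xx z).re * (yy z).im - (yy z).re * (xx z).im := by
    rw [e3]
    linarith
  rw [ww_im, xx_re, xx_im, yy_re, yy_im] at e5
  unfold blochWigner
  field_simp at e5
  linarith

end Pool.Agent.LibZP33
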