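import Mathlib
import Pool.Agent.LibZP33.DilogRel

open Complex Set
open scoped ComplexConjugate

namespace Pool.Agent.LibZP33

/-- `z` and `1 - z` are multiplicatively dependent. -/
def MultDep (z : ℂ) : Prop := ∃ a b : ℤ, (a, b) ≠ (0, 0) ∧ z ^ a * (1 - z) ^ b = 1

/-- a rational relation between `1`, `x(z)` and `y(z)`. -/
def RatRel (z : ℂ) : Prop := ∃ α β γ : ℚ, (α, β) ≠ (0, 0) ∧ (β : ℂ) * xx z - α * yy z = γ

lemma log_eq_yy (z : ℂ) : Complex.log z = 2 * Real.pi * I * yy z := by
  unfold yy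
  field_simp [two_pi_I_ne]

lemma log_one_sub_eq_xx (z : ℂ) : Complex.log (1 - z) = - (2 * Real.pi * I * xx z) := by
  unfold xx
  field_simp [two_pi_I_ne]

lemma zpow_mul_eq_exp {z : ℂ} (h0 : z ≠ 0) (h1 : z ≠ 1) (a b : ℤ) :
    z ^ a * (1 - z) ^ b = Complex.exp (2 * Real.pi * I * (a * yy z - b * xx z)) := by
  have h2 : 1 - z ≠ 0 := sub_ne_zero.2 h1.symm
  have e1 : z ^ a = Complex.exp (a * Complex.log z) := by
    rw [Complex.exp_int_mul, Complex.exp_log h0]
  have e2 : (1 - z) ^ b = Complex.exp (b * Complex.log (1 - z)) := by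
    rw [Complex.exp_int_mul, Complex.exp_log h2]
  rw [e1, e2, ← Complex.exp_add, log_eq_yy, log_one_sub_eq_xx]
  congr 1
  ring

lemma multDep_iff {z : ℂ} (h0 : z ≠ 0) (h1 : z ≠ 1) : MultDep z ↔ RatRel z := by
  constructor
  · rintro ⟨a, b, hab, h⟩
    rw [zpow_mul_eq_exp h0 h1, Complex.exp_eq_one_iff] at h
    obtain ⟨n, hn⟩ := h
    refine ⟨a, b, -n, ?_, ?_⟩
    · intro h
      rw [Prod.mk.injEq] at h
      apply hab
      rw [Prod.mk.injEq]
      exact ⟨by exact_mod_cast h.1, by exact_mod_cast h.2⟩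
    · have h3 : (2 * Real.pi * I : ℂ) * (a * yy z - b * xx z) = 2 * Real.pi * I * n := by
        rw [hn]; ring
      have h4 := mul_left_cancel₀ two_pi_I_ne h3
      push_cast
      linear_combination - h4
  · rintro ⟨α, β, γ, hab, h⟩
    set N : ℤ := α.den * β.den * γ.den with hN
    have hN0 : N ≠ 0 := by positivity
    have ha : ((α.num * β.den * γ.den : ℤ) : ℂ) = N * α := by
      have : (α : ℂ) * α.den = α.num := by exact_mod_cast Rat.mul_den_eq_num α
      rw [hN]
      push_cast
      rw [← this]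
      ring
    have hb : ((β.num * α.den * γ.den : ℤ) : ℂ) = N * β := by
      have : (β : ℂ) * β.den = β.num := by exact_mod_cast Rat.mul_den_eq_num β
      rw [hN]
      push_cast
      rw [← this]
      ring
    have hc : ((γ.num * α.den * β.den : ℤ) : ℂ) = N * γ := by
      have : (γ : ℂ) * γ.den = γ.num := by exact_mod_cast Rat.mul_den_eq_num γ
      rw [hN]
      push_cast
      rw [← this]
      ring
    refine ⟨α.num * β.den * γ.den, β.num * α.den * γ.den, ?_, ?_⟩
    · intro h
      rw [Prod.mk.injEq] at h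
      apply hab
      rw [Prod.mk.injEq]
      constructor
      · have : (N:ℂ) * α = 0 := by rw [← ha, h.1]; simp
        rcases mul_eq_zero.1 this with h3 | h3
        · exact absurd (by exact_mod_cast h3) hN0
        · exact_mod_cast h3
      · have : (N:ℂ) * β = 0 := by rw [← hb, h.2]; simp
        rcases mul_eq_zero.1 this with h3 | h3
        · exact absurd (by exact_mod_cast h3) hN0
        · exact_mod_cast h3
    · rw [zpow_mul_eq_exp h0 h1, Complex.exp_eq_one_iff]
      refine ⟨-(γ.num * α.den * β.den), ?_⟩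
      have hc' : ((-(γ.num * α.den * β.den) : ℤ) : ℂ) = - (N * γ) := by
        rw [← hc]; push_cast; ring
      rw [ha, hb, hc']
      linear_combination (-(2 * Real.pi * I * N : ℂ)) * h

lemma bracket_span {s : Set (Matrix (Fin 3) (Fin 3) ℚ)}
    (h : ∀ a ∈ s, ∀ b ∈ s, a * b - b * a ∈ Submodule.span ℚ s) :
    ∀ A ∈ Submodule.span ℚ s, ∀ B ∈ Submodule.span ℚ s, A * B - B * A ∈ Submodule.span ℚ s := by
  intro A hA B hB
  induction hA using Submodule.span_induction with
  | mem x hx =>
    induction hB using Submodule.span_induction with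
    | mem y hy => exact h x hx y hy
    | zero => simp
    | add y y' _ _ h1 h2 =>
      have : x * (y + y') - (y + y') * x = (x * y - y * x) + (x * y' - y' * x) := by noncomm_ring
      rw [this]
      exact Submodule.add_mem _ h1 h2
    | smul c y _ h1 =>
      have : x * (c • y) - (c • y) * x = c • (x * y - y * x) := by
        rw [smul_sub, Matrix.mul_smul, Matrix.smul_mul]
      rw [this]
      exact Submodule.smul_mem _ _ h1
  | zero => simp
  | add x x' _ _ h1 h2 =>
    have : (x + x') * B - B * (x + x') = (x * B - B * x) + (x' * B - B * x') := by noncomm_ring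
    rw [this]
    exact Submodule.add_mem _ h1 h2
  | smul c x _ h1 =>
    have : (c • x) * B - B * (c • x) = c • (x * B - B * x) := by
      rw [smul_sub, Matrix.mul_smul, Matrix.smul_mul]
    rw [this]
    exact Submodule.smul_mem _ _ h1

lemma mtDim_le_of_span {κ z : ℂ} (s : Finset (Matrix (Fin 3) (Fin 3) ℚ)) {d : ℕ}
    (hs : s.card ≤ d)
    (h1 : ∀ a ∈ s, ∀ b ∈ s, a * b - b * a ∈ Submodule.span ℚ (s : Set (Matrix (Fin 3) (Fin 3) ℚ)))
    (h2 : hodgeOperator κ z ∈ Submodule.span ℂ
      ((fun M : Matrix (Fin 3) (Fin 3) ℚ => M.map (algebraMap ℚ ℂ)) ''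
        (Submodule.span ℚ (s : Set (Matrix (Fin 3) (Fin 3) ℚ)) : Set _))) :
    mtDim κ z ≤ d := by
  have h3 := mtLie_le (κ := κ) (z := z) (bracket_span h1) h2
  calc mtDim κ z ≤ Module.finrank ℚ (Submodule.span ℚ (s : Set (Matrix (Fin 3) (Fin 3) ℚ))) :=
        Submodule.finrank_mono h3
    _ ≤ s.card := finrank_span_finset_le_card s
    _ ≤ d := hs

lemma mem_span_image {s : Set (Matrix (Fin 3) (Fin 3) ℚ)} {M : Matrix (Fin 3) (Fin 3) ℚ}
    (hM : M ∈ s) : M.map (algebraMap ℚ ℂ) ∈ Submodule.span ℂ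
      ((fun M : Matrix (Fin 3) (Fin 3) ℚ => M.map (algebraMap ℚ ℂ)) ''
        (Submodule.span ℚ s : Set _)) :=
  Submodule.subset_span ⟨M, Submodule.subset_span hM, rfl⟩

lemma mtDim_le_four (κ z : ℂ) : mtDim κ z ≤ 4 := by
  classical
  let D : Matrix (Fin 3) (Fin 3) ℚ := !![0, 0, 0; 0, 1, 0; 0, 0, 2]
  let e : Matrix (Fin 3) (Fin 3) ℚ := !![0, 0, 0; 1, 0, 0; 0, 0, 0]
  let f : Matrix (Fin 3) (Fin 3) ℚ := !![0, 0, 0; 0, 0, 0; 0, 1, 0]
  let g : Matrix (Fin 3) (Fin 3) ℚ := !![0, 0, 0; 0, 0, 0; 1, 0, 0]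
  have hD : D ∈ ({D, e, f, g} : Finset (Matrix (Fin 3) (Fin 3) ℚ)) := by simp
  have he : e ∈ ({D, e, f, g} : Finset (Matrix (Fin 3) (Fin 3) ℚ)) := by simp
  have hf : f ∈ ({D, e, f, g} : Finset (Matrix (Fin 3) (Fin 3) ℚ)) := by simp
  have hg : g ∈ ({D, e, f, g} : Finset (Matrix (Fin 3) (Fin 3) ℚ)) := by simp
  have sD := Submodule.subset_span (R := ℚ) (Finset.mem_coe.2 hD)
  have se := Submodule.subset_span (R := ℚ) (Finset.mem_coe.2 he)
  have sf := Submodule.subset_span (R := ℚ) (Finset.mem_coe.2 hf)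
  have sg := Submodule.subset_span (R := ℚ) (Finset.mem_coe.2 hg)
  have b1 : D * e - e * D = e := by
    ext i j; fin_cases i <;> fin_cases j <;> simp [D, e, Matrix.mul_apply, Fin.sum_univ_three]
  have b2 : D * f - f * D = f := by
    ext i j; fin_cases i <;> fin_cases j <;> simp [D, f, Matrix.mul_apply, Fin.sum_univ_three]; norm_num
  have b3 : D * g - g * D = (2:ℚ) • g := by
    ext i j; fin_cases i <;> fin_cases j <;> simp [D, g, Matrix.mul_apply, Fin.sum_univ_three]
  have b4 : e * f - f * e = (-1:ℚ) • g := by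
    ext i j; fin_cases i <;> fin_cases j <;> simp [e, f, g, Matrix.mul_apply, Fin.sum_univ_three]
  have b5 : e * g - g * e = 0 := by
    ext i j; fin_cases i <;> fin_cases j <;> simp [e, g, Matrix.mul_apply, Fin.sum_univ_three]
  have b6 : f * g - g * f = 0 := by
    ext i j; fin_cases i <;> fin_cases j <;> simp [f, g, Matrix.mul_apply, Fin.sum_univ_three]
  apply mtDim_le_of_span ({D, e, f, g} : Finset (Matrix (Fin 3) (Fin 3) ℚ)) Finset.card_le_four
  · have hsymm : ∀ a b : Matrix (Fin 3) (Fin 3) ℚ, a * b - b * a ∈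
        Submodule.span ℚ (({D, e, f, g} : Finset (Matrix (Fin 3) (Fin 3) ℚ)) : Set (Matrix (Fin 3) (Fin 3) ℚ)) →
        b * a - a * b ∈
        Submodule.span ℚ (({D, e, f, g} : Finset (Matrix (Fin 3) (Fin 3) ℚ)) : Set (Matrix (Fin 3) (Fin 3) ℚ)) := by
      intro a b h
      have := Submodule.neg_mem _ h
      rwa [neg_sub] at this
    intro a ha b hb
    simp only [Finset.mem_insert, Finset.mem_singleton] at ha hb
    rcases ha with rfl | rfl | rfl | rfl <;> rcases hb with rfl | rfl | rfl | rfl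
    · simp
    · rw [b1]; exact se
    · rw [b2]; exact sf
    · rw [b3]; exact Submodule.smul_mem _ _ sg
    · apply hsymm; rw [b1]; exact se
    · simp
    · rw [b4]; exact Submodule.smul_mem _ _ sg
    · rw [b5]; exact Submodule.zero_mem _
    · apply hsymm; rw [b2]; exact sf
    · apply hsymm; rw [b4]; exact Submodule.smul_mem _ _ sg
    · simp
    · rw [b6]; exact Submodule.zero_mem _
    · apply hsymm; rw [b3]; exact Submodule.smul_mem _ _ sg
    · apply hsymm; rw [b5]; exact Submodule.zero_mem _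
    · apply hsymm; rw [b6]; exact Submodule.zero_mem _
    · simp
  · have : hodgeOperator κ z = D.map (algebraMap ℚ ℂ) + xx z • e.map (algebraMap ℚ ℂ) +
        yy z • f.map (algebraMap ℚ ℂ) + ww κ z • g.map (algebraMap ℚ ℂ) := by
      rw [hodgeOperator_eq]
      ext i j; fin_cases i <;> fin_cases j <;> simp [D, e, f, g]
    rw [this]
    refine Submodule.add_mem _ (Submodule.add_mem _ (Submodule.add_mem _ ?_ ?_) ?_) ?_
    · exact mem_span_image (Finset.mem_coe.2 hD)
    · exact Submodule.smul_mem _ _ (mem_span_image (Finset.mem_coe.2 he))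
    · exact Submodule.smul_mem _ _ (mem_span_image (Finset.mem_coe.2 hf))
    · exact Submodule.smul_mem _ _ (mem_span_image (Finset.mem_coe.2 hg))


/-- If `x`, `y` satisfy a rational relation then the Mumford-Tate group has dimension at most
three. -/
lemma mtDim_le_three {z : ℂ} (κ : ℂ) (h : RatRel z) : mtDim κ z ≤ 3 := by
  classical
  obtain ⟨α, β, γ, hab, hrel⟩ := h
  -- find `p, r` rational and `c` complex with `x = p + c α`, `y = r + c β`
  obtain ⟨p, r, c, hx, hy⟩ : ∃ p r : ℚ, ∃ c : ℂ, xx z = p + c * α ∧ yy z = r + c * β := by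
    by_cases ha : α = 0
    · have hb : β ≠ 0 := fun hb => hab (by rw [ha, hb])
      have hb' : (β : ℂ) ≠ 0 := by exact_mod_cast hb
      refine ⟨γ / β, 0, yy z / β, ?_, ?_⟩
      · rw [ha] at hrel ⊢
        push_cast at hrel ⊢
        field_simp
        linear_combination hrel
      · push_cast
        field_simp
        ring
    · have ha' : (α : ℂ) ≠ 0 := by exact_mod_cast ha
      refine ⟨0, - γ / α, xx z / α, ?_, ?_⟩
      · push_cast
        field_simp
        ring
      · push_cast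
        field_simp
        linear_combination - hrel
  let M : Matrix (Fin 3) (Fin 3) ℚ := !![0, 0, 0; p, 1, 0; 0, r, 2]
  let e : Matrix (Fin 3) (Fin 3) ℚ := !![0, 0, 0; α, 0, 0; 0, β, 0]
  let g : Matrix (Fin 3) (Fin 3) ℚ := !![0, 0, 0; 0, 0, 0; 1, 0, 0]
  have hM : M ∈ ({M, e, g} : Finset (Matrix (Fin 3) (Fin 3) ℚ)) := by simp
  have he : e ∈ ({M, e, g} : Finset (Matrix (Fin 3) (Fin 3) ℚ)) := by simp
  have hg : g ∈ ({M, e, g} : Finset (Matrix (Fin 3) (Fin 3) ℚ)) := by simp
  have sM := Submodule.subset_span (R := ℚ) (Finset.mem_coe.2 hM)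
  have se := Submodule.subset_span (R := ℚ) (Finset.mem_coe.2 he)
  have sg := Submodule.subset_span (R := ℚ) (Finset.mem_coe.2 hg)
  have b1 : M * e - e * M = e + (r * α - β * p) • g := by
    ext i j; fin_cases i <;> fin_cases j <;> simp [M, e, g]; norm_num; ring
  have b3 : M * g - g * M = (2:ℚ) • g := by
    ext i j; fin_cases i <;> fin_cases j <;> simp [M, g]
  have b5 : e * g - g * e = 0 := by
    ext i j; fin_cases i <;> fin_cases j <;> simp [e, g]
  apply mtDim_le_of_span ({M, e, g} : Finset (Matrix (Fin 3) (Fin 3) ℚ)) Finset.card_le_three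
  · have hsymm : ∀ a b : Matrix (Fin 3) (Fin 3) ℚ, a * b - b * a ∈
        Submodule.span ℚ (({M, e, g} : Finset (Matrix (Fin 3) (Fin 3) ℚ)) : Set (Matrix (Fin 3) (Fin 3) ℚ)) →
        b * a - a * b ∈
        Submodule.span ℚ (({M, e, g} : Finset (Matrix (Fin 3) (Fin 3) ℚ)) : Set (Matrix (Fin 3) (Fin 3) ℚ)) := by
      intro a b h
      have := Submodule.neg_mem _ h
      rwa [neg_sub] at this
    intro a ha b hb
    simp only [Finset.mem_insert, Finset.mem_singleton] at ha hb
    rcases ha with rfl | rfl | rfl <;> rcases hb with rfl | rfl | rfl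
    · simp
    · rw [b1]; exact Submodule.add_mem _ se (Submodule.smul_mem _ _ sg)
    · rw [b3]; exact Submodule.smul_mem _ _ sg
    · apply hsymm; rw [b1]; exact Submodule.add_mem _ se (Submodule.smul_mem _ _ sg)
    · simp
    · rw [b5]; exact Submodule.zero_mem _
    · apply hsymm; rw [b3]; exact Submodule.smul_mem _ _ sg
    · apply hsymm; rw [b5]; exact Submodule.zero_mem _
    · simp
  · have : hodgeOperator κ z = M.map (algebraMap ℚ ℂ) + c • e.map (algebraMap ℚ ℂ) +
        ww κ z • g.map (algebraMap ℚ ℂ) := by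
      rw [hodgeOperator_eq]
      ext i j; fin_cases i <;> fin_cases j <;> simp [M, e, g, hx, hy]
    rw [this]
    refine Submodule.add_mem _ (Submodule.add_mem _ ?_ ?_) ?_
    · exact mem_span_image (Finset.mem_coe.2 hM)
    · exact Submodule.smul_mem _ _ (mem_span_image (Finset.mem_coe.2 he))
    · exact Submodule.smul_mem _ _ (mem_span_image (Finset.mem_coe.2 hg))

/-- If `x`, `y` are both rational then the Mumford-Tate group has dimension at most two. -/
lemma mtDim_le_two {z : ℂ} (κ : ℂ) {p r : ℚ} (hx : xx z = p) (hy : yy z = r) :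
    mtDim κ z ≤ 2 := by
  classical
  let M : Matrix (Fin 3) (Fin 3) ℚ := !![0, 0, 0; p, 1, 0; 0, r, 2]
  let g : Matrix (Fin 3) (Fin 3) ℚ := !![0, 0, 0; 0, 0, 0; 1, 0, 0]
  have hM : M ∈ ({M, g} : Finset (Matrix (Fin 3) (Fin 3) ℚ)) := by simp
  have hg : g ∈ ({M, g} : Finset (Matrix (Fin 3) (Fin 3) ℚ)) := by simp
  have sM := Submodule.subset_span (R := ℚ) (Finset.mem_coe.2 hM)
  have sg := Submodule.subset_span (R := ℚ) (Finset.mem_coe.2 hg)
  have b3 : M * g - g * M = (2:ℚ) • g := by
    ext i j; fin_cases i <;> fin_cases j <;> simp [M, g]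
  apply mtDim_le_of_span ({M, g} : Finset (Matrix (Fin 3) (Fin 3) ℚ)) Finset.card_le_two
  · intro a ha b hb
    simp only [Finset.mem_insert, Finset.mem_singleton] at ha hb
    rcases ha with rfl | rfl <;> rcases hb with rfl | rfl
    · simp
    · rw [b3]; exact Submodule.smul_mem _ _ sg
    · rw [← neg_sub, b3]; exact Submodule.neg_mem _ (Submodule.smul_mem _ _ sg)
    · simp
  · have : hodgeOperator κ z = M.map (algebraMap ℚ ℂ) + ww κ z • g.map (algebraMap ℚ ℂ) := by
      rw [hodgeOperator_eq]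
      ext i j; fin_cases i <;> fin_cases j <;> simp [M, g, hx, hy]
    rw [this]
    refine Submodule.add_mem _ ?_ ?_
    · exact mem_span_image (Finset.mem_coe.2 hM)
    · exact Submodule.smul_mem _ _ (mem_span_image (Finset.mem_coe.2 hg))

end Pool.Agent.LibZP33
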