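import Mathlib
import Pool.Agent.LibZP33.DilogDim

open Complex Set
open scoped ComplexConjugate

namespace Pool.Agent.LibZP33

lemma functional_sep {c d : ℂ} (h : ∀ p q : ℚ, c ≠ p + q * d) :
    ∃ φ : ℂ →ₗ[ℚ] ℚ, φ 1 = 0 ∧ φ d = 0 ∧ φ c ≠ 0 := by
  have h1 : c ∉ Submodule.span ℚ ({1, d} : Set ℂ) := by
    intro h'
    rw [Submodule.mem_span_pair] at h'
    obtain ⟨a, b, hab⟩ := h'
    apply h a b
    rw [← hab, Algebra.smul_def, mul_one, Algebra.smul_def]
    rfl
  obtain ⟨f, hf, hf'⟩ := Submodule.exists_dual_map_eq_bot_of_notMem (R := ℚ) h1 inferInstance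
  have key : ∀ v ∈ ({1, d} : Set ℂ), f v = 0 := by
    intro v hv
    have : f v ∈ (Submodule.span ℚ ({1, d} : Set ℂ)).map f :=
      Submodule.mem_map_of_mem (Submodule.subset_span hv)
    rw [hf'] at this
    simpa using this
  exact ⟨f, key 1 (by simp), key d (by simp), hf⟩

/-- With no rational relation the Mumford-Tate group has dimension four. -/
lemma mtDim_eq_four {z : ℂ} (κ : ℂ) (h : ¬ RatRel z) : mtDim κ z = 4 := by
  apply le_antisymm (mtDim_le_four κ z)
  obtain ⟨φ₀, h0⟩ := exists_functional_one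
  obtain ⟨φ, hφ1, hφy, hφx⟩ : ∃ φ : ℂ →ₗ[ℚ] ℚ, φ 1 = 0 ∧ φ (yy z) = 0 ∧ φ (xx z) ≠ 0 := by
    apply functional_sep
    intro p q hpq
    apply h
    refine ⟨q, 1, p, ?_, ?_⟩
    · simp
    · rw [hpq]; push_cast; ring
  obtain ⟨ψ, hψ1, hψx, hψy⟩ : ∃ φ : ℂ →ₗ[ℚ] ℚ, φ 1 = 0 ∧ φ (xx z) = 0 ∧ φ (yy z) ≠ 0 := by
    apply functional_sep
    intro p q hpq
    apply h
    refine ⟨1, q, -p, ?_, ?_⟩
    · simp
    · rw [hpq]; push_cast; ring
  have hM := map_mem_mtLie κ z φ₀
  have hE := map_mem_mtLie κ z φ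
  have hF := map_mem_mtLie κ z ψ
  rw [map_hodgeOperator, h0] at hM
  rw [map_hodgeOperator, hφ1, hφy] at hE
  rw [map_hodgeOperator, hψ1, hψx] at hF
  have hG := bracket_mem_mtLie hF hE
  set a := φ (xx z) with ha
  set b := ψ (yy z) with hb
  have hG' : (!![0, 0, 0; 0, 0, 0; ψ (ww κ z), b, 2 * 0] : Matrix (Fin 3) (Fin 3) ℚ) *
      !![0, 0, 0; a, 0, 0; φ (ww κ z), 0, 2 * 0] -
      !![0, 0, 0; a, 0, 0; φ (ww κ z), 0, 2 * 0] *
      !![0, 0, 0; 0, 0, 0; ψ (ww κ z), b, 2 * 0] =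
      !![0, 0, 0; 0, 0, 0; b * a, 0, 0] := by
    ext i j
    fin_cases i <;> fin_cases j <;> simp
  rw [hG'] at hG
  have hli : LinearIndependent ℚ (![⟨_, hM⟩, ⟨_, hE⟩, ⟨_, hF⟩, ⟨_, hG⟩] : Fin 4 → mtLie κ z) := by
    apply LinearIndependent.of_comp (mtLie κ z).subtype
    rw [Fintype.linearIndependent_iff]
    intro g hg
    have e11 := congrFun (congrFun hg 1) 1
    have e10 := congrFun (congrFun hg 1) 0
    have e21 := congrFun (congrFun hg 2) 1
    have e20 := congrFun (congrFun hg 2) 0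
    simp [Fin.sum_univ_four, Matrix.sum_apply] at e11 e10 e21 e20
    have g0 : g 0 = 0 := e11
    rw [g0] at e10 e21 e20
    have g1 : g 1 = 0 := by
      have : g 1 * a = 0 := by linarith
      exact (mul_eq_zero.1 this).resolve_right hφx
    have g2 : g 2 = 0 := by
      have : g 2 * b = 0 := by linarith
      exact (mul_eq_zero.1 this).resolve_right hψy
    rw [g1, g2] at e20
    have g3 : g 3 = 0 := by
      have : g 3 * (b * a) = 0 := by linarith
      exact (mul_eq_zero.1 this).resolve_right (mul_ne_zero hψy hφx)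
    intro i
    fin_cases i
    · exact g0
    · exact g1
    · exact g2
    · exact g3
  have := hli.fintype_card_le_finrank
  simpa [mtDim] using this

lemma mtDim_lt_four_iff {z : ℂ} (κ : ℂ) : mtDim κ z < 4 ↔ RatRel z := by
  constructor
  · intro h
    by_contra h2
    rw [mtDim_eq_four κ h2] at h
    exact lt_irrefl _ h
  · intro h
    have := mtDim_le_three κ h
    omega

lemma omega_eq : omega = ⟨1 / 2, Real.sqrt 3 / 2⟩ := by
  apply Complex.ext
  · rw [omega, Complex.exp_ofReal_mul_I_re, Real.cos_pi_div_three]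
  · rw [omega, Complex.exp_ofReal_mul_I_im, Real.sin_pi_div_three]

lemma conj_omega_eq : conj omega = ⟨1 / 2, - (Real.sqrt 3 / 2)⟩ := by
  rw [omega_eq]
  apply Complex.ext <;> simp

lemma one_sub_omega : 1 - omega = conj omega := by
  rw [conj_omega_eq, omega_eq]
  apply Complex.ext <;> simp <;> norm_num

lemma one_sub_conj_omega : 1 - conj omega = omega := by
  rw [← one_sub_omega]; ring

lemma conj_omega_exp : conj omega = Complex.exp (((-(Real.pi / 3) : ℝ) : ℂ) * I) := by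
  rw [omega, ← Complex.exp_conj, map_mul, Complex.conj_ofReal, Complex.conj_I, Complex.ofReal_neg]
  congr 1
  ring

lemma log_omega : Complex.log omega = ((Real.pi / 3 : ℝ) : ℂ) * I := by
  rw [omega, Complex.log_exp]
  · simp
    linarith [Real.pi_pos]
  · simp
    linarith [Real.pi_pos]

lemma log_conj_omega : Complex.log (conj omega) = ((-(Real.pi / 3) : ℝ) : ℂ) * I := by
  rw [conj_omega_exp, Complex.log_exp]
  · simp
    linarith [Real.pi_pos]
  · simp
    linarith [Real.pi_pos]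

lemma xx_omega : xx omega = ((1 / 6 : ℚ) : ℂ) := by
  rw [xx, one_sub_omega, log_conj_omega]
  have hpi : (Real.pi : ℂ) ≠ 0 := by exact_mod_cast Real.pi_ne_zero
  push_cast
  field_simp [I_ne_zero]
  norm_num

lemma yy_omega : yy omega = ((1 / 6 : ℚ) : ℂ) := by
  rw [yy, log_omega]
  have hpi : (Real.pi : ℂ) ≠ 0 := by exact_mod_cast Real.pi_ne_zero
  push_cast
  field_simp [I_ne_zero]
  norm_num

lemma xx_conj_omega : xx (conj omega) = ((-1 / 6 : ℚ) : ℂ) := by
  rw [xx, one_sub_conj_omega, log_omega]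
  have hpi : (Real.pi : ℂ) ≠ 0 := by exact_mod_cast Real.pi_ne_zero
  push_cast
  field_simp [I_ne_zero]
  norm_num

lemma yy_conj_omega : yy (conj omega) = ((-1 / 6 : ℚ) : ℂ) := by
  rw [yy, log_conj_omega]
  have hpi : (Real.pi : ℂ) ≠ 0 := by exact_mod_cast Real.pi_ne_zero
  push_cast
  field_simp [I_ne_zero]
  norm_num

lemma eq_omega_of_rational {z : ℂ} (h0 : z ≠ 0) (h1 : z ≠ 1) (hx : ∃ p : ℚ, xx z = p)
    (hy : ∃ r : ℚ, yy z = r) : z = omega ∨ z = conj omega := by
  obtain ⟨p, hp⟩ := hx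
  obtain ⟨r, hr⟩ := hy
  have hpi := Real.pi_pos
  have i1 : (xx z).im = 0 := by rw [hp]; simp
  have i2 : (yy z).im = 0 := by rw [hr]; simp
  rw [xx_im] at i1
  rw [yy_im] at i2
  have n1 : Real.log ‖1 - z‖ = 0 := by
    have h2 : 2 * Real.pi ≠ 0 := by positivity
    exact (div_eq_zero_iff.1 i1).resolve_right h2
  have n2 : Real.log ‖z‖ = 0 := by
    have h2 : 2 * Real.pi ≠ 0 := by positivity
    have := (div_eq_zero_iff.1 i2).resolve_right h2
    linarith
  have p1 : 0 < ‖1 - z‖ := norm_pos_iff.2 (sub_ne_zero.2 h1.symm)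
  have p2 : 0 < ‖z‖ := norm_pos_iff.2 h0
  have m1 : ‖1 - z‖ = 1 := Real.eq_one_of_pos_of_log_eq_zero p1 n1
  have m2 : ‖z‖ = 1 := Real.eq_one_of_pos_of_log_eq_zero p2 n2
  have q1 : (1 - z.re) * (1 - z.re) + z.im * z.im = 1 := by
    have := Complex.normSq_eq_norm_sq (1 - z)
    rw [m1, Complex.normSq_apply] at this
    simp at this
    linarith
  have q2 : z.re * z.re + z.im * z.im = 1 := by
    have := Complex.normSq_eq_norm_sq z
    rw [m2, Complex.normSq_apply] at this
    linarith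
  have hre : z.re = 1 / 2 := by linarith
  have him : z.im ^ 2 = (Real.sqrt 3 / 2) ^ 2 := by
    rw [div_pow, Real.sq_sqrt (by norm_num)]
    rw [hre] at q2
    linarith
  rcases sq_eq_sq_iff_eq_or_eq_neg.1 him with h | h
  · left
    rw [omega_eq]
    exact Complex.ext hre h
  · right
    rw [conj_omega_eq]
    exact Complex.ext hre h

lemma omega_ne_zero : omega ≠ 0 := Complex.exp_ne_zero _

lemma omega_ne_one : omega ≠ 1 := by
  intro h
  have := congrArg Complex.re h
  rw [omega_eq] at this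
  norm_num at this

lemma conj_omega_ne_zero : conj omega ≠ 0 := by
  rw [conj_omega_exp]; exact Complex.exp_ne_zero _

lemma conj_omega_ne_one : conj omega ≠ 1 := by
  intro h
  have := congrArg Complex.re h
  rw [conj_omega_eq] at this
  norm_num at this

end Pool.Agent.LibZP33
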