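import Mathlib
import Pool.Agent.LibZP33.DilogLower

open Complex Set
open scoped ComplexConjugate

namespace Pool.Agent.LibZP33

lemma isAlgebraic_of_multDep {z : ℂ} (h0 : z ≠ 0) (h1 : z ≠ 1) (h : MultDep z) :
    IsAlgebraic ℚ z := by
  obtain ⟨a, b, hab, h⟩ := h
  have h2 : 1 - z ≠ 0 := sub_ne_zero.2 h1.symm
  set P : Polynomial ℚ := Polynomial.X ^ a.toNat * (1 - Polynomial.X) ^ b.toNat -
    Polynomial.X ^ (-a).toNat * (1 - Polynomial.X) ^ (-b).toNat with hP
  refine ⟨P, ?_, ?_⟩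
  · intro hP0
    by_cases ha : a = 0
    · have hb : b ≠ 0 := fun hb => hab (by rw [ha, hb])
      have e := congrArg (Polynomial.eval 1) hP0
      rcases lt_or_gt_of_ne hb with hb | hb
      · have e1 : b.toNat = 0 := Int.toNat_eq_zero.2 hb.le
        have e2 : (-b).toNat ≠ 0 := by omega
        simp [hP, ha, e1, e2] at e
      · have e1 : (-b).toNat = 0 := by omega
        have e2 : b.toNat ≠ 0 := by omega
        simp [hP, ha, e1, e2] at e
    · have e := congrArg (Polynomial.eval 0) hP0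
      rcases lt_or_gt_of_ne ha with ha | ha
      · have e1 : a.toNat = 0 := Int.toNat_eq_zero.2 ha.le
        have e2 : (-a).toNat ≠ 0 := by omega
        simp [hP, e1, e2] at e
      · have e1 : (-a).toNat = 0 := by omega
        have e2 : a.toNat ≠ 0 := by omega
        simp [hP, e1, e2] at e
  · have ea : z ^ a = z ^ a.toNat / z ^ (-a).toNat := by
      rw [← zpow_natCast, ← zpow_natCast, ← zpow_sub₀ h0]
      congr 1
      omega
    have eb : (1 - z) ^ b = (1 - z) ^ b.toNat / (1 - z) ^ (-b).toNat := by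
      rw [← zpow_natCast, ← zpow_natCast, ← zpow_sub₀ h2]
      congr 1
      omega
    rw [ea, eb] at h
    have h3 : z ^ (-a).toNat ≠ 0 := pow_ne_zero _ h0
    have h4 : (1 - z) ^ (-b).toNat ≠ 0 := pow_ne_zero _ h2
    rw [div_mul_div_comm, div_eq_one_iff_eq (mul_ne_zero h3 h4)] at h
    simp [hP, h]

lemma not_multDep_three : ¬ MultDep 3 := by
  rintro ⟨a, b, hab, h⟩
  have h1 : (3:ℂ) ^ a * (-2) ^ b = 1 := by
    rw [← h]; norm_num
  have h2 : ‖(3:ℂ) ^ a * (-2) ^ b‖ = 1 := by rw [h1]; simp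
  rw [norm_mul, norm_zpow, norm_zpow] at h2
  have h3 : ((3:ℚ) ^ a * 2 ^ b) = 1 := by
    have : (((3:ℚ) ^ a * 2 ^ b : ℚ) : ℝ) = 1 := by
      push_cast
      rw [← h2]
      simp
    exact_mod_cast this
  have v3 := congrArg (padicValRat 3) h3
  have v2 := congrArg (padicValRat 2) h3
  have h30 : (3:ℚ) ^ a ≠ 0 := zpow_ne_zero _ (by norm_num)
  have h20 : (2:ℚ) ^ b ≠ 0 := zpow_ne_zero _ (by norm_num)
  have : Fact (Nat.Prime 3) := ⟨Nat.prime_three⟩
  rw [padicValRat.mul h30 h20, padicValRat.zpow, padicValRat.zpow] at v3 v2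
  have a1 : padicValRat 3 3 = 1 := by
    have := padicValRat.self (p := 3) (by norm_num)
    exact_mod_cast this
  have a2 : padicValRat 3 2 = 0 := by
    have : padicValRat 3 ((2:ℕ):ℚ) = ((padicValNat 3 2 : ℕ) : ℤ) := padicValRat.of_nat
    rw [padicValNat.eq_zero_of_not_dvd (by norm_num)] at this
    exact_mod_cast this
  have a3 : padicValRat 2 2 = 1 := by
    have := padicValRat.self (p := 2) (by norm_num)
    exact_mod_cast this
  have a4 : padicValRat 2 3 = 0 := by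
    have : padicValRat 2 ((3:ℕ):ℚ) = ((padicValNat 2 3 : ℕ) : ℤ) := padicValRat.of_nat
    rw [padicValNat.eq_zero_of_not_dvd (by norm_num)] at this
    exact_mod_cast this
  rw [a1, a2] at v3
  rw [a3, a4] at v2
  simp at v2 v3
  exact hab (by rw [v2, v3])

lemma genericMtDim_eq (κ : ℂ) : genericMtDim κ = 4 := by
  apply le_antisymm
  · have : Nonempty {z : ℂ // z ≠ 0 ∧ z ≠ 1} := ⟨⟨2, by norm_num, by norm_num⟩⟩
    exact ciSup_le fun z => mtDim_le_four κ z
  · have h3 : mtDim κ 3 = 4 := by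
      apply mtDim_eq_four
      rw [← multDep_iff (by norm_num) (by norm_num)]
      exact not_multDep_three
    have hb : BddAbove (range fun z : {z : ℂ // z ≠ 0 ∧ z ≠ 1} => mtDim κ z) := by
      refine ⟨4, ?_⟩
      rintro _ ⟨z, rfl⟩
      exact mtDim_le_four κ z
    have := le_ciSup hb ⟨3, by norm_num, by norm_num⟩
    rw [h3] at this
    exact this

lemma mem_hodgeLocus_iff {κ z : ℂ} : z ∈ hodgeLocus κ ↔ z ≠ 0 ∧ z ≠ 1 ∧ MultDep z := by
  unfold hodgeLocus
  rw [Set.mem_ofPred_eq, genericMtDim_eq, mtDim_lt_four_iff]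
  constructor
  · rintro ⟨h0, h1, h⟩
    exact ⟨h0, h1, (multDep_iff h0 h1).2 h⟩
  · rintro ⟨h0, h1, h⟩
    exact ⟨h0, h1, (multDep_iff h0 h1).1 h⟩

lemma mem_atypicalLocus_iff {κ z : ℂ} :
    z ∈ atypicalLocus κ ↔ z ≠ 0 ∧ z ≠ 1 ∧ mtDim κ z ≤ 2 := by
  unfold atypicalLocus hodgeLocus
  rw [Set.mem_ofPred_eq, Set.mem_ofPred_eq, genericMtDim_eq]
  constructor
  · rintro ⟨⟨h0, h1, h2⟩, h3⟩
    exact ⟨h0, h1, by omega⟩
  · rintro ⟨h0, h1, h2⟩
    exact ⟨⟨h0, h1, by omega⟩, by omega⟩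

lemma omega_mem (κ : ℂ) : omega ∈ atypicalLocus κ :=
  mem_atypicalLocus_iff.2 ⟨omega_ne_zero, omega_ne_one, mtDim_le_two κ xx_omega yy_omega⟩

lemma conj_omega_mem (κ : ℂ) : conj omega ∈ atypicalLocus κ :=
  mem_atypicalLocus_iff.2 ⟨conj_omega_ne_zero, conj_omega_ne_one,
    mtDim_le_two κ xx_conj_omega yy_conj_omega⟩

lemma relations_of_mem {κ z : ℂ} (h : z ∈ atypicalLocus κ) (hw : z ≠ omega)
    (hw' : z ≠ conj omega) : MultDep z ∧
    ∃ p q r α β : ℚ, (α, β) ≠ (0, 0) ∧ ww κ z = q + p * yy z - r * xx z ∧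
      (β : ℂ) * (xx z - p) = α * (yy z - r) := by
  obtain ⟨h0, h1, h2⟩ := mem_atypicalLocus_iff.1 h
  refine ⟨(mem_hodgeLocus_iff.1 h.1).2.2, relations_of_mtDim_le h2 ?_⟩
  rintro ⟨h3, h4⟩
  rcases eq_omega_of_rational h0 h1 h3 h4 with h5 | h5
  · exact hw h5
  · exact hw' h5

lemma blochWigner_of_mem {κ z : ℂ} (h : z ∈ atypicalLocus κ) (hw : z ≠ omega)
    (hw' : z ≠ conj omega) : blochWigner z = - κ.im := by
  obtain ⟨_, p, q, r, α, β, h1, h2, h3⟩ := relations_of_mem h hw hw'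
  exact blochWigner_eq_of_relations h1 h2 h3

lemma atypicalLocus_eq_iff (κ : ℂ) : atypicalLocus κ = {omega, conj omega} ↔
    ∀ z ∈ atypicalLocus κ, z = omega ∨ z = conj omega := by
  constructor
  · intro h z hz
    rw [h] at hz
    simpa using hz
  · intro h
    apply Set.Subset.antisymm
    · intro z hz
      simpa using h z hz
    · intro z hz
      rcases (by simpa using hz : z = omega ∨ z = conj omega) with rfl | rfl
      · exact omega_mem κ
      · exact conj_omega_mem κ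

lemma atypicalLocus_eq_of_large {κ : ℂ} (h : blochWigner omega ≤ |κ.im|) :
    atypicalLocus κ = {omega, conj omega} := by
  rw [atypicalLocus_eq_iff]
  intro z hz
  by_contra hcon
  rw [not_or] at hcon
  have h1 := blochWigner_of_mem hz hcon.1 hcon.2
  have h2 := abs_blochWigner_lt (mem_atypicalLocus_iff.1 hz).2.1 hcon.1 hcon.2
  rw [h1, abs_neg] at h2
  linarith

lemma countable_exceptional : {κ : ℂ | atypicalLocus κ ≠ {omega, conj omega}}.Countable := by
  have hc : Countable {x : ℂ // IsAlgebraic ℚ x} := (Algebraic.countable ℚ ℂ).to_subtype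
  let F : {x : ℂ // IsAlgebraic ℚ x} × ℚ × ℚ × ℚ → ℂ := fun t =>
    ((t.2.1 + t.2.2.1 * yy t.1 - t.2.2.2 * xx t.1) * (2 * Real.pi * I) ^ 2 -
      Complex.log t.1 * Complex.log (1 - t.1)) / 2 - dilog t.1
  apply (countable_range F).mono
  intro κ hκ
  rw [Set.mem_ofPred_eq, Ne, atypicalLocus_eq_iff] at hκ
  push Not at hκ
  obtain ⟨z, hz, hw, hw'⟩ := hκ
  obtain ⟨hd, p, q, r, α, β, h1, h2, h3⟩ := relations_of_mem hz hw hw'
  obtain ⟨h00, h11, _⟩ := mem_atypicalLocus_iff.1 hz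
  refine ⟨(⟨z, isAlgebraic_of_multDep h00 h11 hd⟩, q, p, r), ?_⟩
  simp only [F]
  rw [← h2, ww]
  have := two_pi_I_ne
  field_simp
  ring

end Pool.Agent.LibZP33
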