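import Mathlib

/-!
# The polylogarithm variations of mixed Hodge structure on `ℂ ∖ {0, 1}`

All definitions used by the statements on the Hodge locus and the atypical locus of the `n`-th
polylogarithm variation.
-/

open Complex

namespace Pool.Agent.LibZP33.Poly

/-- The polylogarithms (principal branches): `Li₁(z) = -log(1 - z)` and
`Li_{k+1}(z) = ∫₀¹ Li_k(t z) dt / t`. (`Li₀` is not used.) -/
noncomputable def polylog : ℕ → ℂ → ℂ
  | 0, z => z / (1 - z)
  | 1, z => -Complex.log (1 - z)
  | (k + 2), z => ∫ t in (0:ℝ)..1, polylog (k + 1) (t * z) / t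

/-- Period matrix at `z` of the `n`-th polylogarithm variation, with rows and columns indexed by
`0, 1, …, n` (`0` is `Sum.inl ()` and `j + 1` is `Sum.inr j`). Its columns are the vectors of a
flat rational basis (the vectors `(n-k)!` times column `k` span a local system of lattices),
written in the basis `e₀, …, e_n` for which `e_k` spans the part of type `(-k,-k)`: column `0` is
`(1, Li₁(z), …, Li_n(z))` and column `k ≥ 1` has entry `(2πi)^k log(z)^(j-k) / (j-k)!` in row
`j ≥ k` and zeros above. -/
noncomputable def periodMatrix (n : ℕ) (z : ℂ) : Matrix (Unit ⊕ Fin n) (Unit ⊕ Fin n) ℂ :=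
  Matrix.fromBlocks 1 0 (Matrix.of fun j _ => polylog (j + 1) z)
    (Matrix.of fun j k => if k ≤ j then
      (2 * Real.pi * I) ^ ((k : ℕ) + 1) * Complex.log z ^ ((j : ℕ) - k) / ((j : ℕ) - k).factorial
      else 0)

/-- The index `k` of the part of type `(-k,-k)`, as a complex number. -/
def weightIndex (n : ℕ) : Unit ⊕ Fin n → ℂ := Sum.elim (fun _ => 0) (fun j => (j : ℕ) + 1)

/-- The derivative of the Hodge cocharacter, in the flat rational basis: the operator acting as
multiplication by `k` on the part of type `(-k,-k)`. -/
noncomputable def hodgeOperator (n : ℕ) (z : ℂ) : Matrix (Unit ⊕ Fin n) (Unit ⊕ Fin n) ℂ :=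
  (periodMatrix n z)⁻¹ * Matrix.diagonal (weightIndex n) * periodMatrix n z

/-- The Lie algebra of the Mumford-Tate group of the fibre at `z`: the smallest rational space of
matrices that is closed under the commutator and whose complexification contains the
derivative of the Hodge cocharacter. -/
noncomputable def mtLie (n : ℕ) (z : ℂ) : Submodule ℚ (Matrix (Unit ⊕ Fin n) (Unit ⊕ Fin n) ℚ) :=
  sInf {L | (∀ A ∈ L, ∀ B ∈ L, A * B - B * A ∈ L) ∧ hodgeOperator n z ∈
    Submodule.span ℂ ((fun M : Matrix (Unit ⊕ Fin n) (Unit ⊕ Fin n) ℚ =>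
      M.map (algebraMap ℚ ℂ)) '' (L : Set _))}

/-- The dimension of the Mumford-Tate group of the fibre at `z`. -/
noncomputable def mtDim (n : ℕ) (z : ℂ) : ℕ := Module.finrank ℚ (mtLie n z)

/-- The dimension of the generic Mumford-Tate group of the variation over `ℂ ∖ {0, 1}`. -/
noncomputable def genericMtDim (n : ℕ) : ℕ := ⨆ z : {z : ℂ // z ≠ 0 ∧ z ≠ 1}, mtDim n z

/-- The Hodge locus of the variation over `ℂ ∖ {0, 1}`: the points whose Mumford-Tate group is
smaller than the generic one. -/
def hodgeLocus (n : ℕ) : Set ℂ := {z | z ≠ 0 ∧ z ≠ 1 ∧ mtDim n z < genericMtDim n}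

/-- The atypical locus. The Mumford-Tate domain at `z` is an orbit of the unipotent radical, so it
has dimension `mtDim n z - 1`. A special point `z` is typical when the codimension of its domain in
the generic one is `1`, the codimension of the point in the image of the period map, and atypical
otherwise. -/
def atypicalLocus (n : ℕ) : Set ℂ :=
  {z | z ∈ hodgeLocus n ∧ (genericMtDim n - 1) - (mtDim n z - 1) ≠ 1}

end Pool.Agent.LibZP33.Poly
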