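import Mathlib
import Pool.Agent.LibZP33.PolylogDefs

open Complex Matrix

namespace Pool.Agent.LibZP33.Poly

/-- the block matrix with first row zero, first column `c`, remaining block `T`. -/
def blk {n : ℕ} {K : Type*} [CommRing K] (c : Fin n → K) (T : Matrix (Fin n) (Fin n) K) :
    Matrix (Unit ⊕ Fin n) (Unit ⊕ Fin n) K :=
  Matrix.fromBlocks 0 0 (Matrix.of fun j _ => c j) T

/-- the shift (subdiagonal) matrix. -/
def sh (n : ℕ) (K : Type*) [CommRing K] : Matrix (Fin n) (Fin n) K :=
  Matrix.of fun j k => if (j : ℕ) = k + 1 then 1 else 0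

/-- the diagonal matrix `(1, 2, …, n)`. -/
def dd (n : ℕ) (K : Type*) [CommRing K] : Matrix (Fin n) (Fin n) K :=
  Matrix.diagonal (fun j => ((j : ℕ) : K) + 1)

variable {n : ℕ} {K : Type*} [CommRing K]

lemma blk_mul (c c' : Fin n → K) (T T' : Matrix (Fin n) (Fin n) K) :
    blk c T * blk c' T' = blk (T *ᵥ c') (T * T') := by
  unfold blk
  rw [Matrix.fromBlocks_multiply]
  congr 1
  · simp
  · simp
  · ext i j
    simp [Matrix.mul_apply, Matrix.mulVec, dotProduct]
  · simp

lemma blk_add (c c' : Fin n → K) (T T' : Matrix (Fin n) (Fin n) K) :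
    blk c T + blk c' T' = blk (c + c') (T + T') := by
  unfold blk
  rw [Matrix.fromBlocks_add]
  congr 1 <;> simp

lemma blk_sub (c c' : Fin n → K) (T T' : Matrix (Fin n) (Fin n) K) :
    blk c T - blk c' T' = blk (c - c') (T - T') := by
  unfold blk
  ext i j
  rcases i with i | i <;> rcases j with j | j <;> simp

lemma blk_smul (a : K) (c : Fin n → K) (T : Matrix (Fin n) (Fin n) K) :
    a • blk c T = blk (a • c) (a • T) := by
  unfold blk
  rw [Matrix.fromBlocks_smul]
  congr 1 <;> simp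

lemma blk_inj {c c' : Fin n → K} {T T' : Matrix (Fin n) (Fin n) K}
    (h : blk c T = blk c' T') : c = c' ∧ T = T' := by
  unfold blk at h
  rw [Matrix.fromBlocks_inj] at h
  refine ⟨?_, h.2.2.2⟩
  ext j
  have := congrFun (congrFun h.2.2.1 j) ()
  simpa using this

lemma sh_mulVec_zero (c : Fin (n + 1) → K) : (sh (n + 1) K *ᵥ c) 0 = 0 := by
  simp [sh, Matrix.mulVec, dotProduct]

lemma sh_mulVec_succ (c : Fin (n + 1) → K) (i : Fin n) :
    (sh (n + 1) K *ᵥ c) i.succ = c i.castSucc := by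
  rw [Matrix.mulVec, dotProduct, Finset.sum_eq_single i.castSucc]
  · simp [sh]
  · intro b _ hb
    have : ¬ ((i.succ : Fin (n+1)) : ℕ) = (b : ℕ) + 1 := by
      intro h
      apply hb
      ext
      simp at h ⊢
      omega
    simp only [sh, Matrix.of_apply, if_neg this, zero_mul]
  · simp

lemma dd_mulVec (c : Fin n → K) (i : Fin n) : (dd n K *ᵥ c) i = (((i : ℕ) : K) + 1) * c i := by
  rw [dd, Matrix.mulVec_diagonal]

lemma dd_sh : dd n K * sh n K - sh n K * dd n K = sh n K := by
  ext i j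
  rw [Matrix.sub_apply, dd, Matrix.diagonal_mul, Matrix.mul_diagonal]
  simp only [sh, Matrix.of_apply]
  split_ifs with h
  · rw [h]; push_cast; ring
  · ring

lemma bracket_blk (d a d' a' : K) (c c' : Fin n → K) :
    blk c (d • dd n K + a • sh n K) * blk c' (d' • dd n K + a' • sh n K) -
      blk c' (d' • dd n K + a' • sh n K) * blk c (d • dd n K + a • sh n K) =
    blk (d • (dd n K *ᵥ c') + a • (sh n K *ᵥ c') - (d' • (dd n K *ᵥ c) + a' • (sh n K *ᵥ c)))
      ((d * a' - d' * a) • sh n K) := by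
  rw [blk_mul, blk_mul, blk_sub]
  congr 1
  · simp only [Matrix.add_mulVec, Matrix.smul_mulVec]
  · have h := dd_sh (n := n) (K := K)
    have h2 : dd n K * sh n K = sh n K + sh n K * dd n K := by
      rw [← sub_eq_iff_eq_add]; exact h
    simp only [Matrix.add_mul, Matrix.mul_add, Matrix.smul_mul, Matrix.mul_smul, smul_smul]
    rw [h2]
    module


/-- lower right block of the period matrix. -/
noncomputable def qmat (n : ℕ) (z : ℂ) : Matrix (Fin n) (Fin n) ℂ :=
  Matrix.of fun j k => if k ≤ j then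
      (2 * Real.pi * I) ^ ((k : ℕ) + 1) * Complex.log z ^ ((j : ℕ) - k) / ((j : ℕ) - k).factorial
      else 0

/-- first column of the period matrix. -/
noncomputable def lvec (n : ℕ) (z : ℂ) : Fin n → ℂ := fun j => polylog (j + 1) z

/-- `y(z) = log z / (2πi)`. -/
noncomputable def yy (z : ℂ) : ℂ := Complex.log z / (2 * Real.pi * I)

lemma two_pi_I_ne : (2 * Real.pi * I : ℂ) ≠ 0 := Complex.two_pi_I_ne_zero

lemma periodMatrix_eq (n : ℕ) (z : ℂ) : periodMatrix n z =
    Matrix.fromBlocks 1 0 (Matrix.of fun j _ => lvec n z j) (qmat n z) := rfl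

lemma qmat_det (n : ℕ) (z : ℂ) : IsUnit (qmat n z).det := by
  have h : (qmat n z).BlockTriangular OrderDual.toDual := by
    intro i j hij
    have : i < j := hij
    simp only [qmat, Matrix.of_apply]
    rw [if_neg (not_le.2 this)]
  rw [Matrix.det_of_isLowerTriangular _ h, isUnit_iff_ne_zero, Finset.prod_ne_zero_iff]
  intro i _
  simp [qmat, Complex.two_pi_I_ne_zero, I_ne_zero, Real.pi_ne_zero]

lemma qmat_mul (n : ℕ) (z : ℂ) :
    qmat n z * (dd n ℂ + yy z • sh n ℂ) = dd n ℂ * qmat n z := by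
  ext j k
  rw [Matrix.mul_add, Matrix.add_apply, dd, Matrix.mul_diagonal, Matrix.diagonal_mul]
  have h2 : (qmat n z * (yy z • sh n ℂ)) j k =
      if (k : ℕ) + 1 ≤ j then yy z * ((2 * Real.pi * I) ^ ((k : ℕ) + 2) *
        Complex.log z ^ ((j : ℕ) - (k + 1)) / ((j : ℕ) - (k + 1)).factorial) else 0 := by
    rw [Matrix.mul_apply]
    by_cases hk : (k : ℕ) + 1 < n
    · rw [Finset.sum_eq_single ⟨(k : ℕ) + 1, hk⟩]
      · simp only [qmat, sh, Matrix.smul_apply, Matrix.of_apply, smul_eq_mul, if_true, mul_one]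
        by_cases hj : (k : ℕ) + 1 ≤ j
        · have : (⟨(k : ℕ) + 1, hk⟩ : Fin n) ≤ j := hj
          rw [if_pos hj, if_pos this]
          ring
        · have : ¬ (⟨(k : ℕ) + 1, hk⟩ : Fin n) ≤ j := hj
          rw [if_neg hj, if_neg this, zero_mul]
      · intro b _ hb
        have : ¬ (b : ℕ) = (k : ℕ) + 1 := fun h => hb (Fin.ext h)
        simp [sh, this]
      · simp
    · have hj : ¬ (k : ℕ) + 1 ≤ j := by
        intro h
        have := j.2
        omega
      rw [if_neg hj]
      apply Finset.sum_eq_zero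
      intro b _
      have : ¬ (b : ℕ) = (k : ℕ) + 1 := by
        intro h
        have := b.2
        omega
      simp [sh, this]
  rw [h2]
  have hpi := two_pi_I_ne
  rcases lt_trichotomy (k : ℕ) (j : ℕ) with h | h | h
  · have h3 : (k : ℕ) + 1 ≤ j := h
    have h4 : k ≤ j := h.le
    obtain ⟨m, hm⟩ : ∃ m, (j : ℕ) = k + 1 + m := ⟨j - (k + 1), by omega⟩
    rw [if_pos h3]
    simp only [qmat, Matrix.of_apply]
    rw [if_pos h4]
    have e1 : (j : ℕ) - k = m + 1 := by omega
    have e2 : (j : ℕ) - (k + 1) = m := by omega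
    rw [e1, e2, Nat.factorial_succ]
    have hf : ((m.factorial : ℕ) : ℂ) ≠ 0 := by exact_mod_cast m.factorial_ne_zero
    have hm1 : ((m : ℂ) + 1) ≠ 0 := by exact_mod_cast m.succ_ne_zero
    have hj' : ((j : ℕ) : ℂ) = k + 1 + m := by rw [hm]; push_cast; ring
    rw [hj']
    unfold yy
    push_cast
    field_simp
    ring
  · have h3 : ¬ (k : ℕ) + 1 ≤ j := by omega
    have h4 : k = j := Fin.ext h
    rw [if_neg h3, h4]
    ring
  · have h3 : ¬ (k : ℕ) + 1 ≤ j := by omega
    have h4 : ¬ k ≤ j := not_le.2 h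
    rw [if_neg h3]
    simp only [qmat, Matrix.of_apply]
    rw [if_neg h4]
    ring

/-- first column of the derivative of the Hodge cocharacter. -/
noncomputable def wvec (n : ℕ) (z : ℂ) : Fin n → ℂ :=
  (qmat n z)⁻¹ *ᵥ (dd n ℂ *ᵥ lvec n z)

lemma qmat_wvec (n : ℕ) (z : ℂ) : qmat n z *ᵥ wvec n z = dd n ℂ *ᵥ lvec n z := by
  rw [wvec, Matrix.mulVec_mulVec, Matrix.mul_nonsing_inv _ (qmat_det n z), Matrix.one_mulVec]

lemma hodgeOperator_eq (n : ℕ) (z : ℂ) :
    hodgeOperator n z = blk (wvec n z) (dd n ℂ + yy z • sh n ℂ) := by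
  have hdet : IsUnit (periodMatrix n z).det := by
    rw [periodMatrix_eq, Matrix.det_fromBlocks_zero₁₂]
    simpa using qmat_det n z
  have hD : Matrix.diagonal (weightIndex n) = blk 0 (dd n ℂ) := by
    ext i j
    rcases i with i | i <;> rcases j with j | j <;>
      simp [blk, dd, weightIndex, Matrix.diagonal]
  have hmul : Matrix.diagonal (weightIndex n) * periodMatrix n z =
      periodMatrix n z * blk (wvec n z) (dd n ℂ + yy z • sh n ℂ) := by
    rw [hD, periodMatrix_eq, blk, blk, Matrix.fromBlocks_multiply, Matrix.fromBlocks_multiply,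
      qmat_mul]
    congr 1
    · simp
    · simp
    · have h := qmat_wvec n z
      ext i j
      have h2 := congrFun h i
      simp only [Matrix.mulVec, dotProduct] at h2
      simp [Matrix.mul_apply]
      exact h2.symm
    · simp
  rw [hodgeOperator, Matrix.mul_assoc, hmul, ← Matrix.mul_assoc, Matrix.nonsing_inv_mul _ hdet,
    Matrix.one_mul]

end Pool.Agent.LibZP33.Poly
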