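import Mathlib
import Pool.Agent.LibZP33.PolylogMatrix

open Complex Matrix

namespace Pool.Agent.LibZP33.Poly

/-- rational components of a complex matrix lie in any rational subspace containing it. -/
lemma map_mem_of_mem_span {ι : Type*} {L : Submodule ℚ (Matrix ι ι ℚ)}
    {N : Matrix ι ι ℂ}
    (hN : N ∈ Submodule.span ℂ
      ((fun M : Matrix ι ι ℚ => M.map (algebraMap ℚ ℂ)) '' (L : Set _)))
    (φ : ℂ →ₗ[ℚ] ℚ) : N.map φ ∈ L := by
  have key : ∀ c : ℂ, (c • N).map φ ∈ L := by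
    induction hN using Submodule.span_induction with
    | mem x hx =>
      obtain ⟨A, hA, rfl⟩ := hx
      intro c
      have : (c • A.map (algebraMap ℚ ℂ)).map φ = φ c • A := by
        ext i j
        simp only [Matrix.map_apply, Matrix.smul_apply, smul_eq_mul]
        rw [mul_comm c, ← Algebra.smul_def, map_smul, smul_eq_mul, mul_comm]
      simp only [this]
      exact L.smul_mem _ hA
    | zero =>
      intro c
      have : (c • (0 : Matrix ι ι ℂ)).map φ = 0 := by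
        ext i j
        simp
      rw [this]
      exact L.zero_mem
    | add x y _ _ hx hy =>
      intro c
      have : (c • (x + y)).map φ = (c • x).map φ + (c • y).map φ := by
        ext i j
        simp
      rw [this]
      exact L.add_mem (hx c) (hy c)
    | smul a x _ hx =>
      intro c
      rw [smul_smul]
      exact hx _
  simpa using key 1

lemma map_mem_mtLie (n : ℕ) (z : ℂ) (φ : ℂ →ₗ[ℚ] ℚ) : (hodgeOperator n z).map φ ∈ mtLie n z := by
  rw [mtLie, Submodule.mem_sInf]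
  rintro L ⟨_, hL⟩
  exact map_mem_of_mem_span hL φ

lemma bracket_mem_mtLie {n : ℕ} {z : ℂ} {A B : Matrix (Unit ⊕ Fin n) (Unit ⊕ Fin n) ℚ}
    (hA : A ∈ mtLie n z) (hB : B ∈ mtLie n z) : A * B - B * A ∈ mtLie n z := by
  rw [mtLie, Submodule.mem_sInf] at *
  rintro L hL
  exact hL.1 A (hA L hL) B (hB L hL)

lemma mtLie_le {n : ℕ} {z : ℂ} {L : Submodule ℚ (Matrix (Unit ⊕ Fin n) (Unit ⊕ Fin n) ℚ)}
    (h1 : ∀ A ∈ L, ∀ B ∈ L, A * B - B * A ∈ L)
    (h2 : hodgeOperator n z ∈ Submodule.span ℂ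
      ((fun M : Matrix (Unit ⊕ Fin n) (Unit ⊕ Fin n) ℚ => M.map (algebraMap ℚ ℂ)) '' (L : Set _))) :
    mtLie n z ≤ L := sInf_le ⟨h1, h2⟩

lemma map_hodgeOperator (n : ℕ) (z : ℂ) (φ : ℂ →ₗ[ℚ] ℚ) : (hodgeOperator n z).map φ =
    blk (fun j => φ (wvec n z j)) (φ 1 • dd n ℚ + φ (yy z) • sh n ℚ) := by
  rw [hodgeOperator_eq]
  have hnat : ∀ k : ℕ, φ ((k : ℂ) + 1) = φ 1 * ((k : ℚ) + 1) := by
    intro k
    have : ((k : ℂ) + 1) = (((k : ℚ) + 1 : ℚ)) • (1 : ℂ) := by
      rw [Algebra.smul_def]; simp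
    rw [this, map_smul, smul_eq_mul, mul_comm]
  ext i j
  rcases i with i | i <;> rcases j with j | j
  · simp [blk]
  · simp [blk]
  · simp [blk]
  · simp only [blk, Matrix.map_apply, Matrix.fromBlocks_apply₂₂, Matrix.add_apply,
      Matrix.smul_apply, smul_eq_mul, dd, sh, Matrix.of_apply, map_add]
    congr 1
    · by_cases hij : i = j
      · subst hij
        rw [Matrix.diagonal_apply_eq, Matrix.diagonal_apply_eq, hnat]
      · rw [Matrix.diagonal_apply_ne _ hij, Matrix.diagonal_apply_ne _ hij]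
        simp
    · split_ifs <;> simp

/-- separating rational-linear functional. -/
lemma exists_functional {c : ℂ} (hc : ∀ p : ℚ, c ≠ p) : ∃ φ : ℂ →ₗ[ℚ] ℚ, φ 1 = 0 ∧ φ c ≠ 0 := by
  have h1 : c ∉ Submodule.span ℚ ({1} : Set ℂ) := by
    intro h
    rw [Submodule.mem_span_singleton] at h
    obtain ⟨a, ha⟩ := h
    apply hc a
    rw [← ha, Algebra.smul_def, mul_one]
    rfl
  obtain ⟨f, hf, hf'⟩ := Submodule.exists_dual_map_eq_bot_of_notMem (R := ℚ) h1 inferInstance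
  refine ⟨f, ?_, hf⟩
  have : f 1 ∈ (Submodule.span ℚ ({1} : Set ℂ)).map f :=
    Submodule.mem_map_of_mem (Submodule.mem_span_singleton_self 1)
  rw [hf'] at this
  simpa using this

lemma exists_functional_one : ∃ φ : ℂ →ₗ[ℚ] ℚ, φ 1 = 1 := by
  obtain ⟨f, hf⟩ : ∃ f : ℂ →ₗ[ℚ] ℚ, f 1 ≠ 0 := by
    by_contra h
    push Not at h
    exact one_ne_zero ((Module.forall_dual_apply_eq_zero_iff ℚ (1:ℂ)).1 h)
  refine ⟨(f 1)⁻¹ • f, ?_⟩
  simp [hf]

lemma eq_of_functionals {a b : ℂ} (h : ∀ φ : ℂ →ₗ[ℚ] ℚ, φ a = φ b) : a = b := by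
  rw [← sub_eq_zero]
  apply (Module.forall_dual_apply_eq_zero_iff ℚ (a - b)).1
  intro φ
  rw [map_sub, h φ, sub_self]

lemma functional_sep {c d : ℂ} (h : ∀ p q : ℚ, c ≠ p + q * d) :
    ∃ φ : ℂ →ₗ[ℚ] ℚ, φ 1 = 0 ∧ φ d = 0 ∧ φ c ≠ 0 := by
  have h1 : c ∉ Submodule.span ℚ ({1, d} : Set ℂ) := by
    intro h'
    rw [Submodule.mem_span_pair] at h'
    obtain ⟨a, b, hab⟩ := h'
    apply h a b
    rw [← hab, Algebra.smul_def, mul_one, Algebra.smul_def]
    rfl
  obtain ⟨f, hf, hf'⟩ := Submodule.exists_dual_map_eq_bot_of_notMem (R := ℚ) h1 inferInstance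
  have key : ∀ v ∈ ({1, d} : Set ℂ), f v = 0 := by
    intro v hv
    have : f v ∈ (Submodule.span ℚ ({1, d} : Set ℂ)).map f :=
      Submodule.mem_map_of_mem (Submodule.subset_span hv)
    rw [hf'] at this
    simpa using this
  exact ⟨f, key 1 (by simp), key d (by simp), hf⟩

/-- the linear map `c ↦ blk c 0`. -/
def blkLin (n : ℕ) : (Fin n → ℚ) →ₗ[ℚ] Matrix (Unit ⊕ Fin n) (Unit ⊕ Fin n) ℚ where
  toFun c := blk c 0
  map_add' c c' := by rw [blk_add, add_zero]
  map_smul' a c := by rw [RingHom.id_apply, blk_smul, smul_zero]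

/-- the part of the Lie algebra supported in the first column. -/
noncomputable def colPart (n : ℕ) (z : ℂ) : Submodule ℚ (Fin n → ℚ) :=
  (mtLie n z).comap (blkLin n)

lemma mem_colPart {n : ℕ} {z : ℂ} {c : Fin n → ℚ} : c ∈ colPart n z ↔ blk c 0 ∈ mtLie n z :=
  Iff.rfl

lemma colPart_of_bracket {n : ℕ} {z : ℂ} {q : Fin n → ℚ} {d r : ℚ}
    (hM : blk q (d • dd n ℚ + r • sh n ℚ) ∈ mtLie n z) {c : Fin n → ℚ} (hc : c ∈ colPart n z) :
    d • (dd n ℚ *ᵥ c) + r • (sh n ℚ *ᵥ c) ∈ colPart n z := by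
  rw [mem_colPart] at *
  have h0 : blk c (0 : Matrix (Fin n) (Fin n) ℚ) =
      blk c ((0 : ℚ) • dd n ℚ + (0 : ℚ) • sh n ℚ) := by simp
  have h := bracket_mem_mtLie hM (h0 ▸ hc)
  rw [bracket_blk] at h
  simpa using h

/-- a subspace stable under `diag(1, …, n)` contains the coordinate lines it meets. -/
lemma single_mem_of_stable {n : ℕ} {U : Submodule ℚ (Fin n → ℚ)}
    (hU : ∀ u ∈ U, dd n ℚ *ᵥ u ∈ U) {u : Fin n → ℚ} (hu : u ∈ U) {i : Fin n} (hi : u i ≠ 0) :
    Pi.single i 1 ∈ U := by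
  classical
  have key : ∀ p : Polynomial ℚ, (fun j : Fin n => p.eval (((j : ℕ) : ℚ) + 1) * u j) ∈ U := by
    intro p
    induction p using Polynomial.induction_on with
    | C a =>
      have := U.smul_mem a hu
      convert this using 1
      ext j
      simp
    | add p q hp hq =>
      have := U.add_mem hp hq
      convert this using 1
      ext j
      simp [add_mul]
    | monomial k a hk =>
      have := hU _ hk
      convert this using 1
      ext j
      rw [dd_mulVec]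
      simp only [Polynomial.eval_mul, Polynomial.eval_C, Polynomial.eval_pow, Polynomial.eval_X]
      ring
  have h1 := key (∏ j ∈ Finset.univ.erase i, (Polynomial.X - Polynomial.C (((j : ℕ) : ℚ) + 1)))
  have h2 : (fun j : Fin n => (∏ j ∈ Finset.univ.erase i,
      (Polynomial.X - Polynomial.C (((j : ℕ) : ℚ) + 1))).eval (((j : ℕ) : ℚ) + 1) * u j) =
      ((∏ j ∈ Finset.univ.erase i, ((((i : ℕ) : ℚ) + 1) - (((j : ℕ) : ℚ) + 1))) * u i) •
        (Pi.single i 1 : Fin n → ℚ) := by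
    ext j
    rw [Polynomial.eval_prod]
    by_cases hj : j = i
    · subst hj
      simp
    · have : ∏ k ∈ Finset.univ.erase i, Polynomial.eval (((j : ℕ) : ℚ) + 1)
          (Polynomial.X - Polynomial.C (((k : ℕ) : ℚ) + 1)) = 0 := by
        apply Finset.prod_eq_zero (Finset.mem_erase.2 ⟨hj, Finset.mem_univ j⟩)
        simp
      rw [this]
      simp [hj]
  rw [h2] at h1
  have h3 : (∏ j ∈ Finset.univ.erase i, ((((i : ℕ) : ℚ) + 1) - (((j : ℕ) : ℚ) + 1))) * u i ≠ 0 := by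
    apply mul_ne_zero _ hi
    rw [Finset.prod_ne_zero_iff]
    intro j hj
    have : j ≠ i := (Finset.mem_erase.1 hj).1
    intro h
    apply this
    have h4 : ((i : ℕ) : ℚ) = ((j : ℕ) : ℚ) := by linarith
    exact (Fin.ext (by exact_mod_cast h4)).symm
  have := U.smul_mem ((∏ j ∈ Finset.univ.erase i, ((((i : ℕ) : ℚ) + 1) - (((j : ℕ) : ℚ) + 1))) *
    u i)⁻¹ h1
  rwa [smul_smul, inv_mul_cancel₀ h3, one_smul] at this

end Pool.Agent.LibZP33.Poly
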