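import Mathlib
import Pool.Agent.LibZP33.PolylogComp

open Complex Matrix

namespace Pool.Agent.LibZP33.Poly

variable {m : ℕ} {z : ℂ}

/-- the two coordinates `d`, `a` of the block `d D + a S`. -/
noncomputable def coordMap (m : ℕ) (z : ℂ) : mtLie (m + 2) z →ₗ[ℚ] ℚ × ℚ where
  toFun M := (M.1 (Sum.inr 0) (Sum.inr 0), M.1 (Sum.inr 1) (Sum.inr 0))
  map_add' A B := by simp
  map_smul' a A := by simp

lemma coordMap_apply (M : mtLie (m + 2) z) :
    coordMap m z M = (M.1 (Sum.inr 0) (Sum.inr 0), M.1 (Sum.inr 1) (Sum.inr 0)) := rfl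

lemma colPart_le_ker (m : ℕ) (z : ℂ) :
    Module.finrank ℚ (colPart (m + 2) z) ≤ Module.finrank ℚ (LinearMap.ker (coordMap m z)) := by
  let g : colPart (m + 2) z →ₗ[ℚ] LinearMap.ker (coordMap m z) :=
    { toFun := fun c => ⟨⟨blk c.1 0, c.2⟩, by
        rw [LinearMap.mem_ker, coordMap_apply]
        simp [blk]⟩
      map_add' := by
        intro c c'
        apply Subtype.ext
        apply Subtype.ext
        simp [blk_add]
      map_smul' := by
        intro a c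
        apply Subtype.ext
        apply Subtype.ext
        simp [blk_smul] }
  apply LinearMap.finrank_le_finrank_of_injective (f := g)
  intro c c' h
  have h1 : blk c.1 (0 : Matrix (Fin (m+2)) (Fin (m+2)) ℚ) = blk c'.1 0 :=
    congrArg (fun x => x.1.1) h
  exact Subtype.ext (blk_inj h1).1

lemma dd_apply_zero : (dd (m + 2) ℚ) 0 0 = 1 := by simp [dd]
lemma dd_apply_one_zero : (dd (m + 2) ℚ) 1 0 = 0 := by simp [dd]
lemma sh_apply_zero : (sh (m + 2) ℚ) 0 0 = 0 := by simp [sh]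
lemma sh_apply_one_zero : (sh (m + 2) ℚ) 1 0 = 1 := by simp [sh]

lemma finrank_colPart_add_one {q : Fin (m + 2) → ℚ} {r : ℚ}
    (hM : blk q (dd (m + 2) ℚ + r • sh (m + 2) ℚ) ∈ mtLie (m + 2) z) :
    Module.finrank ℚ (colPart (m + 2) z) + 1 ≤ mtDim (m + 2) z := by
  have h1 := colPart_le_ker m z
  have h2 := LinearMap.finrank_range_add_finrank_ker (coordMap m z)
  have h3 : 0 < Module.finrank ℚ (LinearMap.range (coordMap m z)) := by
    rw [Module.finrank_pos_iff_exists_ne_zero]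
    refine ⟨⟨coordMap m z ⟨_, hM⟩, LinearMap.mem_range_self _ _⟩, ?_⟩
    intro h
    have h4 : (blk q (dd (m + 2) ℚ + r • sh (m + 2) ℚ)) (Sum.inr 0) (Sum.inr 0) = 0 :=
      congrArg (fun x => x.1.1) h
    simp [blk, dd_apply_zero, sh_apply_zero] at h4
  unfold mtDim
  omega

lemma finrank_colPart_add_two {q c : Fin (m + 2) → ℚ} {r a : ℚ}
    (hM : blk q (dd (m + 2) ℚ + r • sh (m + 2) ℚ) ∈ mtLie (m + 2) z)
    (hE : blk c (a • sh (m + 2) ℚ) ∈ mtLie (m + 2) z) (ha : a ≠ 0) :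
    Module.finrank ℚ (colPart (m + 2) z) + 2 ≤ mtDim (m + 2) z := by
  have h1 := colPart_le_ker m z
  have h2 := LinearMap.finrank_range_add_finrank_ker (coordMap m z)
  have h3 : LinearMap.range (coordMap m z) = ⊤ := by
    rw [LinearMap.range_eq_top]
    rintro ⟨s, t⟩
    refine ⟨s • ⟨_, hM⟩ + ((t - s * r) / a) • ⟨_, hE⟩, ?_⟩
    rw [map_add, map_smul, map_smul, coordMap_apply, coordMap_apply]
    simp only [blk, Matrix.fromBlocks_apply₂₂,
      Matrix.add_apply, Matrix.smul_apply, smul_eq_mul, dd_apply_zero, sh_apply_zero,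
      dd_apply_one_zero, sh_apply_one_zero, Prod.smul_mk, Prod.mk_add_mk, Prod.mk.injEq]
    constructor
    · ring
    · field_simp
      ring
  have h4 : Module.finrank ℚ (LinearMap.range (coordMap m z)) = 2 := by
    rw [h3, finrank_top]
    simp
  unfold mtDim
  omega

/-- the base element `M₀`, with `q`, `r` the values of a normalised functional. -/
lemma exists_base (m : ℕ) (z : ℂ) : ∃ (q : Fin (m + 2) → ℚ) (r : ℚ),
    blk q (dd (m + 2) ℚ + r • sh (m + 2) ℚ) ∈ mtLie (m + 2) z ∧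
    ((∃ s : ℚ, yy z = s) → yy z = r) ∧
    ∀ ψ : ℂ →ₗ[ℚ] ℚ, blk (fun j => ψ (wvec (m + 2) z j) - ψ 1 * q j)
      ((ψ (yy z) - ψ 1 * r) • sh (m + 2) ℚ) ∈ mtLie (m + 2) z := by
  obtain ⟨φ₀, hφ₀⟩ := exists_functional_one
  have hM := map_mem_mtLie (m + 2) z φ₀
  rw [map_hodgeOperator, hφ₀, one_smul] at hM
  refine ⟨_, _, hM, ?_, ?_⟩
  · rintro ⟨s, hs⟩
    have : (s : ℂ) = s • (1 : ℂ) := by rw [Algebra.smul_def, mul_one]; rfl
    rw [hs, this, map_smul, hφ₀, smul_eq_mul, mul_one]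
    rw [Algebra.smul_def, mul_one]; rfl
  · intro ψ
    have h1 := map_mem_mtLie (m + 2) z ψ
    rw [map_hodgeOperator] at h1
    have h2 := Submodule.sub_mem _ h1 (Submodule.smul_mem _ (ψ 1) hM)
    rw [blk_smul, blk_sub] at h2
    have e : ψ 1 • dd (m + 2) ℚ + ψ (yy z) • sh (m + 2) ℚ -
        ψ 1 • (dd (m + 2) ℚ + φ₀ (yy z) • sh (m + 2) ℚ) =
        (ψ (yy z) - ψ 1 * φ₀ (yy z)) • sh (m + 2) ℚ := by
      rw [smul_add, smul_smul, sub_smul]
      abel
    rw [e] at h2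
    exact h2

/-- two-term rational relation between `1`, `w₁` and `y`. -/
def RatRel (m : ℕ) (z : ℂ) : Prop := ∃ α β γ : ℚ, (α, β) ≠ (0, 0) ∧
  (β : ℂ) * wvec (m + 2) z 0 - α * yy z = γ

lemma stable_both {q c : Fin (m + 2) → ℚ} {r a : ℚ}
    (hM : blk q (dd (m + 2) ℚ + r • sh (m + 2) ℚ) ∈ mtLie (m + 2) z)
    (hE : blk c (a • sh (m + 2) ℚ) ∈ mtLie (m + 2) z) (ha : a ≠ 0) :
    (∀ u ∈ colPart (m + 2) z, dd (m + 2) ℚ *ᵥ u ∈ colPart (m + 2) z) ∧
    (∀ u ∈ colPart (m + 2) z, sh (m + 2) ℚ *ᵥ u ∈ colPart (m + 2) z) := by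
  have h2 : ∀ u ∈ colPart (m + 2) z, sh (m + 2) ℚ *ᵥ u ∈ colPart (m + 2) z := by
    intro u hu
    have hE' : blk c ((0 : ℚ) • dd (m + 2) ℚ + a • sh (m + 2) ℚ) ∈ mtLie (m + 2) z := by
      simpa using hE
    have h3 := colPart_of_bracket hE' hu
    rw [zero_smul, zero_add] at h3
    have h4 := Submodule.smul_mem _ a⁻¹ h3
    rwa [smul_smul, inv_mul_cancel₀ ha, one_smul] at h4
  refine ⟨?_, h2⟩
  intro u hu
  have hM' : blk q ((1 : ℚ) • dd (m + 2) ℚ + r • sh (m + 2) ℚ) ∈ mtLie (m + 2) z := by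
    simpa using hM
  have h3 := colPart_of_bracket hM' hu
  rw [one_smul] at h3
  have h4 := Submodule.sub_mem _ h3 (Submodule.smul_mem _ r (h2 u hu))
  rwa [add_sub_cancel_right] at h4

lemma sh_single (i : Fin (m + 1)) :
    sh (m + 2) ℚ *ᵥ (Pi.single i.castSucc 1) = Pi.single i.succ 1 := by
  ext j
  refine Fin.cases ?_ (fun j => ?_) j
  · rw [sh_mulVec_zero, Pi.single_eq_of_ne (Fin.succ_ne_zero i).symm]
  · rw [sh_mulVec_succ]
    by_cases h : j = i
    · subst h; simp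
    · rw [Pi.single_eq_of_ne (fun h' => h (Fin.castSucc_injective _ h')),
        Pi.single_eq_of_ne (fun h' => h (Fin.succ_injective _ h'))]

lemma single_mem_ge {U : Submodule ℚ (Fin (m + 2) → ℚ)}
    (h2 : ∀ u ∈ U, sh (m + 2) ℚ *ᵥ u ∈ U) {i : Fin (m + 2)} (hi : Pi.single i 1 ∈ U)
    {j : Fin (m + 2)} (hij : i ≤ j) : Pi.single j 1 ∈ U := by
  obtain ⟨k, hk⟩ : ∃ k : ℕ, (j : ℕ) = i + k := ⟨j - i, by
    have : (i : ℕ) ≤ j := hij
    omega⟩
  induction k generalizing j with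
  | zero =>
    have : i = j := Fin.ext (by omega)
    rwa [← this]
  | succ k ih =>
    have hj0 : j ≠ 0 := by
      intro h
      rw [h] at hk
      simp at hk
    obtain ⟨j', rfl⟩ := Fin.exists_succ_eq.2 hj0
    have h3 := ih (j := j'.castSucc) (by
      have : (j' : ℕ) + 1 = i + (k + 1) := by simpa using hk
      show (i : ℕ) ≤ j'.castSucc
      simp
      omega) (by
      have : (j' : ℕ) + 1 = i + (k + 1) := by simpa using hk
      simp
      omega)
    rw [← sh_single]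
    exact h2 _ h3

lemma eq_sum_single (u : Fin (m + 2) → ℚ) : u = ∑ j, u j • (Pi.single j 1 : Fin (m + 2) → ℚ) := by
  ext k
  rw [Finset.sum_apply, Finset.sum_eq_single k]
  · simp
  · intro b _ hb
    simp [Pi.single_eq_of_ne hb.symm]
  · simp

lemma top_of_single {U : Submodule ℚ (Fin (m + 2) → ℚ)} (h : ∀ j, Pi.single j 1 ∈ U) :
    Module.finrank ℚ U = m + 2 := by
  have : U = ⊤ := by
    rw [eq_top_iff]
    intro u _
    rw [eq_sum_single u]
    exact Submodule.sum_mem _ fun j _ => U.smul_mem _ (h j)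
  rw [this, finrank_top]
  simp

lemma finrank_ker_proj : Module.finrank ℚ (LinearMap.ker
    (LinearMap.proj 0 : (Fin (m + 2) → ℚ) →ₗ[ℚ] ℚ)) = m + 1 := by
  have h := LinearMap.finrank_range_add_finrank_ker
    (LinearMap.proj 0 : (Fin (m + 2) → ℚ) →ₗ[ℚ] ℚ)
  have h2 : LinearMap.range (LinearMap.proj 0 : (Fin (m + 2) → ℚ) →ₗ[ℚ] ℚ) = ⊤ := by
    rw [LinearMap.range_eq_top]
    intro a
    exact ⟨fun _ => a, rfl⟩
  rw [h2, finrank_top] at h
  simp at h
  omega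

lemma ker_le_of_single {U : Submodule ℚ (Fin (m + 2) → ℚ)}
    (h : ∀ j, j ≠ 0 → Pi.single j 1 ∈ U) : m + 1 ≤ Module.finrank ℚ U := by
  rw [← finrank_ker_proj (m := m)]
  apply Submodule.finrank_mono
  intro u hu
  rw [LinearMap.mem_ker, LinearMap.proj_apply] at hu
  rw [eq_sum_single u]
  refine Submodule.sum_mem _ fun j _ => ?_
  by_cases hj : j = 0
  · rw [hj, hu, zero_smul]
    exact U.zero_mem
  · exact U.smul_mem _ (h j hj)

/-- L1: with no rational relation the Mumford-Tate group has dimension at least `n + 2`. -/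
lemma le_mtDim_of_not_ratRel (h : ¬ RatRel m z) : m + 4 ≤ mtDim (m + 2) z := by
  obtain ⟨q, r, hM, _, hE⟩ := exists_base m z
  obtain ⟨φ, hφ1, hφy, hφx⟩ : ∃ φ : ℂ →ₗ[ℚ] ℚ, φ 1 = 0 ∧ φ (yy z) = 0 ∧
      φ (wvec (m + 2) z 0) ≠ 0 := by
    apply functional_sep
    intro p q hpq
    apply h
    refine ⟨q, 1, p, ?_, ?_⟩
    · simp
    · rw [hpq]; push_cast; ring
  obtain ⟨ψ, hψ1, hψx, hψy⟩ : ∃ φ : ℂ →ₗ[ℚ] ℚ, φ 1 = 0 ∧ φ (wvec (m + 2) z 0) = 0 ∧
      φ (yy z) ≠ 0 := by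
    apply functional_sep
    intro p q hpq
    apply h
    refine ⟨1, q, -p, ?_, ?_⟩
    · simp
    · rw [hpq]; push_cast; ring
  have hEφ := hE φ
  have hEψ := hE ψ
  rw [hφ1, hφy] at hEφ
  rw [hψ1] at hEψ
  simp only [zero_mul, sub_zero, zero_smul] at hEφ hEψ
  have hu : (fun j => φ (wvec (m + 2) z j)) ∈ colPart (m + 2) z := hEφ
  obtain ⟨s1, s2⟩ := stable_both hM hEψ hψy
  have h0 : Pi.single 0 1 ∈ colPart (m + 2) z := single_mem_of_stable s1 hu hφx
  have htop := top_of_single (fun j => single_mem_ge s2 h0 (Fin.zero_le j))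
  have := finrank_colPart_add_two hM hEψ hψy
  omega

end Pool.Agent.LibZP33.Poly
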