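import Mathlib
import Pool.Agent.LibZP33.PolylogLower

open Complex Matrix

namespace Pool.Agent.LibZP33.Poly

variable {m : ℕ} {z : ℂ}

lemma one_mem_le : (1 : Fin (m + 2)) ≠ 0 := by
  intro h
  have := congrArg Fin.val h
  simp at this

lemma ge_one_of_ne_zero {j : Fin (m + 2)} (hj : j ≠ 0) : (1 : Fin (m + 2)) ≤ j := by
  have h1 : (j : ℕ) ≠ 0 := fun h => hj (Fin.ext h)
  show ((1 : Fin (m + 2)) : ℕ) ≤ j
  simp
  omega

lemma sh_mulVec_one (c : Fin (m + 2) → ℚ) : (sh (m + 2) ℚ *ᵥ c) 1 = c 0 := by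
  have := sh_mulVec_succ (K := ℚ) c 0
  simpa using this

lemma dd_mulVec_one (c : Fin (m + 2) → ℚ) : (dd (m + 2) ℚ *ᵥ c) 1 = 2 * c 1 := by
  rw [dd_mulVec]
  have h : (((1 : Fin (m + 2)) : ℕ) : ℚ) = 1 := by simp
  rw [h]
  norm_num

/-- L2: at a point whose Mumford-Tate group is small and with `y` irrational, the weight two
relation holds. -/
lemma relations_of_mtDim_le (h : mtDim (m + 2) z ≤ m + 2) (hy : ∀ s : ℚ, yy z ≠ s) :
    ∃ p q r α β : ℚ, (α, β) ≠ (0, 0) ∧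
      wvec (m + 2) z 1 = q + p * yy z - r * wvec (m + 2) z 0 ∧
      (β : ℂ) * (wvec (m + 2) z 0 - p) = α * (yy z - r) := by
  obtain ⟨q, r, hM, _, hE⟩ := exists_base m z
  obtain ⟨φ, hφ1, hφy⟩ := exists_functional hy
  have hEφ := hE φ
  rw [hφ1] at hEφ
  simp only [zero_mul, sub_zero] at hEφ
  obtain ⟨s1, s2⟩ := stable_both hM hEφ hφy
  have hU : ∀ u ∈ colPart (m + 2) z, u 1 = 0 := by
    intro u hu
    by_contra h1
    have h2 : Pi.single 1 1 ∈ colPart (m + 2) z := single_mem_of_stable s1 hu h1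
    have h3 : m + 1 ≤ Module.finrank ℚ (colPart (m + 2) z) :=
      ker_le_of_single fun j hj => single_mem_ge s2 h2 (ge_one_of_ne_zero hj)
    have := finrank_colPart_add_two hM hEφ hφy
    omega
  have hM' : blk q ((1 : ℚ) • dd (m + 2) ℚ + r • sh (m + 2) ℚ) ∈ mtLie (m + 2) z := by
    simpa using hM
  have hall : ∀ ψ : ℂ →ₗ[ℚ] ℚ,
      (ψ (wvec (m + 2) z 1) - ψ 1 * q 1) + r * (ψ (wvec (m + 2) z 0) - ψ 1 * q 0) -
        q 0 * (ψ (yy z) - ψ 1 * r) = 0 ∧
      φ (yy z) * (ψ (wvec (m + 2) z 0) - ψ 1 * q 0) -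
        φ (wvec (m + 2) z 0) * (ψ (yy z) - ψ 1 * r) = 0 := by
    intro ψ
    have hEψ := hE ψ
    set a := ψ (yy z) - ψ 1 * r with ha
    set c : Fin (m + 2) → ℚ := fun j => ψ (wvec (m + 2) z j) - ψ 1 * q j with hc
    have hEψ' : blk c ((0 : ℚ) • dd (m + 2) ℚ + a • sh (m + 2) ℚ) ∈ mtLie (m + 2) z := by
      simpa using hEψ
    have hEφ' : blk (fun j => φ (wvec (m + 2) z j)) ((0 : ℚ) • dd (m + 2) ℚ +
        φ (yy z) • sh (m + 2) ℚ) ∈ mtLie (m + 2) z := by
      simpa using hEφ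
    constructor
    · have hb := bracket_mem_mtLie hM' hEψ'
      rw [bracket_blk] at hb
      have hb2 := Submodule.sub_mem _ hb hEψ
      rw [blk_sub] at hb2
      have e : ((1 : ℚ) * a - 0 * r) • sh (m + 2) ℚ - a • sh (m + 2) ℚ = 0 := by
        rw [one_mul, zero_mul, sub_zero, sub_self]
      rw [e] at hb2
      have h1 := hU _ hb2
      simp only [Pi.sub_apply, Pi.add_apply, Pi.smul_apply, smul_eq_mul, dd_mulVec_one,
        sh_mulVec_one] at h1
      linarith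
    · have hb := bracket_mem_mtLie hEφ' hEψ'
      rw [bracket_blk] at hb
      have e : ((0 : ℚ) * a - 0 * φ (yy z)) • sh (m + 2) ℚ = 0 := by
        simp
      rw [e] at hb
      have h1 := hU _ hb
      simp only [Pi.sub_apply, Pi.add_apply, Pi.smul_apply, smul_eq_mul, dd_mulVec_one,
        sh_mulVec_one] at h1
      linarith
  refine ⟨q 0, q 1, r, φ (wvec (m + 2) z 0), φ (yy z), ?_, ?_, ?_⟩
  · intro h0
    rw [Prod.mk.injEq] at h0
    exact hφy h0.2
  · apply eq_of_functionals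
    intro ψ
    have e1 : ψ (((q 1 : ℚ) : ℂ) + ((q 0 : ℚ) : ℂ) * yy z - (r : ℂ) * wvec (m + 2) z 0) =
        q 1 * ψ 1 + q 0 * ψ (yy z) - r * ψ (wvec (m + 2) z 0) := by
      rw [map_sub, map_add]
      have h1 : ((q 1 : ℚ) : ℂ) = q 1 • (1:ℂ) := by rw [Algebra.smul_def, mul_one]; rfl
      have h2 : ((q 0 : ℚ) : ℂ) * yy z = q 0 • yy z := by rw [Algebra.smul_def]; rfl
      have h3 : (r:ℂ) * wvec (m + 2) z 0 = r • wvec (m + 2) z 0 := by
        rw [Algebra.smul_def]; rfl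
      rw [h1, h2, h3, map_smul, map_smul, map_smul]
      simp only [smul_eq_mul]
    rw [e1]
    have := (hall ψ).1
    linarith
  · apply eq_of_functionals
    intro ψ
    have h1 : ψ (((φ (yy z) : ℚ) : ℂ) * (wvec (m + 2) z 0 - ((q 0 : ℚ) : ℂ))) =
        φ (yy z) * (ψ (wvec (m + 2) z 0) - ψ 1 * q 0) := by
      have h2 : ((φ (yy z) : ℚ) : ℂ) * (wvec (m + 2) z 0 - ((q 0 : ℚ) : ℂ)) =
          φ (yy z) • (wvec (m + 2) z 0 - q 0 • (1:ℂ)) := by
        rw [Algebra.smul_def, Algebra.smul_def, mul_one]; rfl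
      rw [h2, map_smul, map_sub, map_smul]
      simp only [smul_eq_mul]
      ring
    have h2 : ψ (((φ (wvec (m + 2) z 0) : ℚ) : ℂ) * (yy z - (r : ℂ))) =
        φ (wvec (m + 2) z 0) * (ψ (yy z) - ψ 1 * r) := by
      have h2 : ((φ (wvec (m + 2) z 0) : ℚ) : ℂ) * (yy z - (r : ℂ)) =
          φ (wvec (m + 2) z 0) • (yy z - r • (1:ℂ)) := by
        rw [Algebra.smul_def, Algebra.smul_def, mul_one]; rfl
      rw [h2, map_smul, map_sub, map_smul]
      simp only [smul_eq_mul]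
      ring
    rw [h1, h2]
    have := (hall ψ).2
    linarith

/-- the unipotent matrix `exp(y S)`. -/
noncomputable def smat (n : ℕ) (K : Type*) [Field K] (y : K) : Matrix (Fin n) (Fin n) K :=
  Matrix.of fun j k => if k ≤ j then y ^ ((j : ℕ) - k) / ((j : ℕ) - k).factorial else 0

lemma smat_mul (n : ℕ) {K : Type*} [Field K] [CharZero K] (y : K) :
    smat n K y * (dd n K + y • sh n K) = dd n K * smat n K y := by
  ext j k
  rw [Matrix.mul_add, Matrix.add_apply, dd, Matrix.mul_diagonal, Matrix.diagonal_mul]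
  have h2 : (smat n K y * (y • sh n K)) j k =
      if (k : ℕ) + 1 ≤ j then y * (y ^ ((j : ℕ) - (k + 1)) / ((j : ℕ) - (k + 1)).factorial)
      else 0 := by
    rw [Matrix.mul_apply]
    by_cases hk : (k : ℕ) + 1 < n
    · rw [Finset.sum_eq_single ⟨(k : ℕ) + 1, hk⟩]
      · simp only [smat, sh, Matrix.smul_apply, Matrix.of_apply, smul_eq_mul, if_true, mul_one]
        by_cases hj : (k : ℕ) + 1 ≤ j
        · have : (⟨(k : ℕ) + 1, hk⟩ : Fin n) ≤ j := hj
          rw [if_pos hj, if_pos this]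
          ring
        · have : ¬ (⟨(k : ℕ) + 1, hk⟩ : Fin n) ≤ j := hj
          rw [if_neg hj, if_neg this, zero_mul]
      · intro b _ hb
        have : ¬ (b : ℕ) = (k : ℕ) + 1 := fun h => hb (Fin.ext h)
        simp [sh, this]
      · simp
    · have hj : ¬ (k : ℕ) + 1 ≤ j := by
        intro h
        have := j.2
        omega
      rw [if_neg hj]
      apply Finset.sum_eq_zero
      intro b _
      have : ¬ (b : ℕ) = (k : ℕ) + 1 := by
        intro h
        have := b.2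
        omega
      simp [sh, this]
  rw [h2]
  rcases lt_trichotomy (k : ℕ) (j : ℕ) with h | h | h
  · have h3 : (k : ℕ) + 1 ≤ j := h
    have h4 : k ≤ j := h.le
    obtain ⟨l, hl⟩ : ∃ l, (j : ℕ) = k + 1 + l := ⟨j - (k + 1), by omega⟩
    rw [if_pos h3]
    simp only [smat, Matrix.of_apply]
    rw [if_pos h4]
    have e1 : (j : ℕ) - k = l + 1 := by omega
    have e2 : (j : ℕ) - (k + 1) = l := by omega
    rw [e1, e2, Nat.factorial_succ]
    have hf : ((l.factorial : ℕ) : K) ≠ 0 := by exact_mod_cast l.factorial_ne_zero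
    have hm1 : ((l : K) + 1) ≠ 0 := by exact_mod_cast l.succ_ne_zero
    have hj' : ((j : ℕ) : K) = k + 1 + l := by rw [hl]; push_cast; ring
    rw [hj']
    push_cast
    field_simp
    ring
  · have h3 : ¬ (k : ℕ) + 1 ≤ j := by omega
    have h4 : k = j := Fin.ext h
    rw [if_neg h3, h4]
    ring
  · have h3 : ¬ (k : ℕ) + 1 ≤ j := by omega
    have h4 : ¬ k ≤ j := not_le.2 h
    rw [if_neg h3]
    simp only [smat, Matrix.of_apply]
    rw [if_neg h4]
    ring

/-- the normalised extension data `j Li_j(z) / (2πi)^j`. -/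
noncomputable def lam (n : ℕ) (z : ℂ) : Fin n → ℂ := fun j =>
  (((j : ℕ) : ℂ) + 1) * polylog (j + 1) z / (2 * Real.pi * I) ^ ((j : ℕ) + 1)

lemma smat_wvec (n : ℕ) (z : ℂ) : smat n ℂ (yy z) *ᵥ wvec n z = lam n z := by
  have h := qmat_wvec n z
  have hq : qmat n z = Matrix.diagonal (fun j : Fin n => (2 * Real.pi * I : ℂ) ^ ((j : ℕ) + 1)) *
      smat n ℂ (yy z) := by
    ext j k
    rw [Matrix.diagonal_mul]
    simp only [qmat, smat, Matrix.of_apply]
    split_ifs with hk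
    · have hk' : (k : ℕ) ≤ j := hk
      obtain ⟨l, hl⟩ : ∃ l, (j : ℕ) = k + l := ⟨j - k, by omega⟩
      have e : (j : ℕ) - k = l := by omega
      rw [e, hl]
      unfold yy
      have hpi := two_pi_I_ne
      rw [div_pow]
      field_simp
      ring
    · ring
  rw [hq, ← Matrix.mulVec_mulVec] at h
  ext j
  have h2 := congrFun h j
  rw [Matrix.mulVec_diagonal, dd_mulVec] at h2
  have hpi : (2 * Real.pi * I : ℂ) ^ ((j : ℕ) + 1) ≠ 0 := pow_ne_zero _ two_pi_I_ne
  rw [lam, eq_div_iff hpi, mul_comm, h2, lvec]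

/-- L3: at a root of unity, if no normalised extension datum is rational then the Mumford-Tate
group has dimension at least `n + 1`. -/
lemma le_mtDim_of_root {s : ℚ} (hy : yy z = s) (hl : ∀ j, ∀ p : ℚ, lam (m + 2) z j ≠ p) :
    m + 3 ≤ mtDim (m + 2) z := by
  obtain ⟨q, r, hM, hr, hE⟩ := exists_base m z
  have hyr : yy z = r := hr ⟨s, hy⟩
  have hM' : blk q ((1 : ℚ) • dd (m + 2) ℚ + r • sh (m + 2) ℚ) ∈ mtLie (m + 2) z := by
    simpa using hM
  have hst : ∀ u ∈ colPart (m + 2) z, (dd (m + 2) ℚ + r • sh (m + 2) ℚ) *ᵥ u ∈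
      colPart (m + 2) z := by
    intro u hu
    have := colPart_of_bracket hM' hu
    rwa [one_smul, ← Matrix.smul_mulVec, ← Matrix.add_mulVec] at this
  have hψy : ∀ ψ : ℂ →ₗ[ℚ] ℚ, ψ 1 = 0 → ψ (yy z) = 0 := by
    intro ψ h1
    have : (r : ℂ) = r • (1 : ℂ) := by rw [Algebra.smul_def, mul_one]; rfl
    rw [hyr, this, map_smul, h1, smul_zero]
  let U' : Submodule ℚ (Fin (m + 2) → ℚ) :=
    (colPart (m + 2) z).map (Matrix.mulVecLin (smat (m + 2) ℚ r))
  have hU' : ∀ u ∈ U', dd (m + 2) ℚ *ᵥ u ∈ U' := by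
    rintro _ ⟨u, hu, rfl⟩
    refine ⟨_, hst u hu, ?_⟩
    rw [Matrix.mulVecLin_apply, Matrix.mulVecLin_apply, Matrix.mulVec_mulVec, Matrix.mulVec_mulVec,
      smat_mul]
  have hsmat : ∀ ψ : ℂ →ₗ[ℚ] ℚ, smat (m + 2) ℚ r *ᵥ (fun j => ψ (wvec (m + 2) z j)) =
      fun j => ψ (lam (m + 2) z j) := by
    intro ψ
    ext j
    rw [← smat_wvec, hyr]
    simp only [Matrix.mulVec, dotProduct]
    rw [map_sum]
    apply Finset.sum_congr rfl
    intro k _
    have : smat (m + 2) ℂ (r : ℂ) j k = ((smat (m + 2) ℚ r j k : ℚ) : ℂ) := by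
      simp only [smat, Matrix.of_apply]
      split_ifs <;> simp
    rw [this]
    have h2 : ((smat (m + 2) ℚ r j k : ℚ) : ℂ) * wvec (m + 2) z k =
        (smat (m + 2) ℚ r j k) • wvec (m + 2) z k := by
      rw [Algebra.smul_def]; rfl
    rw [h2, map_smul, smul_eq_mul]
  have hall : ∀ j, Pi.single j 1 ∈ U' := by
    intro j
    obtain ⟨ψ, hψ1, hψ⟩ := exists_functional (hl j)
    have hEψ := hE ψ
    rw [hψ1, hψy ψ hψ1] at hEψ
    simp only [zero_mul, sub_zero, zero_smul] at hEψ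
    have hu : (fun j => ψ (wvec (m + 2) z j)) ∈ colPart (m + 2) z := hEψ
    have hu' : (fun j => ψ (lam (m + 2) z j)) ∈ U' := by
      rw [← hsmat]
      exact ⟨_, hu, rfl⟩
    exact single_mem_of_stable hU' hu' hψ
  have h1 := top_of_single hall
  have h2 : Module.finrank ℚ U' ≤ Module.finrank ℚ (colPart (m + 2) z) :=
    Submodule.finrank_map_le _ _
  have h3 := finrank_colPart_add_one hM
  omega

end Pool.Agent.LibZP33.Poly
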