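import Mathlib
import Pool.Agent.LibZP33.PolylogLower2

open Complex Matrix

namespace Pool.Agent.LibZP33.Poly

variable {n : ℕ} {z : ℂ}

/-- vectors whose first `k` coordinates vanish. -/
def tailSub (n k : ℕ) : Submodule ℚ (Fin n → ℚ) where
  carrier := {u | ∀ j : Fin n, (j : ℕ) < k → u j = 0}
  add_mem' := by
    intro u v hu hv j hj
    rw [Pi.add_apply, hu j hj, hv j hj, add_zero]
  zero_mem' := by
    intro j _
    rfl
  smul_mem' := by
    intro a u hu j hj
    rw [Pi.smul_apply, hu j hj, smul_zero]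

lemma mem_tailSub {k : ℕ} {u : Fin n → ℚ} :
    u ∈ tailSub n k ↔ ∀ j : Fin n, (j : ℕ) < k → u j = 0 := Iff.rfl

lemma dd_mem_tailSub {k : ℕ} {u : Fin n → ℚ} (hu : u ∈ tailSub n k) :
    dd n ℚ *ᵥ u ∈ tailSub n k := by
  intro j hj
  rw [dd_mulVec, hu j hj, mul_zero]

lemma sh_mulVec_apply (u : Fin n → ℚ) (j : Fin n) :
    (sh n ℚ *ᵥ u) j = if h : 0 < (j : ℕ) then u ⟨(j : ℕ) - 1, by omega⟩ else 0 := by
  rw [Matrix.mulVec, dotProduct]
  split_ifs with h
  · rw [Finset.sum_eq_single ⟨(j : ℕ) - 1, by omega⟩]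
    · have : (j : ℕ) = ((j : ℕ) - 1) + 1 := by omega
      simp only [sh, Matrix.of_apply]
      rw [if_pos this, one_mul]
    · intro b _ hb
      have : ¬ (j : ℕ) = (b : ℕ) + 1 := by
        intro h2
        apply hb
        apply Fin.ext
        simp
        omega
      simp only [sh, Matrix.of_apply]
      rw [if_neg this, zero_mul]
    · simp
  · apply Finset.sum_eq_zero
    intro b _
    have : ¬ (j : ℕ) = (b : ℕ) + 1 := by omega
    simp only [sh, Matrix.of_apply]
    rw [if_neg this, zero_mul]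

lemma sh_mem_tailSub {k : ℕ} {u : Fin n → ℚ} (hu : u ∈ tailSub n k) :
    sh n ℚ *ᵥ u ∈ tailSub n k := by
  intro j hj
  rw [sh_mulVec_apply]
  split_ifs with h
  · exact hu _ (by simp; omega)
  · rfl

lemma finrank_tailSub_le (n k : ℕ) : Module.finrank ℚ (tailSub n k) ≤ n - k := by
  let g : tailSub n k →ₗ[ℚ] (Fin (n - k) → ℚ) :=
    { toFun := fun u i => u.1 ⟨(i : ℕ) + k, by omega⟩
      map_add' := by intro u v; rfl
      map_smul' := by intro a u; rfl }
  have h := LinearMap.finrank_le_finrank_of_injective (f := g) (by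
    intro u v huv
    apply Subtype.ext
    ext j
    by_cases hj : (j : ℕ) < k
    · rw [u.2 j hj, v.2 j hj]
    · have h2 := congrFun huv ⟨(j : ℕ) - k, by omega⟩
      have h3 : (⟨(j : ℕ) - k + k, by omega⟩ : Fin n) = j := Fin.ext (by simp; omega)
      have h4 : u.1 ⟨(j : ℕ) - k + k, by omega⟩ = v.1 ⟨(j : ℕ) - k + k, by omega⟩ := h2
      rwa [h3] at h4)
  simpa using h

/-- parametrisation of the candidate Lie algebra. -/
noncomputable def candMap (n k : ℕ) (q c : Fin n → ℚ) (r a : ℚ) :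
    (ℚ × ℚ × tailSub n k) →ₗ[ℚ] Matrix (Unit ⊕ Fin n) (Unit ⊕ Fin n) ℚ where
  toFun p := blk (p.1 • q + p.2.1 • c + p.2.2.1) (p.1 • dd n ℚ + (p.1 * r + p.2.1 * a) • sh n ℚ)
  map_add' p p' := by
    rw [blk_add]
    congr 1
    · simp only [Prod.fst_add, Prod.snd_add, Submodule.coe_add]
      module
    · simp only [Prod.fst_add, Prod.snd_add]
      module
  map_smul' s p := by
    rw [RingHom.id_apply, blk_smul]
    congr 1
    · simp only [Prod.smul_fst, Prod.smul_snd, Submodule.coe_smul, smul_eq_mul]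
      module
    · simp only [Prod.smul_fst, Prod.smul_snd, smul_eq_mul]
      module

lemma candMap_apply (n k : ℕ) (q c : Fin n → ℚ) (r a s t : ℚ) (u : tailSub n k) :
    candMap n k q c r a (s, t, u) =
      blk (s • q + t • c + u.1) (s • dd n ℚ + (s * r + t * a) • sh n ℚ) := rfl

lemma cand_closed {k : ℕ} {q c : Fin n → ℚ} {r a : ℚ}
    (hv : dd n ℚ *ᵥ c + r • (sh n ℚ *ᵥ c) - a • (sh n ℚ *ᵥ q) - c ∈ tailSub n k) :
    ∀ A ∈ LinearMap.range (candMap n k q c r a), ∀ B ∈ LinearMap.range (candMap n k q c r a),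
      A * B - B * A ∈ LinearMap.range (candMap n k q c r a) := by
  rintro _ ⟨⟨s, t, u⟩, rfl⟩ _ ⟨⟨s', t', u'⟩, rfl⟩
  rw [candMap_apply, candMap_apply, bracket_blk]
  set v := dd n ℚ *ᵥ c + r • (sh n ℚ *ᵥ c) - a • (sh n ℚ *ᵥ q) - c with hvdef
  have hd := dd_mem_tailSub u.2
  have hd' := dd_mem_tailSub u'.2
  have hs := sh_mem_tailSub u.2
  have hs' := sh_mem_tailSub u'.2
  refine ⟨(0, s * t' - s' * t, ⟨(s * t' - s' * t) • v + s • (dd n ℚ *ᵥ u'.1) +
    (s * r + t * a) • (sh n ℚ *ᵥ u'.1) - s' • (dd n ℚ *ᵥ u.1) -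
    (s' * r + t' * a) • (sh n ℚ *ᵥ u.1), ?_⟩), ?_⟩
  · refine Submodule.sub_mem _ (Submodule.sub_mem _ (Submodule.add_mem _ (Submodule.add_mem _
      ?_ ?_) ?_) ?_) ?_
    · exact Submodule.smul_mem _ _ hv
    · exact Submodule.smul_mem _ _ hd'
    · exact Submodule.smul_mem _ _ hs'
    · exact Submodule.smul_mem _ _ hd
    · exact Submodule.smul_mem _ _ hs
  · rw [candMap_apply]
    congr 1
    · simp only [Matrix.mulVec_add, Matrix.mulVec_smul]
      rw [hvdef]
      module
    · module

lemma mem_span_of_zero {k : ℕ} {L : Submodule ℚ (Matrix (Unit ⊕ Fin n) (Unit ⊕ Fin n) ℚ)}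
    (hL : ∀ u ∈ tailSub n k, blk u 0 ∈ L) {x : Fin n → ℂ}
    (hx : ∀ j : Fin n, (j : ℕ) < k → x j = 0) :
    blk x 0 ∈ Submodule.span ℂ
      ((fun M : Matrix (Unit ⊕ Fin n) (Unit ⊕ Fin n) ℚ => M.map (algebraMap ℚ ℂ)) '' (L : Set _)) := by
  classical
  have hsum : blk x (0 : Matrix (Fin n) (Fin n) ℂ) =
      ∑ j, x j • (blk (Pi.single j 1) 0 : Matrix (Unit ⊕ Fin n) (Unit ⊕ Fin n) ℂ) := by
    ext i i'
    rw [Matrix.sum_apply]
    rcases i with i | i <;> rcases i' with i' | i'
    · simp [blk]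
    · simp [blk]
    · simp [blk, Pi.single_apply]
    · simp [blk]
  rw [hsum]
  refine Submodule.sum_mem _ fun j _ => ?_
  by_cases hj : (j : ℕ) < k
  · rw [hx j hj, zero_smul]
    exact Submodule.zero_mem _
  · refine Submodule.smul_mem _ _ (Submodule.subset_span ⟨blk (Pi.single j 1) 0, ?_, ?_⟩)
    · apply hL
      intro i hi
      apply Pi.single_eq_of_ne
      intro h
      rw [h] at hi
      exact hj hi
    · ext i i'
      rcases i with i | i <;> rcases i' with i' | i'
      · simp [blk]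
      · simp [blk]
      · simp [blk, Pi.single_apply]
      · simp [blk]

/-- general upper bound for the dimension of the Mumford-Tate group. -/
lemma mtDim_le_cand {k : ℕ} {q c : Fin n → ℚ} {r a : ℚ} {τ : ℂ}
    (hv : dd n ℚ *ᵥ c + r • (sh n ℚ *ᵥ c) - a • (sh n ℚ *ᵥ q) - c ∈ tailSub n k)
    (hy : yy z = r + τ * a) (hw : ∀ j : Fin n, (j : ℕ) < k → wvec n z j = q j + τ * c j) :
    mtDim n z ≤ 2 + (n - k) := by
  have hmem : hodgeOperator n z ∈ Submodule.span ℂ
      ((fun M : Matrix (Unit ⊕ Fin n) (Unit ⊕ Fin n) ℚ => M.map (algebraMap ℚ ℂ)) ''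
        (LinearMap.range (candMap n k q c r a) : Set _)) := by
    have hL : ∀ u ∈ tailSub n k, blk u 0 ∈ LinearMap.range (candMap n k q c r a) := by
      intro u hu
      refine ⟨(0, 0, ⟨u, hu⟩), ?_⟩
      rw [candMap_apply]
      simp
    have hM : blk q (dd n ℚ + r • sh n ℚ) ∈ LinearMap.range (candMap n k q c r a) := by
      refine ⟨(1, 0, 0), ?_⟩
      rw [candMap_apply]
      simp
    have hE : blk c (a • sh n ℚ) ∈ LinearMap.range (candMap n k q c r a) := by
      refine ⟨(0, 1, 0), ?_⟩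
      rw [candMap_apply]
      simp
    have hdec : hodgeOperator n z =
        (blk q (dd n ℚ + r • sh n ℚ)).map (algebraMap ℚ ℂ) +
        τ • (blk c (a • sh n ℚ)).map (algebraMap ℚ ℂ) +
        blk (fun j => wvec n z j - q j - τ * c j) 0 := by
      rw [hodgeOperator_eq, hy]
      ext i i'
      rcases i with i | i <;> rcases i' with i' | i'
      · simp [blk]
      · simp [blk]
      · simp [blk]
      · simp only [blk, Matrix.add_apply, Matrix.fromBlocks_apply₂₂, Matrix.map_apply,
          Matrix.smul_apply, smul_eq_mul, Matrix.zero_apply, dd, sh, Matrix.of_apply]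
        by_cases h1 : i = i'
        · subst h1
          rw [Matrix.diagonal_apply_eq, Matrix.diagonal_apply_eq]
          split_ifs with h2
          · push_cast
            simp
            ring
          · simp
        · rw [Matrix.diagonal_apply_ne _ h1, Matrix.diagonal_apply_ne _ h1]
          split_ifs with h2
          · simp
          · simp
    rw [hdec]
    refine Submodule.add_mem _ (Submodule.add_mem _ ?_ (Submodule.smul_mem _ _ ?_)) ?_
    · exact Submodule.subset_span ⟨_, hM, rfl⟩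
    · exact Submodule.subset_span ⟨_, hE, rfl⟩
    · apply mem_span_of_zero hL
      intro j hj
      rw [hw j hj]
      ring
  have h1 := mtLie_le (cand_closed hv) hmem
  calc mtDim n z ≤ Module.finrank ℚ (LinearMap.range (candMap n k q c r a)) :=
        Submodule.finrank_mono h1
    _ ≤ Module.finrank ℚ (ℚ × ℚ × tailSub n k) := LinearMap.finrank_range_le _
    _ = 1 + (1 + Module.finrank ℚ (tailSub n k)) := by
        rw [Module.finrank_prod, Module.finrank_prod, Module.finrank_self]
    _ ≤ 2 + (n - k) := by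
        have := finrank_tailSub_le n k
        omega


/-- upper bound for the dimension of the Mumford-Tate group when `y` is rational. -/
lemma mtDim_le_cand' {k : ℕ} {q : Fin n → ℚ} {r : ℚ}
    (hy : yy z = r) (hw : ∀ j : Fin n, (j : ℕ) < k → wvec n z j = q j) :
    mtDim n z ≤ 1 + (n - k) := by
  have hv : dd n ℚ *ᵥ (0 : Fin n → ℚ) + r • (sh n ℚ *ᵥ (0 : Fin n → ℚ)) -
      (0 : ℚ) • (sh n ℚ *ᵥ q) - 0 ∈ tailSub n k := by
    simp
  have hmem : hodgeOperator n z ∈ Submodule.span ℂ
      ((fun M : Matrix (Unit ⊕ Fin n) (Unit ⊕ Fin n) ℚ => M.map (algebraMap ℚ ℂ)) ''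
        (LinearMap.range (candMap n k q 0 r 0) : Set _)) := by
    have hL : ∀ u ∈ tailSub n k, blk u 0 ∈ LinearMap.range (candMap n k q 0 r 0) := by
      intro u hu
      refine ⟨(0, 0, ⟨u, hu⟩), ?_⟩
      rw [candMap_apply]
      simp
    have hM : blk q (dd n ℚ + r • sh n ℚ) ∈ LinearMap.range (candMap n k q 0 r 0) := by
      refine ⟨(1, 0, 0), ?_⟩
      rw [candMap_apply]
      simp
    have hdec : hodgeOperator n z =
        (blk q (dd n ℚ + r • sh n ℚ)).map (algebraMap ℚ ℂ) +
        blk (fun j => wvec n z j - q j) 0 := by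
      rw [hodgeOperator_eq, hy]
      ext i i'
      rcases i with i | i <;> rcases i' with i' | i'
      · simp [blk]
      · simp [blk]
      · simp [blk]
      · simp only [blk, Matrix.add_apply, Matrix.fromBlocks_apply₂₂, Matrix.map_apply,
          Matrix.smul_apply, smul_eq_mul, Matrix.zero_apply, dd, sh, Matrix.of_apply]
        by_cases h1 : i = i'
        · subst h1
          rw [Matrix.diagonal_apply_eq, Matrix.diagonal_apply_eq]
          split_ifs with h2
          · push_cast
            simp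
          · simp
        · rw [Matrix.diagonal_apply_ne _ h1, Matrix.diagonal_apply_ne _ h1]
          split_ifs with h2
          · simp
          · simp
    rw [hdec]
    refine Submodule.add_mem _ ?_ ?_
    · exact Submodule.subset_span ⟨_, hM, rfl⟩
    · apply mem_span_of_zero hL
      intro j hj
      rw [hw j hj]
      ring
  have h1 := mtLie_le (cand_closed hv) hmem
  let f : (ℚ × tailSub n k) →ₗ[ℚ] Matrix (Unit ⊕ Fin n) (Unit ⊕ Fin n) ℚ :=
    (candMap n k q 0 r 0).comp
      (LinearMap.prodMap LinearMap.id (LinearMap.inr ℚ ℚ (tailSub n k)))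
  have hf : LinearMap.range (candMap n k q 0 r 0) ≤ LinearMap.range f := by
    rintro _ ⟨⟨s, t, u⟩, rfl⟩
    refine ⟨(s, u), ?_⟩
    show candMap n k q 0 r 0 (s, 0, u) = _
    rw [candMap_apply, candMap_apply]
    simp
  calc mtDim n z ≤ Module.finrank ℚ (LinearMap.range f) :=
        Submodule.finrank_mono (h1.trans hf)
    _ ≤ Module.finrank ℚ (ℚ × tailSub n k) := LinearMap.finrank_range_le _
    _ = 1 + Module.finrank ℚ (tailSub n k) := by
        rw [Module.finrank_prod, Module.finrank_self]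
    _ ≤ 1 + (n - k) := by
        have := finrank_tailSub_le n k
        omega

end Pool.Agent.LibZP33.Poly
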