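import Mathlib
import Pool.Agent.LibZP33.PolylogUpper
import Pool.Agent.LibZP33.DilogLocus

open Complex Matrix Set

namespace Pool.Agent.LibZP33.Poly

open scoped ComplexConjugate

variable {m : ℕ} {z : ℂ}

lemma polylog_two (z : ℂ) : polylog 2 z = dilog z := by
  rw [polylog, dilog, ← intervalIntegral.integral_neg]
  apply intervalIntegral.integral_congr
  intro t _
  simp only [polylog]
  ring

lemma yy_eq (z : ℂ) : yy z = LibZP33.yy z := rfl

lemma smat_zero_zero (y : ℂ) (c : Fin (m + 2) → ℂ) : (smat (m + 2) ℂ y *ᵥ c) 0 = c 0 := by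
  rw [Matrix.mulVec, dotProduct, Finset.sum_eq_single 0]
  · simp [smat]
  · intro b _ hb
    have : ¬ b ≤ 0 := by
      intro h
      exact hb (Fin.le_zero_iff.1 h)
    simp only [smat, Matrix.of_apply]
    rw [if_neg this, zero_mul]
  · simp

lemma smat_one (y : ℂ) (c : Fin (m + 2) → ℂ) : (smat (m + 2) ℂ y *ᵥ c) 1 = y * c 0 + c 1 := by
  rw [Matrix.mulVec, dotProduct, Fin.sum_univ_succ, Fin.sum_univ_succ]
  have h3 : ∑ i : Fin m, smat (m + 2) ℂ y 1 i.succ.succ * c i.succ.succ = 0 := by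
    apply Finset.sum_eq_zero
    intro i _
    have : ¬ (i.succ.succ : Fin (m + 2)) ≤ 1 := by
      intro h
      have h2 : ((i.succ.succ : Fin (m + 2)) : ℕ) ≤ ((1 : Fin (m + 2)) : ℕ) := h
      simp at h2
    simp only [smat, Matrix.of_apply]
    rw [if_neg this, zero_mul]
  rw [h3]
  simp [smat]

lemma wvec_zero (m : ℕ) (z : ℂ) : wvec (m + 2) z 0 = LibZP33.xx z := by
  have h := congrFun (smat_wvec (m + 2) z) 0
  rw [smat_zero_zero] at h
  rw [h]
  simp [lam, LibZP33.xx, polylog]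

lemma wvec_one (m : ℕ) (z : ℂ) : wvec (m + 2) z 1 = LibZP33.ww 0 z := by
  have h := congrFun (smat_wvec (m + 2) z) 1
  rw [smat_one, wvec_zero] at h
  have h2 : lam (m + 2) z 1 = 2 * dilog z / (2 * Real.pi * I) ^ 2 := by
    simp only [lam, Fin.val_one]
    rw [show (1 + 1 : ℕ) = 2 from rfl, polylog_two]
    push_cast
    ring
  rw [h2] at h
  have h3 : wvec (m + 2) z 1 = 2 * dilog z / (2 * Real.pi * I) ^ 2 - yy z * LibZP33.xx z := by
    rw [← h]; ring
  rw [h3, LibZP33.ww, LibZP33.xx, yy]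
  have := two_pi_I_ne
  field_simp
  ring

lemma ratRel_iff : RatRel m z ↔ LibZP33.RatRel z := by
  unfold RatRel LibZP33.RatRel
  simp only [wvec_zero, yy_eq]

lemma mtDim_le_top (m : ℕ) (z : ℂ) : mtDim (m + 2) z ≤ m + 4 := by
  have := mtDim_le_cand (n := m + 2) (z := z) (k := 0) (q := 0) (c := 0) (r := 0) (a := 1)
    (τ := yy z) (by simp) (by simp) (by intro j hj; omega)
  omega

lemma mtDim_le_of_ratRel (h : LibZP33.RatRel z) : mtDim (m + 2) z ≤ m + 3 := by
  obtain ⟨α, β, γ, hab, hrel⟩ := h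
  obtain ⟨p, r, c, hx, hy⟩ : ∃ p r : ℚ, ∃ c : ℂ, LibZP33.xx z = p + c * α ∧
      LibZP33.yy z = r + c * β := by
    by_cases ha : α = 0
    · have hb : β ≠ 0 := fun hb => hab (by rw [ha, hb])
      have hb' : (β : ℂ) ≠ 0 := by exact_mod_cast hb
      refine ⟨γ / β, 0, LibZP33.yy z / β, ?_, ?_⟩
      · rw [ha] at hrel ⊢
        push_cast at hrel ⊢
        field_simp
        linear_combination hrel
      · push_cast
        field_simp
        ring
    · have ha' : (α : ℂ) ≠ 0 := by exact_mod_cast ha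
      refine ⟨0, - γ / α, LibZP33.xx z / α, ?_, ?_⟩
      · push_cast
        field_simp
        ring
      · push_cast
        field_simp
        linear_combination - hrel
  have h1 := mtDim_le_cand (n := m + 2) (z := z) (k := 1) (q := Pi.single 0 p)
    (c := Pi.single 0 α) (r := r) (a := β) (τ := c) ?_ ?_ ?_
  · omega
  · intro j hj
    have hj0 : j = 0 := Fin.ext (by simpa using hj)
    subst hj0
    simp only [Pi.sub_apply, Pi.add_apply, Pi.smul_apply, smul_eq_mul, dd_mulVec, sh_mulVec_zero,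
      Pi.single_eq_same]
    simp
  · rw [yy_eq, hy]
  · intro j hj
    have hj0 : j = 0 := Fin.ext (by simpa using hj)
    subst hj0
    rw [wvec_zero, hx, Pi.single_eq_same, Pi.single_eq_same]

lemma mtDim_le_of_rational {p r : ℚ} (hx : LibZP33.xx z = p) (hy : LibZP33.yy z = r) :
    mtDim (m + 2) z ≤ m + 2 := by
  have h1 := mtDim_le_cand' (n := m + 2) (z := z) (k := 1) (q := Pi.single 0 p) (r := r) ?_ ?_
  · omega
  · rw [yy_eq, hy]
  · intro j hj
    have hj0 : j = 0 := Fin.ext (by simpa using hj)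
    subst hj0
    rw [wvec_zero, hx, Pi.single_eq_same]

lemma mtDim_le_of_relation {p q r α β : ℚ} {c : ℂ} (hx : LibZP33.xx z = p + c * α)
    (hy : LibZP33.yy z = r + c * β) (hw : LibZP33.ww 0 z = q + c * (β * p - α * r)) :
    mtDim (m + 2) z ≤ m + 2 := by
  have e1 : (1 : Fin (m + 2)) ≠ 0 := one_mem_le
  have h1 := mtDim_le_cand (n := m + 2) (z := z) (k := 2)
    (q := Pi.single 0 p + Pi.single 1 q)
    (c := Pi.single 0 α + Pi.single 1 (β * p - α * r)) (r := r) (a := β) (τ := c) ?_ ?_ ?_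
  · omega
  · intro j hj
    have hj0 : j = 0 ∨ j = 1 := by
      rcases Nat.lt_succ_iff_lt_or_eq.1 hj with h | h
      · left; exact Fin.ext (by simpa using h)
      · right; exact Fin.ext (by simpa using h)
    rcases hj0 with rfl | rfl
    · simp only [Pi.sub_apply, Pi.add_apply, Pi.smul_apply, smul_eq_mul, dd_mulVec,
        sh_mulVec_zero, Pi.single_eq_same, Pi.single_eq_of_ne e1.symm]
      simp
    · simp only [Pi.sub_apply, Pi.add_apply, Pi.smul_apply, smul_eq_mul, dd_mulVec_one,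
        sh_mulVec_one, Pi.single_eq_same, Pi.single_eq_of_ne e1, Pi.single_eq_of_ne e1.symm]
      ring
  · rw [yy_eq, hy]
  · intro j hj
    have hj0 : j = 0 ∨ j = 1 := by
      rcases Nat.lt_succ_iff_lt_or_eq.1 hj with h | h
      · left; exact Fin.ext (by simpa using h)
      · right; exact Fin.ext (by simpa using h)
    rcases hj0 with rfl | rfl
    · rw [wvec_zero, hx]
      simp only [Pi.add_apply, Pi.single_eq_same, Pi.single_eq_of_ne e1.symm, add_zero]
    · rw [wvec_one, hw]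
      simp only [Pi.add_apply, Pi.single_eq_same, Pi.single_eq_of_ne e1, zero_add]
      push_cast
      ring

lemma mtDim_lt_iff : mtDim (m + 2) z < m + 4 ↔ LibZP33.RatRel z := by
  constructor
  · intro h
    by_contra h2
    rw [← ratRel_iff (m := m)] at h2
    have := le_mtDim_of_not_ratRel h2
    omega
  · intro h
    have := mtDim_le_of_ratRel (m := m) h
    omega

lemma genericMtDim_eq (m : ℕ) : genericMtDim (m + 2) = m + 4 := by
  apply le_antisymm
  · have : Nonempty {z : ℂ // z ≠ 0 ∧ z ≠ 1} := ⟨⟨2, by norm_num, by norm_num⟩⟩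
    exact ciSup_le fun z => mtDim_le_top m z
  · have h3 : m + 4 ≤ mtDim (m + 2) 3 := by
      apply le_mtDim_of_not_ratRel
      rw [ratRel_iff, ← multDep_iff (by norm_num) (by norm_num)]
      exact not_multDep_three
    have hb : BddAbove (range fun z : {z : ℂ // z ≠ 0 ∧ z ≠ 1} => mtDim (m + 2) z) := by
      refine ⟨m + 4, ?_⟩
      rintro _ ⟨z, rfl⟩
      exact mtDim_le_top m z
    have := le_ciSup hb ⟨3, by norm_num, by norm_num⟩
    exact h3.trans this

lemma mem_hodgeLocus_iff : z ∈ hodgeLocus (m + 2) ↔ z ≠ 0 ∧ z ≠ 1 ∧ MultDep z := by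
  unfold hodgeLocus
  rw [Set.mem_ofPred_eq, genericMtDim_eq, mtDim_lt_iff]
  constructor
  · rintro ⟨h0, h1, h⟩
    exact ⟨h0, h1, (multDep_iff h0 h1).2 h⟩
  · rintro ⟨h0, h1, h⟩
    exact ⟨h0, h1, (multDep_iff h0 h1).1 h⟩

lemma mem_atypicalLocus_iff :
    z ∈ atypicalLocus (m + 2) ↔ z ≠ 0 ∧ z ≠ 1 ∧ mtDim (m + 2) z ≤ m + 2 := by
  unfold atypicalLocus hodgeLocus
  rw [Set.mem_ofPred_eq, Set.mem_ofPred_eq, genericMtDim_eq]
  constructor
  · rintro ⟨⟨h0, h1, h2⟩, h3⟩
    exact ⟨h0, h1, by omega⟩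
  · rintro ⟨h0, h1, h2⟩
    exact ⟨⟨h0, h1, by omega⟩, by omega⟩

lemma omega_mem (m : ℕ) : omega ∈ atypicalLocus (m + 2) :=
  mem_atypicalLocus_iff.2 ⟨omega_ne_zero, omega_ne_one, mtDim_le_of_rational xx_omega yy_omega⟩

lemma conj_omega_mem (m : ℕ) : conj omega ∈ atypicalLocus (m + 2) :=
  mem_atypicalLocus_iff.2 ⟨conj_omega_ne_zero, conj_omega_ne_one,
    mtDim_le_of_rational xx_conj_omega yy_conj_omega⟩

/-- An atypical point with `y` irrational has vanishing Bloch-Wigner dilogarithm. -/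
lemma blochWigner_eq_zero (h : z ∈ atypicalLocus (m + 2)) (hy : ∀ s : ℚ, yy z ≠ s) :
    blochWigner z = 0 := by
  obtain ⟨p, q, r, α, β, hab, hw, hxy⟩ :=
    relations_of_mtDim_le (mem_atypicalLocus_iff.1 h).2.2 hy
  rw [wvec_one, wvec_zero] at hw
  rw [wvec_zero] at hxy
  have := blochWigner_eq_of_relations (κ := 0) hab hw hxy
  simpa using this

lemma blochWigner_ne_zero (h : z.im ≠ 0) : blochWigner z ≠ 0 := by
  rcases lt_or_gt_of_ne h with h1 | h1
  · have h2 : 0 < (conj z).im := by simpa using h1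
    have h3 := blochWigner_pos h2
    rw [blochWigner_conj h] at h3
    linarith
  · exact (blochWigner_pos h1).ne'

/-- A non-real atypical point is a root of unity with a rational normalised extension datum. -/
lemma of_nonreal_atypical (h : z ∈ atypicalLocus (m + 2)) (him : z.im ≠ 0) :
    (∃ s : ℚ, yy z = s) ∧ ∃ j, ∃ p : ℚ, lam (m + 2) z j = p := by
  have h1 : ∃ s : ℚ, yy z = s := by
    by_contra hcon
    push Not at hcon
    exact blochWigner_ne_zero him (blochWigner_eq_zero h hcon)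
  refine ⟨h1, ?_⟩
  by_contra hcon
  push Not at hcon
  obtain ⟨s, hs⟩ := h1
  have := le_mtDim_of_root hs hcon
  have := (mem_atypicalLocus_iff.1 h).2.2
  omega

end Pool.Agent.LibZP33.Poly
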