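import Mathlib

open Set Polynomial

namespace Pool.Agent.LibZP33.Poly

/-- elements lying in all valuation subrings are integral. -/
lemma isIntegral_of_forall_valuation {x : ℂ} (h : ∀ V : ValuationSubring ℂ, x ∈ V) :
    IsIntegral ℤ x := by
  have h1 : x ∈ (⨅ V : {V : ValuationSubring ℂ // (∅ : Set ℂ) ⊆ V.toSubring}, V.1.toSubring) := by
    rw [Subring.mem_iInf]
    intro V
    exact h V.1
  rw [iInf_valuationSubring_superset] at h1
  have h2 : IsIntegral (Subring.closure (∅ : Set ℂ)) x := h1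
  have h3 : Algebra.IsIntegral ℤ (Subring.closure (∅ : Set ℂ)) := by
    constructor
    intro y
    have hy : (y : ℂ) ∈ (⊥ : Subring ℂ) := (Subring.closure_le.2 (Set.empty_subset _)) y.2
    rw [Subring.mem_bot] at hy
    obtain ⟨n, hn⟩ := hy
    have : y = algebraMap ℤ _ n := by
      apply Subtype.ext
      rw [← hn]
      simp
    rw [this]
    exact isIntegral_algebraMap
  exact isIntegral_trans x h2

lemma zpow_ne_one_of_one_lt {Γ : Type*} [LinearOrderedCommGroupWithZero Γ] {x : Γ} (hx : 1 < x)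
    {k : ℤ} (hk : k ≠ 0) : x ^ k ≠ 1 := by
  rcases lt_or_gt_of_ne hk with h | h
  · exact (zpow_lt_one_of_neg₀ hx h).ne
  · exact (one_lt_zpow₀ hx h).ne'

lemma zpow_ne_one_of_lt_one {Γ : Type*} [LinearOrderedCommGroupWithZero Γ] {x : Γ} (h0 : 0 < x)
    (hx : x < 1) {k : ℤ} (hk : k ≠ 0) : x ^ k ≠ 1 := by
  have h1 : 1 < x⁻¹ := (one_lt_inv₀ h0).2 hx
  have h2 := zpow_ne_one_of_one_lt h1 hk
  intro h3
  apply h2
  rw [inv_zpow, h3, inv_one]

/-- at a solution of `w^a (1-w)^b = 1` with `a, b, a + b ≠ 0`, the numbers `w`, `w⁻¹`, `(1-w)⁻¹`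
are algebraic integers. -/
lemma integral_of_multDep {w : ℂ} (h0 : w ≠ 0) (h1 : w ≠ 1) {a b : ℤ} (ha : a ≠ 0) (hb : b ≠ 0)
    (hab : a + b ≠ 0) (h : w ^ a * (1 - w) ^ b = 1) :
    IsIntegral ℤ w ∧ IsIntegral ℤ w⁻¹ ∧ IsIntegral ℤ (1 - w)⁻¹ := by
  have h2 : 1 - w ≠ 0 := sub_ne_zero.2 h1.symm
  have key : ∀ V : ValuationSubring ℂ, V.valuation w = 1 ∧ V.valuation (1 - w) = 1 := by
    intro V
    have hv : V.valuation w ^ a * V.valuation (1 - w) ^ b = 1 := by
      rw [← map_zpow₀, ← map_zpow₀, ← map_mul, h, map_one]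
    have hw0 : 0 < V.valuation w := zero_lt_iff.2 ((Valuation.ne_zero_iff _).2 h0)
    have hw1 : 0 < V.valuation (1 - w) := zero_lt_iff.2 ((Valuation.ne_zero_iff _).2 h2)
    have e1 : V.valuation w ≤ 1 := by
      by_contra hcon
      push Not at hcon
      have e : V.valuation (1 - w) = V.valuation w := by
        exact Valuation.map_sub_eq_of_lt_right V.valuation (by rw [map_one]; exact hcon)
      rw [e, ← zpow_add₀ hw0.ne'] at hv
      exact zpow_ne_one_of_one_lt hcon hab hv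
    have e2 : V.valuation w = 1 := by
      by_contra hcon
      have hlt : V.valuation w < 1 := lt_of_le_of_ne e1 hcon
      have e : V.valuation (1 - w) = 1 := by
        have := Valuation.map_one_sub_of_lt V.valuation hlt
        exact this
      rw [e, one_zpow, mul_one] at hv
      exact zpow_ne_one_of_lt_one hw0 hlt ha hv
    refine ⟨e2, ?_⟩
    rw [e2, one_zpow, one_mul] at hv
    by_contra hcon
    rcases lt_or_gt_of_ne hcon with h3 | h3
    · exact zpow_ne_one_of_lt_one hw1 h3 hb hv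
    · exact zpow_ne_one_of_one_lt h3 hb hv
  refine ⟨?_, ?_, ?_⟩
  · apply isIntegral_of_forall_valuation
    intro V
    rw [← ValuationSubring.valuation_le_one_iff, (key V).1]
  · apply isIntegral_of_forall_valuation
    intro V
    rw [← ValuationSubring.valuation_le_one_iff, map_inv₀, (key V).1, inv_one]
  · apply isIntegral_of_forall_valuation
    intro V
    rw [← ValuationSubring.valuation_le_one_iff, map_inv₀, (key V).2, inv_one]

/-- the logarithm vector determines a point of `(0,1)` up to proportionality. -/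
lemma eq_of_rel {A B u v : ℝ} (hAB : (A, B) ≠ (0, 0)) (hu : u ∈ Ioo (0:ℝ) 1)
    (hv : v ∈ Ioo (0:ℝ) 1) (h1 : A * Real.log u + B * Real.log (1 - u) = 0)
    (h2 : A * Real.log v + B * Real.log (1 - v) = 0) : u = v := by
  have key : ∀ {u v : ℝ}, u ∈ Ioo (0:ℝ) 1 → v ∈ Ioo (0:ℝ) 1 → u < v →
      A * Real.log u + B * Real.log (1 - u) = 0 → A * Real.log v + B * Real.log (1 - v) = 0 →
      False := by
    intro u v hu hv huv h1 h2
    have l1 : Real.log u < Real.log v := Real.log_lt_log hu.1 huv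
    have l2 : Real.log v < 0 := Real.log_neg hv.1 hv.2
    have l3 : Real.log (1 - v) < Real.log (1 - u) := Real.log_lt_log (by linarith [hv.2]) (by linarith)
    have l4 : Real.log (1 - u) < 0 := Real.log_neg (by linarith [hu.2]) (by linarith [hu.1])
    have hc : Real.log v * Real.log (1 - u) < Real.log u * Real.log (1 - v) := by
      have g1 : -Real.log v < -Real.log u := by linarith
      have g2 : -Real.log (1 - u) < -Real.log (1 - v) := by linarith
      have := mul_lt_mul'' g1 g2 (by linarith) (by linarith)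
      simpa using this
    have e1 : A * (Real.log u * Real.log (1 - v) - Real.log v * Real.log (1 - u)) = 0 := by
      linear_combination Real.log (1 - v) * h1 - Real.log (1 - u) * h2
    have e2 : B * (Real.log u * Real.log (1 - v) - Real.log v * Real.log (1 - u)) = 0 := by
      linear_combination Real.log u * h2 - Real.log v * h1
    have hne : Real.log u * Real.log (1 - v) - Real.log v * Real.log (1 - u) ≠ 0 := by linarith
    apply hAB
    rw [Prod.mk.injEq]
    exact ⟨(mul_eq_zero.1 e1).resolve_right hne, (mul_eq_zero.1 e2).resolve_right hne⟩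
  rcases lt_trichotomy u v with h | h | h
  · exact (key hu hv h h1 h2).elim
  · exact h
  · exact (key hv hu h h2 h1).elim

lemma opp_of_rel {A B u : ℝ} (hAB : (A, B) ≠ (0, 0)) (hu : u ∈ Ioo (0:ℝ) 1)
    (h1 : A * Real.log u + B * Real.log (1 - u) = 0) : A * B < 0 := by
  have l1 : Real.log u < 0 := Real.log_neg hu.1 hu.2
  have l2 : Real.log (1 - u) < 0 := Real.log_neg (by linarith [hu.2]) (by linarith [hu.1])
  by_cases hB : B = 0
  · exfalso
    rw [hB, zero_mul, add_zero] at h1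
    apply hAB
    rw [Prod.mk.injEq]
    exact ⟨(mul_eq_zero.1 h1).resolve_right l1.ne, hB⟩
  · have hB2 : 0 < B * B := mul_self_pos.2 hB
    have h3 : 0 < (A * B) * Real.log u := by
      have e : (A * B) * Real.log u = (B * B) * (- Real.log (1 - u)) := by
        linear_combination B * h1
      rw [e]
      exact mul_pos hB2 (by linarith)
    by_contra hge
    push Not at hge
    have := mul_nonpos_of_nonneg_of_nonpos hge l1.le
    linarith

/-- logarithmic relation of a real number. -/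
def LogRel (a b t : ℝ) : Prop := a * Real.log |t| + b * Real.log |1 - t| = 0

lemma rel_neg {a b t : ℝ} (ht : t < 0) (h : LogRel a b t) :
    ∃ u ∈ Ioo (0:ℝ) 1, t = 1 - u⁻¹ ∧ -(a + b) * Real.log u + a * Real.log (1 - u) = 0 := by
  have h1 : 0 < 1 - t := by linarith
  refine ⟨(1 - t)⁻¹, ⟨by positivity, inv_lt_one_of_one_lt₀ (by linarith)⟩, ?_, ?_⟩
  · rw [inv_inv]; ring
  · unfold LogRel at h
    have e1 : 1 - (1 - t)⁻¹ = (-t) / (1 - t) := by field_simp; ring
    rw [e1, Real.log_inv, Real.log_div (by linarith) h1.ne']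
    rw [abs_of_neg ht, abs_of_pos h1] at h
    linarith

lemma rel_mid {a b t : ℝ} (ht : t ∈ Ioo (0:ℝ) 1) (h : LogRel a b t) :
    a * Real.log t + b * Real.log (1 - t) = 0 := by
  unfold LogRel at h
  rwa [abs_of_pos ht.1, abs_of_pos (by linarith [ht.2])] at h

lemma rel_gt {a b t : ℝ} (ht : 1 < t) (h : LogRel a b t) :
    ∃ u ∈ Ioo (0:ℝ) 1, t = u⁻¹ ∧ -(a + b) * Real.log u + b * Real.log (1 - u) = 0 := by
  have h0 : 0 < t := by linarith
  refine ⟨t⁻¹, ⟨by positivity, inv_lt_one_of_one_lt₀ ht⟩, ?_, ?_⟩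
  · rw [inv_inv]
  · unfold LogRel at h
    have e1 : 1 - t⁻¹ = (t - 1) / t := by field_simp
    rw [e1, Real.log_inv, Real.log_div (by linarith) h0.ne']
    rw [abs_of_pos h0, abs_of_neg (by linarith : 1 - t < 0)] at h
    have e2 : -(1 - t) = t - 1 := by ring
    rw [e2] at h
    linarith

/-- a nontrivial logarithmic relation has at most two real solutions. -/
lemma two_of_three {a b t₁ t₂ t₃ : ℝ} (hab : (a, b) ≠ (0, 0))
    (h10 : t₁ ≠ 0) (h11 : t₁ ≠ 1) (h20 : t₂ ≠ 0) (h21 : t₂ ≠ 1) (h30 : t₃ ≠ 0) (h31 : t₃ ≠ 1)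
    (r1 : LogRel a b t₁) (r2 : LogRel a b t₂) (r3 : LogRel a b t₃) :
    t₁ = t₂ ∨ t₁ = t₃ ∨ t₂ = t₃ := by
  have hn : (-(a + b), a) ≠ (0, 0) := by
    intro h
    rw [Prod.mk.injEq] at h
    apply hab
    rw [Prod.mk.injEq]
    exact ⟨h.2, by linarith [h.1, h.2]⟩
  have hg : (-(a + b), b) ≠ (0, 0) := by
    intro h
    rw [Prod.mk.injEq] at h
    apply hab
    rw [Prod.mk.injEq]
    exact ⟨by linarith [h.1, h.2], h.2⟩
  -- two points in the same interval agree
  have en : ∀ {s t : ℝ}, s < 0 → t < 0 → LogRel a b s → LogRel a b t → s = t := by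
    intro s t hs ht rs rt
    obtain ⟨u, hu, e1, e2⟩ := rel_neg hs rs
    obtain ⟨v, hv, f1, f2⟩ := rel_neg ht rt
    rw [e1, f1, eq_of_rel hn hu hv e2 f2]
  have em : ∀ {s t : ℝ}, s ∈ Ioo (0:ℝ) 1 → t ∈ Ioo (0:ℝ) 1 → LogRel a b s → LogRel a b t →
      s = t := by
    intro s t hs ht rs rt
    exact eq_of_rel hab hs ht (rel_mid hs rs) (rel_mid ht rt)
  have eg : ∀ {s t : ℝ}, 1 < s → 1 < t → LogRel a b s → LogRel a b t → s = t := by
    intro s t hs ht rs rt
    obtain ⟨u, hu, e1, e2⟩ := rel_gt hs rs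
    obtain ⟨v, hv, f1, f2⟩ := rel_gt ht rt
    rw [e1, f1, eq_of_rel hg hu hv e2 f2]
  -- the three intervals are not all occupied
  have hno : ∀ {x y z : ℝ}, x < 0 → y ∈ Ioo (0:ℝ) 1 → 1 < z → LogRel a b x → LogRel a b y →
      LogRel a b z → False := by
    intro x y z hx hy hz rx ry rz
    obtain ⟨u, hu, _, e2⟩ := rel_neg hx rx
    obtain ⟨v, hv, _, f2⟩ := rel_gt hz rz
    have o1 := opp_of_rel hn hu e2
    have o2 := opp_of_rel hg hv f2
    have o3 := opp_of_rel hab hy (rel_mid hy ry)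
    nlinarith [mul_pos_of_neg_of_neg o1 o2, sq_nonneg (a + b)]
  rcases lt_trichotomy t₁ 0 with a1 | a1 | a1
  · rcases lt_trichotomy t₂ 0 with a2 | a2 | a2
    · exact Or.inl (en a1 a2 r1 r2)
    · exact absurd a2 h20
    · rcases lt_trichotomy t₃ 0 with a3 | a3 | a3
      · exact Or.inr (Or.inl (en a1 a3 r1 r3))
      · exact absurd a3 h30
      · rcases lt_or_gt_of_ne h21 with b2 | b2
        · rcases lt_or_gt_of_ne h31 with b3 | b3
          · exact Or.inr (Or.inr (em ⟨a2, b2⟩ ⟨a3, b3⟩ r2 r3))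
          · exact (hno a1 ⟨a2, b2⟩ b3 r1 r2 r3).elim
        · rcases lt_or_gt_of_ne h31 with b3 | b3
          · exact (hno a1 ⟨a3, b3⟩ b2 r1 r3 r2).elim
          · exact Or.inr (Or.inr (eg b2 b3 r2 r3))
  · exact absurd a1 h10
  · rcases lt_trichotomy t₂ 0 with a2 | a2 | a2
    · rcases lt_trichotomy t₃ 0 with a3 | a3 | a3
      · exact Or.inr (Or.inr (en a2 a3 r2 r3))
      · exact absurd a3 h30
      · rcases lt_or_gt_of_ne h11 with b1 | b1
        · rcases lt_or_gt_of_ne h31 with b3 | b3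
          · exact Or.inr (Or.inl (em ⟨a1, b1⟩ ⟨a3, b3⟩ r1 r3))
          · exact (hno a2 ⟨a1, b1⟩ b3 r2 r1 r3).elim
        · rcases lt_or_gt_of_ne h31 with b3 | b3
          · exact (hno a2 ⟨a3, b3⟩ b1 r2 r3 r1).elim
          · exact Or.inr (Or.inl (eg b1 b3 r1 r3))
    · exact absurd a2 h20
    · rcases lt_trichotomy t₃ 0 with a3 | a3 | a3
      · rcases lt_or_gt_of_ne h11 with b1 | b1
        · rcases lt_or_gt_of_ne h21 with b2 | b2
          · exact Or.inl (em ⟨a1, b1⟩ ⟨a2, b2⟩ r1 r2)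
          · exact (hno a3 ⟨a1, b1⟩ b2 r3 r1 r2).elim
        · rcases lt_or_gt_of_ne h21 with b2 | b2
          · exact (hno a3 ⟨a2, b2⟩ b1 r3 r2 r1).elim
          · exact Or.inl (eg b1 b2 r1 r2)
      · exact absurd a3 h30
      · rcases lt_or_gt_of_ne h11 with b1 | b1
        · rcases lt_or_gt_of_ne h21 with b2 | b2
          · exact Or.inl (em ⟨a1, b1⟩ ⟨a2, b2⟩ r1 r2)
          · rcases lt_or_gt_of_ne h31 with b3 | b3
            · exact Or.inr (Or.inl (em ⟨a1, b1⟩ ⟨a3, b3⟩ r1 r3))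
            · exact Or.inr (Or.inr (eg b2 b3 r2 r3))
        · rcases lt_or_gt_of_ne h21 with b2 | b2
          · rcases lt_or_gt_of_ne h31 with b3 | b3
            · exact Or.inr (Or.inr (em ⟨a2, b2⟩ ⟨a3, b3⟩ r2 r3))
            · exact Or.inr (Or.inl (eg b1 b3 r1 r3))
          · exact Or.inl (eg b1 b2 r1 r2)

end Pool.Agent.LibZP33.Poly
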