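import Mathlib
import Pool.Agent.LibZP33.RealDep
import Pool.Agent.LibZP33.DilogLocus

open Set Polynomial Complex

namespace Pool.Agent.LibZP33.Poly

/-- the polynomial of a multiplicative relation. -/
noncomputable def relPoly (a b : ℤ) : Polynomial ℚ :=
  X ^ a.toNat * (1 - X) ^ b.toNat - X ^ (-a).toNat * (1 - X) ^ (-b).toNat

lemma relPoly_iff {a b : ℤ} {w : ℂ} (h0 : w ≠ 0) (h1 : w ≠ 1) :
    aeval w (relPoly a b) = 0 ↔ w ^ a * (1 - w) ^ b = 1 := by
  have h2 : 1 - w ≠ 0 := sub_ne_zero.2 h1.symm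
  have ea : w ^ a = w ^ a.toNat / w ^ (-a).toNat := by
    rw [← zpow_natCast, ← zpow_natCast, ← zpow_sub₀ h0]
    congr 1
    omega
  have eb : (1 - w) ^ b = (1 - w) ^ b.toNat / (1 - w) ^ (-b).toNat := by
    rw [← zpow_natCast, ← zpow_natCast, ← zpow_sub₀ h2]
    congr 1
    omega
  have h3 : w ^ (-a).toNat ≠ 0 := pow_ne_zero _ h0
  have h4 : (1 - w) ^ (-b).toNat ≠ 0 := pow_ne_zero _ h2
  rw [ea, eb, div_mul_div_comm, div_eq_one_iff_eq (mul_ne_zero h3 h4)]
  simp [relPoly, sub_eq_zero]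

lemma logRel_of_mul {a b : ℤ} {w : ℂ} (him : w.im = 0) (h0 : w ≠ 0) (h1 : w ≠ 1)
    (h : w ^ a * (1 - w) ^ b = 1) : LogRel a b w.re := by
  have hw : w = ((w.re : ℝ) : ℂ) := by apply Complex.ext <;> simp [him]
  have h2 : 1 - w ≠ 0 := sub_ne_zero.2 h1.symm
  have hn : ‖w‖ ^ a * ‖1 - w‖ ^ b = 1 := by
    rw [← norm_zpow, ← norm_zpow, ← norm_mul, h, norm_one]
  have hl := congrArg Real.log hn
  rw [Real.log_mul (zpow_ne_zero _ (norm_ne_zero_iff.2 h0))
    (zpow_ne_zero _ (norm_ne_zero_iff.2 h2)), Real.log_zpow, Real.log_zpow, Real.log_one] at hl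
  have e1 : ‖w‖ = |w.re| := by
    conv_lhs => rw [hw]
    rw [Complex.norm_real, Real.norm_eq_abs]
  have e2 : ‖1 - w‖ = |1 - w.re| := by
    conv_lhs => rw [hw]
    rw [show (1 : ℂ) - ((w.re : ℝ) : ℂ) = ((1 - w.re : ℝ) : ℂ) by push_cast; ring,
      Complex.norm_real, Real.norm_eq_abs]
  rw [e1, e2] at hl
  exact hl

lemma int_of_isIntegral {q : ℚ} (h : IsIntegral ℤ (q : ℂ)) : ∃ n : ℤ, q = n := by
  have h1 : IsIntegral ℤ (algebraMap ℚ ℂ q) := h
  rw [isIntegral_algebraMap_iff (algebraMap ℚ ℂ).injective] at h1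
  obtain ⟨n, hn⟩ := IsIntegrallyClosed.isIntegral_iff.1 h1
  exact ⟨n, hn.symm⟩

lemma unit_int {n : ℤ} (h0 : n ≠ 0) (h : IsIntegral ℤ ((n : ℂ))⁻¹) : n = 1 ∨ n = -1 := by
  have h1 : ((n : ℂ))⁻¹ = (((n : ℚ)⁻¹ : ℚ) : ℂ) := by push_cast; rfl
  rw [h1] at h
  obtain ⟨m, hm⟩ := int_of_isIntegral h
  have hn : (n : ℚ) ≠ 0 := by exact_mod_cast h0
  have : (n : ℚ) * m = 1 := by rw [← hm]; exact mul_inv_cancel₀ hn
  have h2 : n * m = 1 := by exact_mod_cast this
  exact Int.eq_one_or_neg_one_of_mul_eq_one h2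

/-- the roots of the minimal polynomial satisfy the same multiplicative relation. -/
lemma conj_rel {a b : ℤ} {z : ℂ} (hz : IsIntegral ℚ z) (h0 : z ≠ 0) (h1 : z ≠ 1)
    (h : z ^ a * (1 - z) ^ b = 1) {w : ℂ} (hw : aeval w (minpoly ℚ z) = 0) :
    w ≠ 0 ∧ w ≠ 1 ∧ w ^ a * (1 - w) ^ b = 1 := by
  have w0 : w ≠ 0 := by
    rintro rfl
    have : (minpoly ℚ z).IsRoot 0 := by
      have e : aeval (algebraMap ℚ ℂ 0) (minpoly ℚ z) = algebraMap ℚ ℂ ((minpoly ℚ z).eval 0) :=
        Polynomial.aeval_algebraMap_apply_eq_algebraMap_eval _ _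
      rw [map_zero, hw] at e
      exact (map_eq_zero _).1 e.symm
    have := minpoly.root hz this
    exact h0 (by rw [← this, map_zero])
  have w1 : w ≠ 1 := by
    rintro rfl
    have : (minpoly ℚ z).IsRoot 1 := by
      have e : aeval (algebraMap ℚ ℂ 1) (minpoly ℚ z) = algebraMap ℚ ℂ ((minpoly ℚ z).eval 1) :=
        Polynomial.aeval_algebraMap_apply_eq_algebraMap_eval _ _
      rw [map_one, hw] at e
      exact (map_eq_zero _).1 e.symm
    have := minpoly.root hz this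
    exact h1 (by rw [← this, map_one])
  refine ⟨w0, w1, ?_⟩
  rw [← relPoly_iff w0 w1]
  rw [← relPoly_iff h0 h1] at h
  obtain ⟨R, hR⟩ := minpoly.dvd ℚ z h
  rw [hR, map_mul, hw, zero_mul]

/-- a totally real number `z` with `z`, `1 - z` multiplicatively dependent has degree at most
two. -/
lemma natDegree_le_two {a b : ℤ} (hab : (a, b) ≠ (0, 0)) {z : ℂ} (hz : IsIntegral ℚ z)
    (h0 : z ≠ 0) (h1 : z ≠ 1) (h : z ^ a * (1 - z) ^ b = 1)
    (hreal : ∀ w : ℂ, aeval w (minpoly ℚ z) = 0 → w.im = 0) : (minpoly ℚ z).natDegree ≤ 2 := by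
  classical
  by_contra hcon
  push Not at hcon
  have hcard := card_rootSet_eq_natDegree (F := ℚ) (K := ℂ) (p := minpoly ℚ z)
    (minpoly.irreducible hz).separable (IsAlgClosed.splits _)
  have h3 : 2 < ((minpoly ℚ z).rootSet ℂ).toFinset.card := by
    rw [Set.toFinset_card, hcard]
    exact hcon
  rw [Finset.two_lt_card] at h3
  obtain ⟨x, hx, y, hy, t, ht, hxy, hxt, hyt⟩ := h3
  simp only [Set.mem_toFinset] at hx hy ht
  have hab' : ((a : ℝ), (b : ℝ)) ≠ (0, 0) := by
    intro h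
    rw [Prod.mk.injEq] at h
    apply hab
    rw [Prod.mk.injEq]
    exact ⟨by exact_mod_cast h.1, by exact_mod_cast h.2⟩
  have key : ∀ w ∈ (minpoly ℚ z).rootSet ℂ, w.im = 0 ∧ w.re ≠ 0 ∧ w.re ≠ 1 ∧
      LogRel a b w.re := by
    intro w hw
    have hw' : aeval w (minpoly ℚ z) = 0 := (mem_rootSet.1 hw).2
    obtain ⟨w0, w1, hr⟩ := conj_rel hz h0 h1 h hw'
    have him := hreal w hw'
    refine ⟨him, ?_, ?_, logRel_of_mul him w0 w1 hr⟩
    · intro h
      exact w0 (Complex.ext h him)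
    · intro h
      exact w1 (Complex.ext h him)
  obtain ⟨ix, x0, x1, rx⟩ := key x hx
  obtain ⟨iy, y0, y1, ry⟩ := key y hy
  obtain ⟨it, t0, t1, rt⟩ := key t ht
  rcases two_of_three hab' x0 x1 y0 y1 t0 t1 rx ry rt with h | h | h
  · exact hxy (Complex.ext h (ix.trans iy.symm))
  · exact hxt (Complex.ext h (ix.trans it.symm))
  · exact hyt (Complex.ext h (iy.trans it.symm))

/-- the nine real exceptional numbers. -/
def nine : Set ℂ := {(-1 : ℂ), 2, 1 / 2, (((3 + √5) / 2 : ℝ) : ℂ), (((3 - √5) / 2 : ℝ) : ℂ),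
  (((1 + √5) / 2 : ℝ) : ℂ), (((1 - √5) / 2 : ℝ) : ℂ), (((-1 + √5) / 2 : ℝ) : ℂ),
  (((-1 - √5) / 2 : ℝ) : ℂ)}

lemma mem_nine_of_quadratic {x T N : ℝ} (hx : x ^ 2 - T * x + N = 0)
    (h : (N = 1 ∧ T = 3) ∨ (N = -1 ∧ (T = 1 ∨ T = -1))) : (x : ℂ) ∈ nine := by
  have h5 : √5 ^ 2 = 5 := Real.sq_sqrt (by norm_num)
  rcases h with ⟨rfl, rfl⟩ | ⟨rfl, rfl | rfl⟩
  · have : (x - (3 + √5) / 2) * (x - (3 - √5) / 2) = 0 := by nlinarith
    rcases mul_eq_zero.1 this with h | h
    · have : x = (3 + √5) / 2 := by linarith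
      rw [this]; simp [nine]
    · have : x = (3 - √5) / 2 := by linarith
      rw [this]; simp [nine]
  · have : (x - (1 + √5) / 2) * (x - (1 - √5) / 2) = 0 := by nlinarith
    rcases mul_eq_zero.1 this with h | h
    · have : x = (1 + √5) / 2 := by linarith
      rw [this]; simp [nine]
    · have : x = (1 - √5) / 2 := by linarith
      rw [this]; simp [nine]
  · have : (x - (-1 + √5) / 2) * (x - (-1 - √5) / 2) = 0 := by nlinarith
    rcases mul_eq_zero.1 this with h | h
    · have : x = (-1 + √5) / 2 := by linarith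
      rw [this]; simp [nine]
    · have : x = (-1 - √5) / 2 := by linarith
      rw [this]; simp [nine]

lemma aeval_quadratic {p : Polynomial ℚ} (hm : p.Monic) (hd : p.natDegree = 2) (w : ℂ) :
    aeval w p = w ^ 2 + (p.coeff 1 : ℂ) * w + (p.coeff 0 : ℂ) := by
  rw [Polynomial.aeval_eq_sum_range, hd, Finset.sum_range_succ, Finset.sum_range_succ,
    Finset.sum_range_one]
  have : p.coeff 2 = 1 := by rw [← hd]; exact hm
  rw [this]
  simp only [Algebra.smul_def, eq_ratCast]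
  push_cast
  ring

/-- **Totally real solutions.** -/
lemma totally_real {z : ℂ} (h0 : z ≠ 0) (h1 : z ≠ 1) (hd : MultDep z)
    (hreal : ∀ w : ℂ, aeval w (minpoly ℚ z) = 0 → w.im = 0) : z ∈ nine := by
  have hz : IsIntegral ℚ z := (isAlgebraic_of_multDep h0 h1 hd).isIntegral
  obtain ⟨a, b, hab, h⟩ := hd
  have him : z.im = 0 := hreal z (minpoly.aeval ℚ z)
  have hzr : z = ((z.re : ℝ) : ℂ) := by apply Complex.ext <;> simp [him]
  have hl := logRel_of_mul him h0 h1 h
  have r0 : z.re ≠ 0 := fun h => h0 (Complex.ext h him)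
  have r1 : z.re ≠ 1 := fun h => h1 (Complex.ext h him)
  have hnine1 : z.re = -1 → z ∈ nine := by
    intro h
    rw [hzr, h]; simp [nine]
  have hnine2 : z.re = 2 → z ∈ nine := by
    intro h
    rw [hzr, h]; simp [nine]
  have hnine3 : z.re = 1 / 2 → z ∈ nine := by
    intro h
    rw [hzr, h]; simp [nine]
  have labs : ∀ {x : ℝ}, x ≠ 0 → Real.log |x| = 0 → x = 1 ∨ x = -1 := by
    intro x hx hx'
    have := Real.eq_one_of_pos_of_log_eq_zero (abs_pos.2 hx) hx'
    exact eq_or_eq_neg_of_abs_eq this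
  unfold LogRel at hl
  by_cases ha : a = 0
  · have hb : b ≠ 0 := fun hb => hab (by rw [ha, hb])
    have hb' : (b : ℝ) ≠ 0 := by exact_mod_cast hb
    rw [ha] at hl
    simp only [Int.cast_zero, zero_mul, zero_add] at hl
    have h2 := (mul_eq_zero.1 hl).resolve_left hb'
    rcases labs (sub_ne_zero.2 r1.symm) h2 with h3 | h3
    · exact absurd (by linarith) r0
    · exact hnine2 (by linarith)
  by_cases hb : b = 0
  · have ha' : (a : ℝ) ≠ 0 := by exact_mod_cast ha
    rw [hb] at hl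
    simp only [Int.cast_zero, zero_mul, add_zero] at hl
    have h2 := (mul_eq_zero.1 hl).resolve_left ha'
    rcases labs r0 h2 with h3 | h3
    · exact absurd h3 r1
    · exact hnine1 h3
  by_cases hc : a + b = 0
  · have ha' : (a : ℝ) ≠ 0 := by exact_mod_cast ha
    have hb2 : (b : ℝ) = - a := by
      have : b = -a := by omega
      rw [this]; push_cast; ring
    rw [hb2] at hl
    have h2 : (a : ℝ) * (Real.log |z.re| - Real.log |1 - z.re|) = 0 := by linarith
    have h3 := (mul_eq_zero.1 h2).resolve_left ha'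
    have h4 : |z.re| = |1 - z.re| := by
      apply Real.log_injOn_pos (Set.mem_Ioi.2 (abs_pos.2 r0))
        (Set.mem_Ioi.2 (abs_pos.2 (sub_ne_zero.2 r1.symm)))
      linarith
    rcases abs_eq_abs.1 h4 with h5 | h5
    · exact hnine3 (by linarith)
    · exfalso; linarith
  -- generic case: units
  have hunit : ∀ w : ℂ, aeval w (minpoly ℚ z) = 0 →
      w ≠ 0 ∧ w ≠ 1 ∧ IsIntegral ℤ w ∧ IsIntegral ℤ w⁻¹ ∧ IsIntegral ℤ (1 - w)⁻¹ := by
    intro w hw
    obtain ⟨w0, w1, hr⟩ := conj_rel hz h0 h1 h hw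
    obtain ⟨i1, i2, i3⟩ := integral_of_multDep w0 w1 ha hb hc hr
    exact ⟨w0, w1, i1, i2, i3⟩
  have hdeg := natDegree_le_two hab hz h0 h1 h hreal
  have hpos := minpoly.natDegree_pos hz
  have hmon := minpoly.monic hz
  obtain ⟨_, _, i1, i2, i3⟩ := hunit z (minpoly.aeval ℚ z)
  rcases Nat.lt_or_ge (minpoly ℚ z).natDegree 2 with h2 | h2
  · -- degree one
    have hdeg1 : (minpoly ℚ z).natDegree = 1 := by omega
    have e := minpoly.aeval ℚ z
    rw [hmon.eq_X_add_C hdeg1] at e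
    simp only [map_add, aeval_X, aeval_C, eq_ratCast] at e
    have hq : z = ((-(minpoly ℚ z).coeff 0 : ℚ) : ℂ) := by
      push_cast
      linear_combination e
    rw [hq] at i1
    obtain ⟨n, hn⟩ := int_of_isIntegral i1
    rw [hn] at hq
    have hq' : z = (n : ℂ) := by rw [hq]; push_cast; rfl
    have n0 : n ≠ 0 := by
      rintro rfl
      apply h0
      rw [hq']; simp
    rw [hq'] at i2 i3
    rcases unit_int n0 i2 with h3 | h3
    · exfalso
      apply h1
      rw [hq', h3]; simp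
    · have : (1 - n) ≠ 0 := by omega
      have e2 : ((1 : ℂ) - (n : ℂ)) = ((1 - n : ℤ) : ℂ) := by push_cast; ring
      rw [e2] at i3
      rcases unit_int this i3 with h4 | h4 <;> omega
  · -- degree two
    have hdeg2 : (minpoly ℚ z).natDegree = 2 := by omega
    set s := (minpoly ℚ z).coeff 1 with hs
    set c := (minpoly ℚ z).coeff 0 with hc0
    have e := minpoly.aeval ℚ z
    rw [aeval_quadratic hmon hdeg2, ← hs, ← hc0] at e
    set w : ℂ := - s - z with hw
    have ew : aeval w (minpoly ℚ z) = 0 := by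
      rw [aeval_quadratic hmon hdeg2, ← hs, ← hc0, hw]
      linear_combination e
    obtain ⟨w0, w1, j1, j2, j3⟩ := hunit w ew
    have hsum : z + w = ((-s : ℚ) : ℂ) := by rw [hw]; push_cast; ring
    have hprod : z * w = (c : ℂ) := by rw [hw]; linear_combination (-1 : ℂ) * e
    have k1 : IsIntegral ℤ ((-s : ℚ) : ℂ) := by rw [← hsum]; exact i1.add j1
    have k2 : IsIntegral ℤ (c : ℂ) := by rw [← hprod]; exact i1.mul j1
    obtain ⟨T, hT⟩ := int_of_isIntegral k1
    obtain ⟨N, hN⟩ := int_of_isIntegral k2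
    have hN' : z * w = (N : ℂ) := by rw [hprod, hN]; push_cast; rfl
    have hT' : z + w = (T : ℂ) := by rw [hsum, hT]; push_cast; rfl
    have N0 : N ≠ 0 := by
      rintro rfl
      rw [Int.cast_zero] at hN'
      rcases mul_eq_zero.1 hN' with h3 | h3
      · exact h0 h3
      · exact w0 h3
    have kN : IsIntegral ℤ ((N : ℂ))⁻¹ := by
      rw [← hN', mul_inv]; exact i2.mul j2
    have hM' : (1 - z) * (1 - w) = ((1 - T + N : ℤ) : ℂ) := by
      push_cast
      rw [← hN', ← hT']; ring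
    have M0 : 1 - T + N ≠ 0 := by
      intro h3
      rw [h3, Int.cast_zero] at hM'
      rcases mul_eq_zero.1 hM' with h3 | h3
      · exact h1 (sub_eq_zero.1 h3).symm
      · exact w1 (sub_eq_zero.1 h3).symm
    have kM : IsIntegral ℤ (((1 - T + N : ℤ) : ℂ))⁻¹ := by
      rw [← hM', mul_inv]; exact i3.mul j3
    have hquad : z.re ^ 2 - T * z.re + N = 0 := by
      have e3 : z ^ 2 - (T : ℂ) * z + (N : ℂ) = 0 := by
        rw [← hT', ← hN']; ring
      rw [hzr] at e3
      exact_mod_cast e3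
    rw [hzr]
    rcases unit_int N0 kN with h3 | h3
    · rcases unit_int M0 kM with h4 | h4
      · exfalso
        have hT1 : T = 1 := by omega
        rw [h3, hT1] at hquad
        push_cast at hquad
        nlinarith [sq_nonneg (z.re - 1 / 2)]
      · have hT3 : T = 3 := by omega
        rw [h3, hT3] at hquad
        push_cast at hquad
        exact mem_nine_of_quadratic hquad (Or.inl ⟨rfl, rfl⟩)
    · rcases unit_int M0 kM with h4 | h4
      · have hT1 : T = -1 := by omega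
        rw [h3, hT1] at hquad
        push_cast at hquad
        exact mem_nine_of_quadratic hquad (Or.inr ⟨rfl, Or.inr rfl⟩)
      · have hT1 : T = 1 := by omega
        rw [h3, hT1] at hquad
        push_cast at hquad
        exact mem_nine_of_quadratic hquad (Or.inr ⟨rfl, Or.inl rfl⟩)

end Pool.Agent.LibZP33.Poly
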