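import Mathlib
import Pool.Agent.LibZP33.DilogBeyond
import Pool.Agent.LibZP33.PolylogLocus
import Pool.Agent.LibZP33.TotallyReal

open Complex Set

namespace Pool.Agent.LibZP33.Poly

variable {m : ℕ}

lemma atyp_of_data {z : ℂ} (h0 : z ≠ 0) (h1 : z ≠ 1) {Λ : ℝ} {p q r α β : ℚ}
    (hl : Complex.log z = 2 * Real.pi * I * r + β * Λ)
    (hl1 : Complex.log (1 - z) = - (2 * Real.pi * I * p + α * Λ))
    (hd : dilog z = -2 * Real.pi ^ 2 * (q + r * p) + 2 * Real.pi * I * β * p * Λ +
      α * β * Λ ^ 2 / 2) : z ∈ atypicalLocus (m + 2) := by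
  rw [mem_atypicalLocus_iff]
  refine ⟨h0, h1, ?_⟩
  have hpi := two_pi_I_ne
  have hpi' : (Real.pi : ℂ) ≠ 0 := by exact_mod_cast Real.pi_ne_zero
  apply mtDim_le_of_relation (p := p) (q := q) (r := r) (α := α) (β := β)
    (c := Λ / (2 * Real.pi * I))
  · rw [LibZP33.xx, hl1]
    field_simp
  · rw [LibZP33.yy, hl]
    field_simp
  · rw [LibZP33.ww, hl, hl1, hd]
    have hI : (I : ℂ) ^ 2 = -1 := I_sq
    have e : (2 * Real.pi * I : ℂ) ^ 2 = -4 * Real.pi ^ 2 := by rw [mul_pow, hI]; ring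
    have hI3 : (I : ℂ) ^ 3 = -I := by rw [pow_succ, hI]; ring
    rw [e]
    field_simp
    ring_nf
    simp only [hI3, hI]
    ring

lemma log_neg_real {x : ℝ} (hx : 0 < x) : Complex.log ((-x : ℝ) : ℂ) = Real.log x + Real.pi * I := by
  apply Complex.ext
  · rw [Complex.log_re, Complex.norm_real, Real.norm_eq_abs, abs_neg, abs_of_pos hx]
    simp
  · rw [Complex.log_im, Complex.arg_ofReal_of_neg (by linarith)]
    simp

lemma log_pos_real {x : ℝ} (hx : 0 < x) : Complex.log (x : ℂ) = Real.log x :=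
  (Complex.ofReal_log hx.le).symm

lemma mem_neg_one : (-1 : ℂ) ∈ atypicalLocus (m + 2) := by
  have e0 : (-1 : ℂ) = ((-1 : ℝ) : ℂ) := by push_cast; ring
  have e1 : (1 - (-1) : ℂ) = ((2 : ℝ) : ℂ) := by push_cast; ring
  apply atyp_of_data (Λ := Real.log 2) (p := 0) (q := 1 / 24) (r := 1 / 2) (α := -1) (β := 0)
  · norm_num
  · norm_num
  · rw [e0, log_neg_real one_pos, Real.log_one]
    push_cast
    ring
  · rw [e1, log_pos_real two_pos]
    push_cast
    ring
  · rw [e0, dilog_neg_one]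
    push_cast
    ring

lemma mem_half : (1 / 2 : ℂ) ∈ atypicalLocus (m + 2) := by
  have e0 : (1 / 2 : ℂ) = ((1 / 2 : ℝ) : ℂ) := by push_cast; ring
  have e1 : (1 - 1 / 2 : ℂ) = ((1 / 2 : ℝ) : ℂ) := by push_cast; ring
  have hl : Real.log (1 / 2) = - Real.log 2 := by rw [one_div, Real.log_inv]
  apply atyp_of_data (Λ := Real.log 2) (p := 0) (q := -1 / 24) (r := 0) (α := 1) (β := -1)
  · norm_num
  · norm_num
  · rw [e0, log_pos_real (by norm_num), hl]
    push_cast
    ring
  · rw [e1, log_pos_real (by norm_num), hl]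
    push_cast
    ring
  · rw [e0, dilog_half]
    push_cast
    ring

lemma mem_two : (2 : ℂ) ∈ atypicalLocus (m + 2) := by
  have e0 : (2 : ℂ) = ((2 : ℝ) : ℂ) := by push_cast; ring
  have e1 : (1 - 2 : ℂ) = ((-1 : ℝ) : ℂ) := by push_cast; ring
  apply atyp_of_data (Λ := Real.log 2) (p := -1 / 2) (q := -1 / 8) (r := 0) (α := 0) (β := 1)
  · norm_num
  · norm_num
  · rw [e0, log_pos_real two_pos]
    push_cast
    ring
  · rw [e1, log_neg_real one_pos, Real.log_one]
    push_cast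
    ring
  · have h := dilog_gt (x := 2) (by norm_num) (v := - (Real.pi ^ 2 / 12)) (by
      rw [show (1 - 2 : ℝ) = -1 by norm_num]
      exact dilog_neg_one)
    rw [e0, h]
    have : Real.log (2 - 1) = 0 := by norm_num
    rw [this]
    push_cast
    ring

lemma one_add_rho : (1 + rho) * rho = 1 := by nlinarith [rho_sq]

lemma one_add_rho_pos : 0 < 1 + rho := by linarith [rho_mem.1]

lemma log_one_add_rho : Real.log (1 + rho) = - Real.log rho := by
  have h : 1 + rho = rho⁻¹ := by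
    have := rho_mem.1.ne'
    field_simp
    linarith [one_add_rho]
  rw [h, Real.log_inv]

lemma log_two_add_rho : Real.log (2 + rho) = - (2 * Real.log rho) := by
  have h : 2 + rho = (1 + rho) ^ 2 := by nlinarith [rho_sq]
  rw [h, Real.log_pow, log_one_add_rho]
  push_cast
  ring

lemma sqrt5_eq : √5 = 2 * rho + 1 := by unfold rho; ring

lemma mem_g1 : (((3 - √5) / 2 : ℝ) : ℂ) ∈ atypicalLocus (m + 2) := by
  have hm := rho_mem
  have e : ((3 - √5) / 2 : ℝ) = 1 - rho := by rw [sqrt5_eq]; ring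
  rw [e]
  have e1 : (1 - ((1 - rho : ℝ) : ℂ)) = ((rho : ℝ) : ℂ) := by push_cast; ring
  apply atyp_of_data (Λ := Real.log rho) (p := 0) (q := -1 / 30) (r := 0) (α := -1) (β := 2)
  · have : (1 - rho : ℝ) ≠ 0 := by linarith [hm.2]
    exact_mod_cast this
  · intro h
    have : (1 - rho : ℝ) = 1 := by exact_mod_cast h
    linarith [hm.1]
  · rw [log_pos_real (by linarith [hm.2]), log_one_sub_rho]
    push_cast
    ring
  · rw [e1, log_pos_real hm.1]
    push_cast
    ring
  · rw [dilog_golden.2.1]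
    push_cast
    ring

lemma mem_g2 : (((-1 + √5) / 2 : ℝ) : ℂ) ∈ atypicalLocus (m + 2) := by
  have hm := rho_mem
  have e : ((-1 + √5) / 2 : ℝ) = rho := rfl
  rw [e]
  have e1 : (1 - (rho : ℂ)) = ((1 - rho : ℝ) : ℂ) := by push_cast; ring
  apply atyp_of_data (Λ := Real.log rho) (p := 0) (q := -1 / 20) (r := 0) (α := -2) (β := 1)
  · exact_mod_cast hm.1.ne'
  · intro h
    have : rho = 1 := by exact_mod_cast h
    linarith [hm.2]
  · rw [log_pos_real hm.1]
    push_cast
    ring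
  · rw [e1, log_pos_real (by linarith [hm.2]), log_one_sub_rho]
    push_cast
    ring
  · rw [dilog_golden.1]
    push_cast
    ring

lemma mem_g3 : (((1 - √5) / 2 : ℝ) : ℂ) ∈ atypicalLocus (m + 2) := by
  have hm := rho_mem
  have e : ((1 - √5) / 2 : ℝ) = - rho := by rw [sqrt5_eq]; ring
  rw [e]
  have e1 : (1 - ((-rho : ℝ) : ℂ)) = ((1 + rho : ℝ) : ℂ) := by push_cast; ring
  apply atyp_of_data (Λ := Real.log rho) (p := 0) (q := 1 / 30) (r := 1 / 2) (α := 1) (β := 1)
  · have : (-rho : ℝ) ≠ 0 := by linarith [hm.1]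
    exact_mod_cast this
  · intro h
    have : (-rho : ℝ) = 1 := by exact_mod_cast h
    linarith [hm.1]
  · rw [log_neg_real hm.1]
    push_cast
    ring
  · rw [e1, log_pos_real one_add_rho_pos, log_one_add_rho]
    push_cast
    ring
  · rw [dilog_golden.2.2]
    push_cast
    ring

lemma mem_g4 : (((-1 - √5) / 2 : ℝ) : ℂ) ∈ atypicalLocus (m + 2) := by
  have hm := rho_mem
  have e : ((-1 - √5) / 2 : ℝ) = - (1 + rho) := by rw [sqrt5_eq]; ring
  rw [e]
  have e1 : (1 - ((-(1 + rho) : ℝ) : ℂ)) = ((2 + rho : ℝ) : ℂ) := by push_cast; ring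
  apply atyp_of_data (Λ := Real.log rho) (p := 0) (q := 1 / 20) (r := 1 / 2) (α := 2) (β := -1)
  · have : (-(1 + rho) : ℝ) ≠ 0 := by linarith [hm.1]
    exact_mod_cast this
  · intro h
    have : (-(1 + rho) : ℝ) = 1 := by exact_mod_cast h
    linarith [hm.1]
  · rw [log_neg_real one_add_rho_pos, log_one_add_rho]
    push_cast
    ring
  · rw [e1, log_pos_real (by linarith [hm.1]), log_two_add_rho]
    push_cast
    ring
  · rw [dilog_neg_phi]
    push_cast
    ring

lemma mem_g5 : (((1 + √5) / 2 : ℝ) : ℂ) ∈ atypicalLocus (m + 2) := by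
  have hm := rho_mem
  have e : ((1 + √5) / 2 : ℝ) = 1 + rho := by rw [sqrt5_eq]; ring
  rw [e]
  have e1 : (1 - ((1 + rho : ℝ) : ℂ)) = ((-rho : ℝ) : ℂ) := by push_cast; ring
  apply atyp_of_data (Λ := Real.log rho) (p := -1 / 2) (q := -7 / 60) (r := 0) (α := -1) (β := -1)
  · exact_mod_cast one_add_rho_pos.ne'
  · intro h
    have : (1 + rho : ℝ) = 1 := by exact_mod_cast h
    linarith [hm.1]
  · rw [log_pos_real one_add_rho_pos, log_one_add_rho]
    push_cast
    ring
  · rw [e1, log_neg_real hm.1]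
    push_cast
    ring
  · have h := dilog_gt (x := 1 + rho) (by linarith [hm.1])
      (v := -(Real.pi ^ 2 / 15) + (Real.log rho) ^ 2 / 2) (by
      rw [show (1 - (1 + rho) : ℝ) = -rho by ring]
      exact dilog_golden.2.2)
    rw [h]
    have : (1 + rho - 1 : ℝ) = rho := by ring
    rw [this, log_one_add_rho]
    push_cast
    ring

lemma mem_g6 : (((3 + √5) / 2 : ℝ) : ℂ) ∈ atypicalLocus (m + 2) := by
  have hm := rho_mem
  have e : ((3 + √5) / 2 : ℝ) = 2 + rho := by rw [sqrt5_eq]; ring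
  rw [e]
  have e1 : (1 - ((2 + rho : ℝ) : ℂ)) = ((-(1 + rho) : ℝ) : ℂ) := by push_cast; ring
  have hpos : 0 < 2 + rho := by linarith [hm.1]
  apply atyp_of_data (Λ := Real.log rho) (p := -1 / 2) (q := -2 / 15) (r := 0) (α := 1) (β := -2)
  · exact_mod_cast hpos.ne'
  · intro h
    have : (2 + rho : ℝ) = 1 := by exact_mod_cast h
    linarith [hm.1]
  · rw [log_pos_real hpos, log_two_add_rho]
    push_cast
    ring
  · rw [e1, log_neg_real one_add_rho_pos, log_one_add_rho]
    push_cast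
    ring
  · have h := dilog_gt (x := 2 + rho) (by linarith [hm.1])
      (v := -(Real.pi ^ 2 / 10) - (Real.log rho) ^ 2) (by
      rw [show (1 - (2 + rho) : ℝ) = -(1 + rho) by ring]
      exact dilog_neg_phi)
    rw [h]
    have : (2 + rho - 1 : ℝ) = 1 + rho := by ring
    rw [this, log_two_add_rho, log_one_add_rho]
    push_cast
    ring

lemma nine_subset (m : ℕ) : nine ⊆ atypicalLocus (m + 2) := by
  intro z hz
  unfold nine at hz
  simp only [Set.mem_insert_iff, Set.mem_singleton_iff] at hz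
  rcases hz with rfl | rfl | rfl | rfl | rfl | rfl | rfl | rfl | rfl
  · exact mem_neg_one
  · exact mem_two
  · exact mem_half
  · exact mem_g6
  · exact mem_g1
  · exact mem_g5
  · exact mem_g3
  · exact mem_g2
  · exact mem_g4

end Pool.Agent.LibZP33.Poly
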