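import Mathlib
import Pool.Agent.LibZP33.PolylogDefs
import Pool.Agent.LibZP33.DilogAnalysis

open Complex Set MeasureTheory intervalIntegral

namespace Pool.Agent.LibZP33.Poly

open scoped ComplexConjugate

/-- the slit domain `ℂ ∖ [1, ∞)`. -/
def slitDom : Set ℂ := {z | 1 - z ∈ slitPlane}

lemma isOpen_slitDom : IsOpen slitDom := isOpen_slit

lemma zero_mem_slitDom : (0 : ℂ) ∈ slitDom := by simp [slitDom]

lemma mul_mem_slitDom {z : ℂ} (hz : z ∈ slitDom) {t : ℝ} (ht : t ∈ Icc (0:ℝ) 1) :
    (t:ℂ) * z ∈ slitDom := one_sub_mul_mem hz ht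

lemma mem_slitDom_of_im_ne {z : ℂ} (h : z.im ≠ 0) : z ∈ slitDom := one_sub_mem_of_im_ne h

section step

variable {F : ℂ → ℂ} (hF : DifferentiableOn ℂ F slitDom) (hF0 : F 0 = 0)

include hF in
lemma hasDerivAt_ray {z : ℂ} (hz : z ∈ slitDom) {t : ℝ} (ht : t ∈ Icc (0:ℝ) 1) :
    HasDerivAt (fun s : ℝ => F (s * z)) (deriv F (t * z) * z) t := by
  have h1 : HasDerivAt F (deriv F (t * z)) (t * z) :=
    (hF.differentiableAt (isOpen_slitDom.mem_nhds (mul_mem_slitDom hz ht))).hasDerivAt
  have h2 : HasDerivAt (fun s : ℝ => (s:ℂ) * z) z t := by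
    have : HasDerivAt (fun s : ℝ => (s:ℂ)) 1 t := Complex.ofRealCLM.hasDerivAt
    simpa using this.mul_const z
  exact (h1.scomp_of_eq t h2 rfl).congr_deriv (by simp [mul_comm])

include hF hF0 in
lemma intervalIntegrable_step {z : ℂ} (hz : z ∈ slitDom) :
    IntervalIntegrable (fun t : ℝ => F (t * z) / t) volume 0 1 := by
  have hopen : IsOpen {t : ℝ | (t:ℂ) * z ∈ slitDom} := by
    apply isOpen_slitDom.preimage
    fun_prop
  have hsub : Icc (0:ℝ) 1 ⊆ {t : ℝ | (t:ℂ) * z ∈ slitDom} := fun t ht => mul_mem_slitDom hz ht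
  have hc : ContinuousOn (dslope (fun t : ℝ => F (t * z)) 0) (Icc (0:ℝ) 1) := by
    refine ContinuousOn.mono ?_ hsub
    rw [continuousOn_dslope (hopen.mem_nhds (hsub (by simp)))]
    refine ⟨?_, ?_⟩
    · refine hF.continuousOn.comp (by fun_prop) ?_
      intro t ht
      exact ht
    · exact (hasDerivAt_ray hF hz (by simp)).differentiableAt
  have h1 := hc.intervalIntegrable_of_Icc (μ := volume) zero_le_one
  refine h1.congr ?_
  intro t ht
  rw [uIoc_of_le zero_le_one] at ht
  rw [dslope_of_ne _ ht.1.ne']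
  simp [slope_def_module, hF0]
  field_simp

include hF hF0 in
lemma hasDerivAt_step' {z : ℂ} (hz : z ∈ slitDom) :
    HasDerivAt (fun w : ℂ => ∫ t in (0:ℝ)..1, F (t * w) / t)
      (∫ t in (0:ℝ)..1, deriv F (t * z)) z := by
  obtain ⟨ε, hε, hball⟩ := Metric.isOpen_iff.1 isOpen_slitDom z hz
  have hmem : ∀ w ∈ Metric.closedBall z (ε/2), w ∈ slitDom := by
    intro w hw
    exact hball (Metric.closedBall_subset_ball (by linarith) hw)
  have hK : IsCompact (Icc (0:ℝ) 1 ×ˢ Metric.closedBall z (ε/2)) :=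
    isCompact_Icc.prod (isCompact_closedBall z (ε/2))
  have hdF : ContinuousOn (deriv F) slitDom := (hF.deriv isOpen_slitDom).continuousOn
  have hcont : ContinuousOn (fun p : ℝ × ℂ => deriv F ((p.1:ℂ) * p.2))
      (Icc (0:ℝ) 1 ×ˢ Metric.closedBall z (ε/2)) := by
    refine hdF.comp (by fun_prop) ?_
    intro p hp
    exact mul_mem_slitDom (hmem _ hp.2) hp.1
  obtain ⟨C, hC⟩ := hK.exists_bound_of_continuousOn hcont
  have key := intervalIntegral.hasDerivAt_integral_of_dominated_loc_of_deriv_le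
    (μ := volume) (a := 0) (b := 1) (bound := fun _ => C)
    (F := fun (w : ℂ) (t : ℝ) => F (t * w) / t)
    (F' := fun (w : ℂ) (t : ℝ) => deriv F (t * w)) (x₀ := z) (s := Metric.closedBall z (ε/2))
    (Metric.closedBall_mem_nhds z (by linarith)) ?_ ?_ ?_ ?_ ?_ ?_
  · exact key.2
  · filter_upwards [Metric.closedBall_mem_nhds z (by linarith : 0 < ε/2)] with w hw
    have h1 := intervalIntegrable_step hF hF0 (hmem w hw)
    rw [uIoc_of_le zero_le_one]
    exact h1.1.aestronglyMeasurable
  · exact intervalIntegrable_step hF hF0 hz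
  · rw [uIoc_of_le zero_le_one]
    have h1 : ContinuousOn (fun t : ℝ => deriv F (t * z)) (Icc 0 1) := by
      refine hdF.comp (by fun_prop) ?_
      intro t ht
      exact mul_mem_slitDom hz ht
    exact (h1.mono Ioc_subset_Icc_self).aestronglyMeasurable measurableSet_Ioc
  · filter_upwards with t ht w hw
    rw [uIoc_of_le zero_le_one] at ht
    exact hC (t, w) ⟨⟨ht.1.le, ht.2⟩, hw⟩
  · exact intervalIntegrable_const
  · filter_upwards with t ht w hw
    rw [uIoc_of_le zero_le_one] at ht
    have hd : HasDerivAt F (deriv F (t * w)) (t * w) :=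
      (hF.differentiableAt (isOpen_slitDom.mem_nhds
        (mul_mem_slitDom (hmem w hw) ⟨ht.1.le, ht.2⟩))).hasDerivAt
    have h2 : HasDerivAt (fun w : ℂ => (t:ℂ) * w) (t:ℂ) w := by
      simpa using (hasDerivAt_id w).const_mul (t:ℂ)
    have h3 := (hd.comp w h2).div_const (t:ℂ)
    have ht0 : (t:ℂ) ≠ 0 := by exact_mod_cast ht.1.ne'
    refine h3.congr_deriv ?_
    field_simp

include hF hF0 in
lemma hasDerivAt_step {z : ℂ} (hz : z ∈ slitDom) (h0 : z ≠ 0) :
    HasDerivAt (fun w : ℂ => ∫ t in (0:ℝ)..1, F (t * w) / t) (F z / z) z := by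
  refine (hasDerivAt_step' hF hF0 hz).congr_deriv ?_
  have key : ∀ t ∈ uIcc (0:ℝ) 1, HasDerivAt (fun t : ℝ => F (t * z) / z) (deriv F (t * z)) t := by
    intro t ht
    rw [uIcc_of_le zero_le_one] at ht
    refine ((hasDerivAt_ray hF hz ht).div_const z).congr_deriv ?_
    field_simp
  have hdF : ContinuousOn (deriv F) slitDom := (hF.deriv isOpen_slitDom).continuousOn
  have hint : IntervalIntegrable (fun t : ℝ => deriv F (t * z)) volume 0 1 := by
    apply ContinuousOn.intervalIntegrable_of_Icc zero_le_one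
    refine hdF.comp (by fun_prop) ?_
    intro t ht
    exact mul_mem_slitDom hz ht
  rw [integral_eq_sub_of_hasDerivAt key hint]
  simp [hF0]

include hF hF0 in
lemma im_step_eq {z : ℂ} (hz : z ∈ slitDom) :
    (∫ t in (0:ℝ)..1, F (t * z) / t).im = ∫ t in (0:ℝ)..1, (F (t * z)).im / t := by
  rw [← Complex.imCLM_apply,
    ← Complex.imCLM.intervalIntegral_comp_comm (intervalIntegrable_step hF hF0 hz)]
  apply intervalIntegral.integral_congr
  intro t ht
  simp only [Complex.imCLM_apply]
  rw [Complex.div_ofReal_im]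

include hF hF0 in
lemma im_step_pos {z : ℂ} (hz : 0 < z.im) (hpos : ∀ w : ℂ, 0 < w.im → 0 < (F w).im) :
    0 < (∫ t in (0:ℝ)..1, F (t * z) / t).im := by
  have hs := mem_slitDom_of_im_ne hz.ne'
  rw [im_step_eq hF hF0 hs]
  apply intervalIntegral.intervalIntegral_pos_of_pos_on
  · have h2 := (Complex.imCLM.integrable_comp (intervalIntegrable_step hF hF0 hs).1)
    rw [intervalIntegrable_iff_integrableOn_Ioc_of_le zero_le_one]
    refine h2.congr ?_
    filter_upwards with t
    simp only [Complex.imCLM_apply]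
    rw [Complex.div_ofReal_im]
  · intro t ht
    apply div_pos _ ht.1
    apply hpos
    rw [Complex.im_ofReal_mul]
    exact mul_pos ht.1 hz
  · exact zero_lt_one

end step

lemma polylog_zero_arg (k : ℕ) : polylog (k + 1) 0 = 0 := by
  induction k with
  | zero => simp [polylog]
  | succ k ih =>
    rw [polylog]
    simp [ih]

lemma differentiableOn_polylog (k : ℕ) : DifferentiableOn ℂ (polylog (k + 1)) slitDom := by
  induction k with
  | zero =>
    intro z hz
    have h1 : DifferentiableAt ℂ (fun z : ℂ => 1 - z) z := by fun_prop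
    have h2 : DifferentiableAt ℂ (fun z : ℂ => - Complex.log (1 - z)) z := (h1.clog hz).neg
    exact h2.differentiableWithinAt
  | succ k ih =>
    intro z hz
    have h := hasDerivAt_step' ih (polylog_zero_arg k) hz
    exact h.differentiableAt.differentiableWithinAt

lemma hasDerivAt_polylog (k : ℕ) {z : ℂ} (hz : z ∈ slitDom) (h0 : z ≠ 0) :
    HasDerivAt (polylog (k + 2)) (polylog (k + 1) z / z) z :=
  hasDerivAt_step (differentiableOn_polylog k) (polylog_zero_arg k) hz h0

/-- `Im Li_k > 0` on the upper half plane. -/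
lemma im_polylog_pos (k : ℕ) : ∀ z : ℂ, 0 < z.im → 0 < (polylog (k + 1) z).im := by
  induction k with
  | zero =>
    intro z hz
    have := arg_one_sub_neg hz
    simp only [polylog, Complex.neg_im, Complex.log_im]
    linarith
  | succ k ih =>
    intro z hz
    exact im_step_pos (differentiableOn_polylog k) (polylog_zero_arg k) hz ih

lemma polylog_conj (k : ℕ) : ∀ z ∈ slitDom, polylog (k + 1) (conj z) = conj (polylog (k + 1) z) := by
  induction k with
  | zero =>
    intro z hz
    have h1 := Complex.log_conj _ (Complex.mem_slitPlane_iff_arg.1 hz).1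
    simp only [polylog, map_neg]
    rw [← h1]
    simp
  | succ k ih =>
    intro z hz
    rw [polylog, polylog, ← intervalIntegral.intervalIntegral_conj]
    apply intervalIntegral.integral_congr
    intro t ht
    rw [uIcc_of_le zero_le_one] at ht
    simp only [map_div₀, Complex.conj_ofReal]
    rw [← ih _ (mul_mem_slitDom hz ht)]
    simp

/-- derivative of `Li_{k+2}` along the unit circle. -/
lemma hasDerivAt_circle (k : ℕ) {θ : ℝ} (h0 : 0 < θ) (h1 : θ < Real.pi) :
    HasDerivAt (fun s : ℝ => polylog (k + 2) (Complex.exp (s * I)))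
      (polylog (k + 1) (Complex.exp (θ * I)) * I) θ := by
  have him := (im_exp_pos h0 h1).ne'
  have hγ : HasDerivAt (fun s : ℝ => Complex.exp ((s:ℂ) * I)) (Complex.exp (θ * I) * I) θ := by
    have : HasDerivAt (fun t : ℝ => (t:ℂ)) 1 θ := Complex.ofRealCLM.hasDerivAt
    have h2 := (this.mul_const I).cexp
    simpa using h2
  have hd := hasDerivAt_polylog k (mem_slitDom_of_im_ne him) (Complex.exp_ne_zero _)
  have h3 := hd.scomp_of_eq θ hγ rfl
  refine h3.congr_deriv ?_
  have := Complex.exp_ne_zero ((θ:ℂ) * I)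
  rw [smul_eq_mul]
  field_simp

/-- `Re Li_{k+2}` is strictly decreasing along the upper unit circle. -/
lemma re_polylog_strictAnti (k : ℕ) :
    StrictAntiOn (fun s : ℝ => (polylog (k + 2) (Complex.exp (s * I))).re) (Ioo 0 Real.pi) := by
  have hd : ∀ s ∈ Ioo 0 Real.pi, HasDerivAt
      (fun s : ℝ => (polylog (k + 2) (Complex.exp (s * I))).re)
      (- (polylog (k + 1) (Complex.exp (s * I))).im) s := by
    intro s hs
    have h1 := Complex.reCLM.hasFDerivAt.comp_hasDerivAt s (hasDerivAt_circle k hs.1 hs.2)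
    refine h1.congr_deriv ?_
    simp
  apply strictAntiOn_of_deriv_neg (convex_Ioo _ _)
  · intro s hs
    exact (hd s hs).continuousAt.continuousWithinAt
  · intro s hs
    rw [interior_Ioo] at hs
    rw [(hd s hs).deriv]
    have := im_polylog_pos k _ (im_exp_pos hs.1 hs.2)
    linarith

end Pool.Agent.LibZP33.Poly
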