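import Mathlib
import Pool.Agent.LibZP33.PolylogLocus
import Pool.Agent.LibZP33.PolylogAnalysis

open Complex Set

namespace Pool.Agent.LibZP33.Poly

open scoped ComplexConjugate

variable {m : ℕ} {z : ℂ}

lemma norm_eq_one_of_yy {s : ℚ} (h0 : z ≠ 0) (hs : yy z = s) : ‖z‖ = 1 := by
  have hpi := Real.pi_pos
  have i2 : (LibZP33.yy z).im = 0 := by rw [← yy_eq, hs]; simp
  rw [yy_im] at i2
  have n2 : Real.log ‖z‖ = 0 := by
    have h2 : 2 * Real.pi ≠ 0 := by positivity
    have := (div_eq_zero_iff.1 i2).resolve_right h2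
    linarith
  exact Real.eq_one_of_pos_of_log_eq_zero (norm_pos_iff.2 h0) n2

lemma isRoot_of_yy {s : ℚ} (h0 : z ≠ 0) (hs : yy z = s) : ∃ k : ℕ, 0 < k ∧ z ^ k = 1 := by
  refine ⟨s.den, s.den_pos, ?_⟩
  have h1 : Complex.log z = 2 * Real.pi * I * s := by
    rw [← hs, yy]
    field_simp [two_pi_I_ne]
  rw [← Complex.exp_log h0, ← Complex.exp_nat_mul, h1, Complex.exp_eq_one_iff]
  refine ⟨s.num, ?_⟩
  have : (s : ℂ) * s.den = s.num := by exact_mod_cast Rat.mul_den_eq_num s
  rw [← this]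
  ring

lemma two_pi_I_pow_even (k : ℕ) : ((2 * Real.pi * I : ℂ)) ^ (2 * k) =
    (((-(4 * Real.pi ^ 2)) ^ k : ℝ) : ℂ) := by
  rw [pow_mul, mul_pow, I_sq]
  push_cast
  congr 1
  ring

lemma two_pi_I_pow_odd (k : ℕ) : ((2 * Real.pi * I : ℂ)) ^ (2 * k + 1) =
    (((-(4 * Real.pi ^ 2)) ^ k * (2 * Real.pi) : ℝ) : ℂ) * I := by
  rw [pow_succ, two_pi_I_pow_even]
  push_cast
  ring

lemma im_polylog_ne_zero (k : ℕ) (h : z.im ≠ 0) : (polylog (k + 1) z).im ≠ 0 := by
  rcases lt_or_gt_of_ne h with h1 | h1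
  · have h2 : 0 < (conj z).im := by simpa using h1
    have h3 := im_polylog_pos k _ h2
    rw [polylog_conj k z (mem_slitDom_of_im_ne h), Complex.conj_im] at h3
    linarith
  · exact (im_polylog_pos k z h1).ne'

/-- a rational normalised extension datum at a non-real point has odd weight index and the real
part of the polylogarithm vanishes. -/
lemma re_polylog_eq_zero {j : Fin (m + 2)} {p : ℚ} (h : lam (m + 2) z j = p) (him : z.im ≠ 0) :
    ∃ k : ℕ, (j : ℕ) = 2 * k ∧ (polylog (2 * k + 1) z).re = 0 := by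
  have hpi := two_pi_I_ne
  have h1 : (((j : ℕ) : ℂ) + 1) * polylog (j + 1) z = p * (2 * Real.pi * I) ^ ((j : ℕ) + 1) := by
    rw [← h, lam]
    field_simp
  have hreal : (((j : ℕ) : ℂ) + 1) = ((((j : ℕ) : ℝ) + 1 : ℝ) : ℂ) := by push_cast; ring
  have hp : (p : ℂ) = ((p : ℝ) : ℂ) := by push_cast; ring
  have hj1 : (((j : ℕ) : ℝ) + 1) ≠ 0 := by positivity
  rcases Nat.even_or_odd' (j : ℕ) with ⟨k, hk | hk⟩
  · refine ⟨k, hk, ?_⟩
    rw [hreal, hp, hk, two_pi_I_pow_odd] at h1
    have h2 := congrArg Complex.re h1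
    rw [Complex.re_ofReal_mul, Complex.re_ofReal_mul, Complex.re_ofReal_mul, Complex.I_re,
      mul_zero, mul_zero] at h2
    rw [hk] at hj1
    exact (mul_eq_zero.1 h2).resolve_left hj1
  · exfalso
    have h3 : (j : ℕ) + 1 = 2 * (k + 1) := by omega
    rw [hreal, hp, h3, two_pi_I_pow_even] at h1
    have h2 := congrArg Complex.im h1
    rw [Complex.im_ofReal_mul, Complex.im_ofReal_mul, Complex.ofReal_im, mul_zero] at h2
    have h4 := (mul_eq_zero.1 h2).resolve_left hj1
    exact im_polylog_ne_zero (2 * k + 1) him h4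

/-- the classification of the non-real atypical points. -/
lemma nonreal_atypical (h : z ∈ atypicalLocus (m + 2)) (him : z.im ≠ 0) :
    (∃ s : ℚ, yy z = s) ∧ (z = omega ∨ z = conj omega ∨
      ∃ i < (m + 1) / 2, (polylog (2 * i + 3) z).re = 0) := by
  obtain ⟨h1, j, p, hj⟩ := of_nonreal_atypical h him
  obtain ⟨h0, hne1, _⟩ := mem_atypicalLocus_iff.1 h
  refine ⟨h1, ?_⟩
  obtain ⟨k, hk, hre⟩ := re_polylog_eq_zero hj him
  rcases Nat.eq_zero_or_pos k with hk0 | hk0
  · subst hk0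
    have hj0 : j = 0 := Fin.ext (by simpa using hk)
    have hx : ∃ p : ℚ, LibZP33.xx z = p := by
      refine ⟨p, ?_⟩
      rw [← hj, hj0, ← wvec_zero m z, ← smat_zero_zero (yy z) (wvec (m + 2) z), smat_wvec]
    rcases eq_omega_of_rational h0 hne1 hx h1 with h2 | h2
    · exact Or.inl h2
    · exact Or.inr (Or.inl h2)
  · right; right
    refine ⟨k - 1, ?_, ?_⟩
    · have := j.2
      omega
    · have e : 2 * (k - 1) + 3 = 2 * k + 1 := by omega
      rw [e]
      exact hre

/-- uniqueness of the zero of `Re Li_k` on the upper unit circle. -/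
lemma unique_zero (k : ℕ) {z w : ℂ} (hz : 0 < z.im) (hw : 0 < w.im) (nz : ‖z‖ = 1) (nw : ‖w‖ = 1)
    (rz : (polylog (k + 2) z).re = 0) (rw' : (polylog (k + 2) w).re = 0) : z = w := by
  obtain ⟨θ, h0, h1, h2⟩ := eq_norm_mul_exp hz
  obtain ⟨η, g0, g1, g2⟩ := eq_norm_mul_exp hw
  rw [nz] at h2
  rw [nw] at g2
  rw [Complex.ofReal_one, one_mul] at h2 g2
  have hinj : θ = η := (re_polylog_strictAnti k).injOn ⟨h0, h1⟩ ⟨g0, g1⟩ (by
    show (polylog (k + 2) (Complex.exp (θ * I))).re = (polylog (k + 2) (Complex.exp (η * I))).re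
    rw [← h2, ← g2, rz, rw'])
  rw [h2, g2, hinj]

open Classical in
/-- the possible zero on the upper unit circle. -/
noncomputable def zeroPt (i : ℕ) : ℂ :=
  if h : ∃ z : ℂ, 0 < z.im ∧ ‖z‖ = 1 ∧ (polylog (2 * i + 3) z).re = 0 then h.choose else omega

lemma eq_zeroPt {i : ℕ} {z : ℂ} (hz : 0 < z.im) (nz : ‖z‖ = 1)
    (rz : (polylog (2 * i + 3) z).re = 0) : z = zeroPt i := by
  have h : ∃ z : ℂ, 0 < z.im ∧ ‖z‖ = 1 ∧ (polylog (2 * i + 3) z).re = 0 := ⟨z, hz, nz, rz⟩
  rw [zeroPt, dif_pos h]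
  exact unique_zero (2 * i + 1) hz h.choose_spec.1 nz h.choose_spec.2.1 rz h.choose_spec.2.2

open Classical in
/-- the finite set containing all non-real atypical points. -/
noncomputable def exceptional (m : ℕ) : Finset ℂ :=
  {omega, conj omega} ∪ ((Finset.range ((m + 1) / 2)).image zeroPt ∪
    (Finset.range ((m + 1) / 2)).image (fun i => conj (zeroPt i)))

lemma card_exceptional (m : ℕ) : (exceptional m).card ≤ 2 + 2 * ((m + 1) / 2) := by
  classical
  calc (exceptional m).card ≤ ({omega, conj omega} : Finset ℂ).card +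
        (((Finset.range ((m + 1) / 2)).image zeroPt ∪
        (Finset.range ((m + 1) / 2)).image (fun i => conj (zeroPt i))).card) :=
        Finset.card_union_le _ _
    _ ≤ 2 + ((((Finset.range ((m + 1) / 2)).image zeroPt).card +
        ((Finset.range ((m + 1) / 2)).image (fun i => conj (zeroPt i))).card)) := by
        gcongr
        · exact Finset.card_le_two
        · exact Finset.card_union_le _ _
    _ ≤ 2 + ((m + 1) / 2 + (m + 1) / 2) := by
        gcongr
        · exact Finset.card_image_le.trans (by simp)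
        · exact Finset.card_image_le.trans (by simp)
    _ = 2 + 2 * ((m + 1) / 2) := by ring

lemma mem_exceptional (h : z ∈ atypicalLocus (m + 2)) (him : z.im ≠ 0) : z ∈ exceptional m := by
  classical
  obtain ⟨⟨s, hs⟩, h2⟩ := nonreal_atypical h him
  have h0 := (mem_atypicalLocus_iff.1 h).1
  have nz := norm_eq_one_of_yy h0 hs
  unfold exceptional
  rw [Finset.mem_union, Finset.mem_union]
  rcases h2 with h2 | h2 | ⟨i, hi, h2⟩
  · left; simp [h2]
  · left; simp [h2]
  · right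
    rcases lt_or_gt_of_ne him with h3 | h3
    · right
      rw [Finset.mem_image]
      refine ⟨i, Finset.mem_range.2 hi, ?_⟩
      have h4 : 0 < (conj z).im := by simpa using h3
      have h5 : (polylog (2 * i + 3) (conj z)).re = 0 := by
        rw [polylog_conj (2 * i + 2) z (mem_slitDom_of_im_ne him), Complex.conj_re]
        exact h2
      rw [← eq_zeroPt h4 (by rw [Complex.norm_conj]; exact nz) h5, Complex.conj_conj]
    · left
      rw [Finset.mem_image]
      exact ⟨i, Finset.mem_range.2 hi, (eq_zeroPt h3 nz h2).symm⟩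

lemma nonreal_finite (m : ℕ) : {z | z ∈ atypicalLocus (m + 2) ∧ z.im ≠ 0}.Finite :=
  (exceptional m).finite_toSet.subset fun _ h => Finset.mem_coe.2 (mem_exceptional h.1 h.2)

lemma nonreal_ncard (m : ℕ) :
    {z | z ∈ atypicalLocus (m + 2) ∧ z.im ≠ 0}.ncard ≤ 2 + 2 * ((m + 1) / 2) := by
  have h1 : {z | z ∈ atypicalLocus (m + 2) ∧ z.im ≠ 0} ⊆ (exceptional m : Set ℂ) :=
    fun _ h => Finset.mem_coe.2 (mem_exceptional h.1 h.2)
  have h2 := Set.ncard_le_ncard h1 (exceptional m).finite_toSet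
  rw [Set.ncard_coe_finset] at h2
  exact h2.trans (card_exceptional m)

end Pool.Agent.LibZP33.Poly
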