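import Mathlib
import Pool.Agent.LibZP33.PolylogNonreal
import Pool.Agent.LibZP33.DilogValues

open Complex Set MeasureTheory intervalIntegral

namespace Pool.Agent.LibZP33.Poly

open scoped ComplexConjugate

section step

variable {F : ℂ → ℂ} (hF : DifferentiableOn ℂ F slitDom) (hF0 : F 0 = 0)

include hF hF0 in
lemma re_step_eq {z : ℂ} (hz : z ∈ slitDom) :
    (∫ t in (0:ℝ)..1, F (t * z) / t).re = ∫ t in (0:ℝ)..1, (F (t * z)).re / t := by
  rw [← Complex.reCLM_apply,
    ← Complex.reCLM.intervalIntegral_comp_comm (intervalIntegrable_step hF hF0 hz)]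
  apply intervalIntegral.integral_congr
  intro t ht
  simp only [Complex.reCLM_apply]
  rw [Complex.div_ofReal_re]

include hF hF0 in
lemma re_step_pos {z : ℂ} (hz : z ∈ slitDom) (hpos : ∀ t ∈ Ioo (0:ℝ) 1, 0 < (F (t * z)).re) :
    0 < (∫ t in (0:ℝ)..1, F (t * z) / t).re := by
  rw [re_step_eq hF hF0 hz]
  apply intervalIntegral.intervalIntegral_pos_of_pos_on
  · have h2 := (Complex.reCLM.integrable_comp (intervalIntegrable_step hF hF0 hz).1)
    rw [intervalIntegrable_iff_integrableOn_Ioc_of_le zero_le_one]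
    refine h2.congr ?_
    filter_upwards with t
    simp only [Complex.reCLM_apply]
    rw [Complex.div_ofReal_re]
  · intro t ht
    exact div_pos (hpos t ht) ht.1
  · exact zero_lt_one

include hF hF0 in
lemma re_step_neg {z : ℂ} (hz : z ∈ slitDom) (hneg : ∀ t ∈ Ioo (0:ℝ) 1, (F (t * z)).re < 0) :
    (∫ t in (0:ℝ)..1, F (t * z) / t).re < 0 := by
  have h := re_step_pos (F := fun w => - F w) hF.neg (by simp [hF0]) hz (by
    intro t ht
    have := hneg t ht
    simp only [Complex.neg_re]
    linarith)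
  have e : (∫ t in (0:ℝ)..1, - F (t * z) / t) = - ∫ t in (0:ℝ)..1, F (t * z) / t := by
    rw [← intervalIntegral.integral_neg]
    apply intervalIntegral.integral_congr
    intro t _
    simp only []
    ring
  rw [e, Complex.neg_re] at h
  linarith

end step

/-- `Re Li_k < 0` on the positive imaginary axis. -/
lemma re_polylog_imag_neg (k : ℕ) : ∀ y : ℝ, 0 < y → (polylog (k + 1) (y * I)).re < 0 := by
  induction k with
  | zero =>
    intro y hy
    simp only [polylog, Complex.neg_re, Complex.log_re]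
    have h1 : 1 < ‖1 - (y:ℂ) * I‖ := by
      have h2 : ‖1 - (y:ℂ) * I‖ ^ 2 = 1 + y ^ 2 := by
        rw [← Complex.normSq_eq_norm_sq, Complex.normSq_apply]
        simp
        ring
      nlinarith [norm_nonneg (1 - (y:ℂ) * I)]
    have := Real.log_pos h1
    linarith
  | succ k ih =>
    intro y hy
    have him : ((y:ℂ) * I).im ≠ 0 := by simp [hy.ne']
    apply re_step_neg (differentiableOn_polylog k) (polylog_zero_arg k) (mem_slitDom_of_im_ne him)
    intro t ht
    have h := ih (t * y) (mul_pos ht.1 hy)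
    have e : ((t * y : ℝ) : ℂ) * I = (t:ℂ) * ((y:ℂ) * I) := by push_cast; ring
    rw [e] at h
    exact h

lemma arg_one_sub_exp {θ : ℝ} (h0 : 0 < θ) (h1 : θ < Real.pi) :
    (1 - Complex.exp (θ * I)).arg = (θ - Real.pi) / 2 := by
  have hpi := Real.pi_pos
  have hs : 0 < Real.sin (θ / 2) := Real.sin_pos_of_pos_of_lt_pi (by linarith) (by linarith)
  have e : 1 - Complex.exp (θ * I) = ((2 * Real.sin (θ / 2) : ℝ) : ℂ) *
      (Complex.cos (((θ - Real.pi) / 2 : ℝ) : ℂ) + Complex.sin (((θ - Real.pi) / 2 : ℝ) : ℂ) * I) := by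
    rw [← Complex.ofReal_cos, ← Complex.ofReal_sin]
    have c1 : Real.cos ((θ - Real.pi) / 2) = Real.sin (θ / 2) := by
      rw [show (θ - Real.pi) / 2 = θ / 2 - Real.pi / 2 by ring, Real.cos_sub_pi_div_two]
    have c2 : Real.sin ((θ - Real.pi) / 2) = - Real.cos (θ / 2) := by
      rw [show (θ - Real.pi) / 2 = θ / 2 - Real.pi / 2 by ring, Real.sin_sub_pi_div_two]
    have d1 : Real.cos θ = 1 - 2 * Real.sin (θ / 2) ^ 2 := by
      have := Real.cos_two_mul (θ / 2)
      rw [show 2 * (θ / 2) = θ by ring] at this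
      nlinarith [Real.sin_sq_add_cos_sq (θ / 2)]
    have d2 : Real.sin θ = 2 * Real.sin (θ / 2) * Real.cos (θ / 2) := by
      have := Real.sin_two_mul (θ / 2)
      rwa [show 2 * (θ / 2) = θ by ring] at this
    rw [c1, c2]
    apply Complex.ext
    · simp only [Complex.sub_re, Complex.one_re, Complex.exp_ofReal_mul_I_re, Complex.re_ofReal_mul,
        Complex.add_re, Complex.ofReal_re, Complex.mul_re, Complex.ofReal_im, Complex.I_re,
        Complex.I_im]
      rw [d1]
      ring
    · simp only [Complex.sub_im, Complex.one_im, Complex.exp_ofReal_mul_I_im, Complex.im_ofReal_mul,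
        Complex.add_im, Complex.ofReal_re, Complex.mul_im, Complex.ofReal_im, Complex.I_re,
        Complex.I_im]
      rw [d2]
      ring
  rw [e]
  exact Complex.arg_mul_cos_add_sin_mul_I (by linarith) ⟨by linarith, by linarith⟩

/-- `Re Li₂` on the upper unit circle. -/
lemma re_dilog_circle {θ : ℝ} (h0 : 0 < θ) (h1 : θ < Real.pi) :
    (polylog 2 (Complex.exp (θ * I))).re = - (Real.pi ^ 2 / 12) + (Real.pi - θ) ^ 2 / 4 := by
  have hd : ∀ s ∈ Ioo θ Real.pi, HasDerivAt
      (fun s : ℝ => (polylog 2 (Complex.exp (s * I))).re - (Real.pi - s) ^ 2 / 4) 0 s := by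
    intro s hs
    have hs0 : 0 < s := h0.trans hs.1
    have g1 := Complex.reCLM.hasFDerivAt.comp_hasDerivAt s (hasDerivAt_circle 0 hs0 hs.2)
    have g2 : HasDerivAt (fun s : ℝ => (Real.pi - s) ^ 2 / 4) (-(Real.pi - s) / 2) s := by
      have h2 : HasDerivAt (fun s : ℝ => Real.pi - s) (-1) s := by
        simpa using (hasDerivAt_id s).const_sub Real.pi
      have h3 := (h2.pow 2).div_const 4
      refine h3.congr_deriv ?_
      simp
      ring
    refine (g1.sub g2).congr_deriv ?_
    have e := arg_one_sub_exp hs0 hs.2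
    simp only [polylog, Complex.reCLM_apply, Complex.mul_re, Complex.neg_re, Complex.neg_im,
      Complex.log_im, Complex.I_re, Complex.I_im, zero_add]
    rw [e]
    ring
  have hpimem : (Complex.exp ((Real.pi : ℂ) * I)) ∈ slitDom := by
    rw [Complex.exp_pi_mul_I]
    simp [slitDom, mem_slitPlane_iff]
  have hc : ContinuousOn (fun s : ℝ => (polylog 2 (Complex.exp (s * I))).re -
      (Real.pi - s) ^ 2 / 4) (Icc θ Real.pi) := by
    intro s hs
    have hmem : Complex.exp ((s : ℂ) * I) ∈ slitDom := by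
      rcases hs.2.eq_or_lt with h | h
      · rw [h]; exact hpimem
      · exact mem_slitDom_of_im_ne (im_exp_pos (h0.trans_le hs.1) h).ne'
    have hd2 : ContinuousAt (polylog 2) (Complex.exp ((s : ℂ) * I)) :=
      ((differentiableOn_polylog 1).differentiableAt (isOpen_slitDom.mem_nhds hmem)).continuousAt
    have hexp : ContinuousAt (fun s : ℝ => Complex.exp ((s : ℂ) * I)) s := by fun_prop
    have h3 : ContinuousAt (fun s : ℝ => (polylog 2 (Complex.exp (s * I))).re) s :=
      Complex.continuous_re.continuousAt.comp (ContinuousAt.comp (g := polylog 2) hd2 hexp)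
    have h4 : ContinuousAt (fun s : ℝ => (Real.pi - s) ^ 2 / 4) s := by fun_prop
    exact (h3.sub h4).continuousWithinAt
  obtain ⟨c, hc1, hc2⟩ := exists_hasDerivAt_eq_slope _ (fun _ => (0:ℝ)) h1 hc hd
  have hne : Real.pi - θ ≠ 0 := by linarith
  have h5 := (div_eq_zero_iff.1 hc2.symm).resolve_right hne
  have h6 : (polylog 2 (Complex.exp ((Real.pi : ℂ) * I))).re = - (Real.pi ^ 2 / 12) := by
    rw [Complex.exp_pi_mul_I, polylog_two]
    have : (-1 : ℂ) = ((-1 : ℝ) : ℂ) := by push_cast; ring
    rw [this, dilog_neg_one, Complex.ofReal_re]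
  simp only [h6] at h5
  linarith

/-- the base case on the ray through the fifth root of unity. -/
lemma re_dilog_ray_pos {θ : ℝ} (h0 : 0 < θ) (h1 : θ < Real.pi)
    (hval : 0 < (polylog 2 (Complex.exp (θ * I))).re) :
    ∀ s ∈ Ioc (0:ℝ) 1, 0 < (polylog 2 (s * Complex.exp (θ * I))).re := by
  set u := Complex.exp ((θ:ℂ) * I) with hu
  have him : 0 < u.im := im_exp_pos h0 h1
  have hu0 : u ≠ 0 := Complex.exp_ne_zero _
  have hre : u.re = Real.cos θ := Complex.exp_ofReal_mul_I_re θ
  have hn : ‖u‖ = 1 := Complex.norm_exp_ofReal_mul_I θ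
  have hsu : ∀ s : ℝ, 0 < s → (s:ℂ) * u ∈ slitDom := by
    intro s hs
    apply mem_slitDom_of_im_ne
    rw [Complex.im_ofReal_mul]
    positivity
  have hd : ∀ s : ℝ, 0 < s → HasDerivAt (fun s : ℝ => (polylog 2 (s * u)).re)
      (- Real.log ‖1 - s * u‖ / s) s := by
    intro s hs
    have hs0 : (s:ℂ) ≠ 0 := by exact_mod_cast hs.ne'
    have g1 := hasDerivAt_polylog 0 (hsu s hs) (mul_ne_zero hs0 hu0)
    have g2 : HasDerivAt (fun s : ℝ => (s:ℂ) * u) u s := by
      have : HasDerivAt (fun s : ℝ => (s:ℂ)) 1 s := Complex.ofRealCLM.hasDerivAt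
      simpa using this.mul_const u
    have g3 := Complex.reCLM.hasFDerivAt.comp_hasDerivAt s (g1.scomp_of_eq s g2 rfl)
    refine g3.congr_deriv ?_
    have e : u • (polylog (0 + 1) ((s:ℂ) * u) / ((s:ℂ) * u)) = - Complex.log (1 - s * u) / s := by
      simp only [polylog, smul_eq_mul]
      field_simp
    rw [e, Complex.reCLM_apply, Complex.div_ofReal_re, Complex.neg_re, Complex.log_re]
  have hnorm : ∀ s : ℝ, ‖1 - (s:ℂ) * u‖ ^ 2 = 1 - 2 * s * Real.cos θ + s ^ 2 := by
    intro s
    rw [← Complex.normSq_eq_norm_sq, Complex.normSq_apply]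
    have hu2 : u.re * u.re + u.im * u.im = 1 := by
      rw [← Complex.normSq_apply, Complex.normSq_eq_norm_sq, hn]; norm_num
    simp only [Complex.sub_re, Complex.sub_im, Complex.one_re, Complex.one_im,
      Complex.re_ofReal_mul, Complex.im_ofReal_mul]
    rw [← hre]
    nlinarith
  have hnpos : ∀ s : ℝ, 0 < s → 0 < ‖1 - (s:ℂ) * u‖ := fun s hs => norm_one_sub_pos him hs
  intro s hs
  rcases le_or_gt s (2 * Real.cos θ) with hcase | hcase
  · -- increasing part
    have hmono : StrictMonoOn (fun s : ℝ => (polylog 2 (s * u)).re) (Icc 0 s) := by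
      apply strictMonoOn_of_deriv_pos (convex_Icc 0 s)
      · intro t ht
        rcases ht.1.eq_or_lt with h | h
        · rw [← h]
          have hd2 : ContinuousAt (polylog 2) 0 :=
            ((differentiableOn_polylog 1).differentiableAt
              (isOpen_slitDom.mem_nhds zero_mem_slitDom)).continuousAt
          have h3 : ContinuousAt (fun s : ℝ => (polylog 2 (s * u)).re) 0 := by
            apply Complex.continuous_re.continuousAt.comp
            apply ContinuousAt.comp (g := polylog 2)
            · simpa using hd2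
            · fun_prop
          exact h3.continuousWithinAt
        · exact (hd t h).continuousAt.continuousWithinAt
      · intro t ht
        rw [interior_Icc] at ht
        rw [(hd t ht.1).deriv]
        have hlt : ‖1 - (t:ℂ) * u‖ < 1 := by
          have := hnorm t
          have h2 : t * (t - 2 * Real.cos θ) < 0 :=
            mul_neg_of_pos_of_neg ht.1 (by linarith [ht.2])
          nlinarith [norm_nonneg (1 - (t:ℂ) * u)]
        have := Real.log_neg (hnpos t ht.1) hlt
        exact div_pos (by linarith) ht.1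
    have := hmono (left_mem_Icc.2 hs.1.le) (right_mem_Icc.2 hs.1.le) hs.1
    simpa [polylog_zero_arg 1] using this
  · -- decreasing part
    rcases hs.2.eq_or_lt with h | h
    · rw [h]; simpa using hval
    have hanti : StrictAntiOn (fun s : ℝ => (polylog 2 (s * u)).re) (Icc s 1) := by
      apply strictAntiOn_of_deriv_neg (convex_Icc s 1)
      · intro t ht
        exact (hd t (hs.1.trans_le ht.1)).continuousAt.continuousWithinAt
      · intro t ht
        rw [interior_Icc] at ht
        have ht0 : 0 < t := hs.1.trans ht.1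
        rw [(hd t ht0).deriv]
        have hlt : 1 < ‖1 - (t:ℂ) * u‖ := by
          have := hnorm t
          have h2 : 0 < t * (t - 2 * Real.cos θ) := mul_pos ht0 (by linarith [ht.1])
          nlinarith [norm_nonneg (1 - (t:ℂ) * u)]
        have := Real.log_pos hlt
        exact div_neg_of_neg_of_pos (by linarith) ht0
    have h3 := hanti (left_mem_Icc.2 h.le) (right_mem_Icc.2 h.le) h
    simp only [Complex.ofReal_one, one_mul] at h3
    linarith

/-- positivity propagates to all higher polylogarithms. -/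
lemma re_polylog_ray_pos {θ : ℝ} (h0 : 0 < θ) (h1 : θ < Real.pi)
    (hval : 0 < (polylog 2 (Complex.exp (θ * I))).re) (k : ℕ) :
    ∀ s ∈ Ioc (0:ℝ) 1, 0 < (polylog (k + 2) (s * Complex.exp (θ * I))).re := by
  induction k with
  | zero => exact re_dilog_ray_pos h0 h1 hval
  | succ k ih =>
    intro s hs
    have him := im_exp_pos h0 h1
    have hsl : (s:ℂ) * Complex.exp (θ * I) ∈ slitDom := by
      apply mem_slitDom_of_im_ne
      rw [Complex.im_ofReal_mul]
      have := hs.1
      positivity
    apply re_step_pos (differentiableOn_polylog (k + 1)) (polylog_zero_arg (k + 1)) hsl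
    intro t ht
    have h := ih (t * s) ⟨mul_pos ht.1 hs.1, by nlinarith [ht.1, ht.2, hs.1, hs.2]⟩
    have e : ((t * s : ℝ) : ℂ) * Complex.exp (θ * I) =
        (t:ℂ) * ((s:ℂ) * Complex.exp (θ * I)) := by push_cast; ring
    rw [e] at h
    exact h

lemma re_polylog_fifth_pos (k : ℕ) :
    0 < (polylog (k + 2) (Complex.exp ((2 * Real.pi / 5 : ℝ) * I))).re := by
  have hpi := Real.pi_pos
  have h0 : 0 < 2 * Real.pi / 5 := by positivity
  have h1 : 2 * Real.pi / 5 < Real.pi := by linarith
  have hval : 0 < (polylog 2 (Complex.exp ((2 * Real.pi / 5 : ℝ) * I))).re := by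
    rw [re_dilog_circle h0 h1]
    nlinarith [sq_nonneg Real.pi, mul_pos hpi hpi]
  have := re_polylog_ray_pos h0 h1 hval k 1 ⟨one_pos, le_rfl⟩
  simpa using this

/-- at `exp(2πi/N)` with `N ≥ 3`, `Re Li_k ≠ 0` for every `k ≥ 2` when `N ≥ 5`, or `N = 3, 4`. -/
lemma re_polylog_root_ne_zero {N : ℕ} (hN : 3 ≤ N) (k : ℕ) :
    (polylog (k + 2) (Complex.exp ((2 * Real.pi / N : ℝ) * I))).re ≠ 0 := by
  have hpi := Real.pi_pos
  have hNpos : (0:ℝ) < N := by
    have : 0 < N := by omega
    exact_mod_cast this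
  have hN3 : (3:ℝ) ≤ N := by exact_mod_cast hN
  have h0 : 0 < 2 * Real.pi / N := by positivity
  have h1 : 2 * Real.pi / N < Real.pi := by
    rw [div_lt_iff₀ hNpos]
    nlinarith
  have hanti := re_polylog_strictAnti k
  rcases Nat.lt_or_ge N 5 with h5 | h5
  · -- N = 3, 4
    have hN4 : (N:ℝ) ≤ 4 := by
      have : N ≤ 4 := by omega
      exact_mod_cast this
    have hhalf : (polylog (k + 2) (Complex.exp ((Real.pi / 2 : ℝ) * I))).re < 0 := by
      have := re_polylog_imag_neg (k + 1) 1 one_pos
      have e : Complex.exp ((Real.pi / 2 : ℝ) * I) = ((1:ℝ) : ℂ) * I := by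
        push_cast
        rw [Complex.exp_pi_div_two_mul_I]
        ring
      rw [e]
      exact this
    have hge : Real.pi / 2 ≤ 2 * Real.pi / N := by
      rw [div_le_div_iff₀ two_pos hNpos]
      nlinarith
    rcases hge.eq_or_lt with h | h
    · rw [← h]; exact hhalf.ne
    · have := hanti (a := Real.pi / 2) (b := 2 * Real.pi / N) ⟨by positivity, by linarith⟩ ⟨h0, h1⟩ h
      simp only at this
      linarith
  · -- N ≥ 5
    have hN5 : (5:ℝ) ≤ N := by exact_mod_cast h5
    have hle : 2 * Real.pi / N ≤ 2 * Real.pi / 5 := by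
      rw [div_le_div_iff₀ hNpos (by norm_num)]
      nlinarith
    have hpos := re_polylog_fifth_pos k
    rcases hle.eq_or_lt with h | h
    · rw [h]; exact hpos.ne'
    · have := hanti (a := 2 * Real.pi / N) (b := 2 * Real.pi / 5) ⟨h0, h1⟩
        ⟨by positivity, by linarith⟩ h
      simp only at this
      linarith

end Pool.Agent.LibZP33.Poly
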