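import Mathlib
import Pool.Agent.LibZP33.RootSigns
import Pool.Agent.LibZP33.NinePoints

open Complex Set Polynomial

namespace Pool.Agent.LibZP33.Poly

open scoped ComplexConjugate

variable {m : ℕ}

/-- the eleven exceptional points. -/
def eleven : Set ℂ := nine ∪ {omega, conj omega}

lemma omega_quad : omega ^ 2 - omega + 1 = 0 := by
  have h3 : √3 ^ 2 = 3 := Real.sq_sqrt (by norm_num)
  rw [omega_eq]
  apply Complex.ext
  · simp [pow_two]
    nlinarith
  · simp [pow_two]
    ring

lemma eq_omega_of_quad {w : ℂ} (h : w ^ 2 - w + 1 = 0) : w = omega ∨ w = conj omega := by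
  have e : (w - omega) * (w - conj omega) = 0 := by
    have h2 := omega_quad
    rw [← one_sub_omega]
    linear_combination h - h2
  rcases mul_eq_zero.1 e with h1 | h1
  · left; exact sub_eq_zero.1 h1
  · right; exact sub_eq_zero.1 h1

lemma nine_real {z : ℂ} (hz : z ∈ nine) : z.im = 0 := by
  unfold nine at hz
  simp only [Set.mem_insert_iff, Set.mem_singleton_iff] at hz
  rcases hz with rfl | rfl | rfl | rfl | rfl | rfl | rfl | rfl | rfl
  · simp
  · simp
  · simp
  all_goals exact Complex.ofReal_im _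

/-- all conjugates of an atypical algebraic number being atypical forces it to be one of the
eleven points. -/
lemma mem_eleven_of_stable {z : ℂ} (hz : IsAlgebraic ℚ z)
    (h : ∀ w : ℂ, aeval w (minpoly ℚ z) = 0 → w ∈ atypicalLocus (m + 2)) : z ∈ eleven := by
  have hint : IsIntegral ℚ z := hz.isIntegral
  have hmem := h z (minpoly.aeval ℚ z)
  obtain ⟨h0, h1, _⟩ := mem_atypicalLocus_iff.1 hmem
  have hdep : MultDep z := (mem_hodgeLocus_iff.1 hmem.1).2.2
  by_cases hroot : ∃ k : ℕ, 0 < k ∧ z ^ k = 1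
  · -- roots of unity
    obtain ⟨k, hk, hzk⟩ := hroot
    have hfin : IsOfFinOrder z := isOfFinOrder_iff_pow_eq_one.2 ⟨k, hk, hzk⟩
    set N := orderOf z with hN
    have hNpos : 0 < N := hfin.orderOf_pos
    have hprim : IsPrimitiveRoot z N := IsPrimitiveRoot.orderOf z
    have hζ : IsPrimitiveRoot (Complex.exp (2 * Real.pi * I / N)) N :=
      Complex.isPrimitiveRoot_exp N hNpos.ne'
    have hconj : aeval (Complex.exp (2 * Real.pi * I / N)) (minpoly ℚ z) = 0 := by
      rw [← Polynomial.cyclotomic_eq_minpoly_rat hprim hNpos,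
        Polynomial.cyclotomic_eq_minpoly_rat hζ hNpos]
      exact minpoly.aeval ℚ _
    have hζmem := h _ hconj
    have hexp : Complex.exp (2 * Real.pi * I / N) =
        Complex.exp ((2 * Real.pi / N : ℝ) * I) := by
      congr 1
      push_cast
      ring
    rw [hexp] at hζmem
    rcases Nat.lt_or_ge N 3 with hN3 | hN3
    · have hN12 : N = 1 ∨ N = 2 := by omega
      rcases hN12 with h2 | h2
      · exfalso
        rw [h2] at hprim
        exact h1 (by simpa using hprim.pow_eq_one)
      · left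
        rw [h2] at hprim
        have h3 : (z - 1) * (z + 1) = 0 := by
          have := hprim.pow_eq_one
          linear_combination this
        rcases mul_eq_zero.1 h3 with h4 | h4
        · exact absurd (sub_eq_zero.1 h4) h1
        · have : z = -1 := eq_neg_of_add_eq_zero_left h4
          rw [this]; simp [nine]
    · have hpi := Real.pi_pos
      have hNr : (0:ℝ) < N := by exact_mod_cast hNpos
      have hNr3 : (3:ℝ) ≤ N := by exact_mod_cast hN3
      have g0 : 0 < 2 * Real.pi / N := by positivity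
      have g1 : 2 * Real.pi / N < Real.pi := by
        rw [div_lt_iff₀ hNr]
        nlinarith
      have him := im_exp_pos g0 g1
      rcases (nonreal_atypical hζmem him.ne').2 with h3 | h3 | ⟨i, _, h3⟩
      · -- `N = 6`
        right
        have hN6 : aeval omega (minpoly ℚ z) = 0 := by
          rw [← h3, ← hexp]
          exact hconj
        have e1 : minpoly ℚ z = minpoly ℚ omega :=
          minpoly.eq_of_irreducible_of_monic (minpoly.irreducible hint) hN6 (minpoly.monic hint)
        have e2 : minpoly ℚ omega ∣ (X ^ 2 - X + 1 : Polynomial ℚ) := by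
          apply minpoly.dvd
          simp [omega_quad]
        rw [← e1] at e2
        obtain ⟨R, hR⟩ := e2
        have e3 : aeval z (X ^ 2 - X + 1 : Polynomial ℚ) = 0 := by
          rw [hR, map_mul, minpoly.aeval, zero_mul]
        have e4 : z ^ 2 - z + 1 = 0 := by simpa using e3
        rcases eq_omega_of_quad e4 with h5 | h5
        · rw [h5]; simp
        · rw [h5]; simp
      · exfalso
        rw [h3, conj_omega_eq] at him
        simp only at him
        have : 0 ≤ √3 := Real.sqrt_nonneg 3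
        linarith
      · exact absurd h3 (re_polylog_root_ne_zero hN3 (2 * i + 1))
  · -- not a root of unity
    left
    apply totally_real h0 h1 hdep
    intro w hw
    have hwm := h w hw
    obtain ⟨w0, _, _⟩ := mem_atypicalLocus_iff.1 hwm
    by_contra him
    apply hroot
    obtain ⟨⟨s, hs⟩, _⟩ := nonreal_atypical hwm him
    obtain ⟨k, hk, hwk⟩ := isRoot_of_yy w0 hs
    refine ⟨k, hk, ?_⟩
    have hwint : IsIntegral ℚ w := by
      refine ⟨X ^ k - 1, monic_X_pow_sub_C 1 hk.ne', ?_⟩
      simp [hwk]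
    have e1 : minpoly ℚ z = minpoly ℚ w :=
      minpoly.eq_of_irreducible_of_monic (minpoly.irreducible hint) hw (minpoly.monic hint)
    have e2 : minpoly ℚ w ∣ (X ^ k - 1 : Polynomial ℚ) := by
      apply minpoly.dvd
      simp [hwk]
    rw [← e1] at e2
    obtain ⟨R, hR⟩ := e2
    have e3 : aeval z (X ^ k - 1 : Polynomial ℚ) = 0 := by
      rw [hR, map_mul, minpoly.aeval, zero_mul]
    have e4 : z ^ k - 1 = 0 := by simpa using e3
    exact sub_eq_zero.1 e4

/-- conjugates of a root of a rational quadratic satisfy the same quadratic. -/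
lemma conj_quad {z w : ℂ} {T N : ℚ} (hz : z ^ 2 - T * z + N = 0)
    (hw : aeval w (minpoly ℚ z) = 0) : w ^ 2 - T * w + N = 0 := by
  have hd : minpoly ℚ z ∣ (X ^ 2 - C T * X + C N : Polynomial ℚ) := by
    apply minpoly.dvd
    simpa using hz
  obtain ⟨R, hR⟩ := hd
  have e3 : aeval w (X ^ 2 - C T * X + C N : Polynomial ℚ) = 0 := by
    rw [hR, map_mul, hw, zero_mul]
  simpa using e3

lemma isAlgebraic_quad {z : ℂ} {T N : ℚ} (hz : z ^ 2 - T * z + N = 0) : IsAlgebraic ℚ z := by
  refine ⟨X ^ 2 - C T * X + C N, ?_, by simpa using hz⟩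
  intro h
  have := congrArg (fun p : Polynomial ℚ => p.coeff 2) h
  simp [coeff_X, coeff_C, coeff_one] at this

lemma mem_nine_of_roots {w : ℂ} {T N : ℚ} (hw : w ^ 2 - T * w + N = 0)
    (h : (N = 1 ∧ T = 3) ∨ (N = -1 ∧ (T = 1 ∨ T = -1))) : w ∈ nine := by
  have h5 : ((√5 : ℝ) : ℂ) ^ 2 = 5 := by
    rw [← Complex.ofReal_pow, Real.sq_sqrt (by norm_num)]
    norm_num
  rcases h with ⟨rfl, rfl⟩ | ⟨rfl, rfl | rfl⟩
  · have : (w - (((3 + √5) / 2 : ℝ) : ℂ)) * (w - (((3 - √5) / 2 : ℝ) : ℂ)) = 0 := by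
      push_cast at hw ⊢
      linear_combination hw - h5 / 4
    rcases mul_eq_zero.1 this with h | h
    · rw [sub_eq_zero.1 h]; simp [nine]
    · rw [sub_eq_zero.1 h]; simp [nine]
  · have : (w - (((1 + √5) / 2 : ℝ) : ℂ)) * (w - (((1 - √5) / 2 : ℝ) : ℂ)) = 0 := by
      push_cast at hw ⊢
      linear_combination hw - h5 / 4
    rcases mul_eq_zero.1 this with h | h
    · rw [sub_eq_zero.1 h]; simp [nine]
    · rw [sub_eq_zero.1 h]; simp [nine]
  · have : (w - (((-1 + √5) / 2 : ℝ) : ℂ)) * (w - (((-1 - √5) / 2 : ℝ) : ℂ)) = 0 := by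
      push_cast at hw ⊢
      linear_combination hw - h5 / 4
    rcases mul_eq_zero.1 this with h | h
    · rw [sub_eq_zero.1 h]; simp [nine]
    · rw [sub_eq_zero.1 h]; simp [nine]

lemma stable_of_rat {z : ℂ} {q : ℚ} (hz : z = q) (hm : z ∈ nine) :
    IsAlgebraic ℚ z ∧ ∀ w : ℂ, aeval w (minpoly ℚ z) = 0 → w ∈ nine := by
  constructor
  · rw [hz]; exact isAlgebraic_algebraMap q
  · intro w hw
    have hd : minpoly ℚ z ∣ (X - C q : Polynomial ℚ) := by
      apply minpoly.dvd
      simp [hz]
    obtain ⟨R, hR⟩ := hd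
    have e3 : aeval w (X - C q : Polynomial ℚ) = 0 := by
      rw [hR, map_mul, hw, zero_mul]
    have e4 : w - (q : ℂ) = 0 := by simpa using e3
    rw [sub_eq_zero.1 e4, ← hz]
    exact hm

lemma stable_of_quad {z : ℂ} {T N : ℚ} (hz : z ^ 2 - T * z + N = 0)
    (h : (N = 1 ∧ T = 3) ∨ (N = -1 ∧ (T = 1 ∨ T = -1))) :
    IsAlgebraic ℚ z ∧ ∀ w : ℂ, aeval w (minpoly ℚ z) = 0 → w ∈ nine :=
  ⟨isAlgebraic_quad hz, fun _ hw => mem_nine_of_roots (conj_quad hz hw) h⟩

lemma nine_stable {z : ℂ} (hz : z ∈ nine) :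
    IsAlgebraic ℚ z ∧ ∀ w : ℂ, aeval w (minpoly ℚ z) = 0 → w ∈ nine := by
  have hz' := hz
  have h5 : ((√5 : ℝ) : ℂ) ^ 2 = 5 := by
    rw [← Complex.ofReal_pow, Real.sq_sqrt (by norm_num)]
    norm_num
  unfold nine at hz'
  simp only [Set.mem_insert_iff, Set.mem_singleton_iff] at hz'
  rcases hz' with rfl | rfl | rfl | rfl | rfl | rfl | rfl | rfl | rfl
  · exact stable_of_rat (q := -1) (by push_cast; ring) hz
  · exact stable_of_rat (q := 2) (by push_cast; ring) hz
  · exact stable_of_rat (q := 1 / 2) (by push_cast; ring) hz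
  · exact stable_of_quad (T := 3) (N := 1) (by push_cast; linear_combination h5 / 4)
      (Or.inl ⟨rfl, rfl⟩)
  · exact stable_of_quad (T := 3) (N := 1) (by push_cast; linear_combination h5 / 4)
      (Or.inl ⟨rfl, rfl⟩)
  · exact stable_of_quad (T := 1) (N := -1) (by push_cast; linear_combination h5 / 4)
      (Or.inr ⟨rfl, Or.inl rfl⟩)
  · exact stable_of_quad (T := 1) (N := -1) (by push_cast; linear_combination h5 / 4)
      (Or.inr ⟨rfl, Or.inl rfl⟩)
  · exact stable_of_quad (T := -1) (N := -1) (by push_cast; linear_combination h5 / 4)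
      (Or.inr ⟨rfl, Or.inr rfl⟩)
  · exact stable_of_quad (T := -1) (N := -1) (by push_cast; linear_combination h5 / 4)
      (Or.inr ⟨rfl, Or.inr rfl⟩)

lemma omega_stable {z : ℂ} (hz : z = omega ∨ z = conj omega) :
    IsAlgebraic ℚ z ∧ ∀ w : ℂ, aeval w (minpoly ℚ z) = 0 → w = omega ∨ w = conj omega := by
  have hq : z ^ 2 - z + 1 = 0 := by
    rcases hz with rfl | rfl
    · exact omega_quad
    · have := omega_quad
      rw [← one_sub_omega]
      linear_combination this
  have hq' : z ^ 2 - ((1 : ℚ) : ℂ) * z + ((1 : ℚ) : ℂ) = 0 := by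
    push_cast
    linear_combination hq
  refine ⟨isAlgebraic_quad hq', ?_⟩
  intro w hw
  have := conj_quad hq' hw
  apply eq_omega_of_quad
  push_cast at this
  linear_combination this

/-- **The Galois-stable part of the atypical locus.** -/
lemma stable_part (m : ℕ) : {z : ℂ | IsAlgebraic ℚ z ∧
    ∀ w : ℂ, aeval w (minpoly ℚ z) = 0 → w ∈ atypicalLocus (m + 2)} = eleven := by
  apply Set.Subset.antisymm
  · rintro z ⟨h1, h2⟩
    exact mem_eleven_of_stable h1 h2
  · intro z hz
    rcases hz with hz | hz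
    · obtain ⟨h1, h2⟩ := nine_stable hz
      exact ⟨h1, fun w hw => nine_subset m (h2 w hw)⟩
    · obtain ⟨h1, h2⟩ := omega_stable (by simpa using hz)
      refine ⟨h1, fun w hw => ?_⟩
      rcases h2 w hw with h3 | h3
      · rw [h3]; exact omega_mem m
      · rw [h3]; exact conj_omega_mem m

end Pool.Agent.LibZP33.Poly
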